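import Pool.Agent.Y172.Cov3

/-!
Alternating forms on the derivations of a field: coordinates, extension to larger fields.
-/

set_option autoImplicit false
set_option linter.all false

open Module FF Pool.Agent.W602.GT

namespace Pool.Agent.L7h62.MM

/-- coordinates of `L` over `k`: a transcendence basis with the dual derivations -/
structure Crd (k L : Type) [Field k] [Field L] [Algebra k L] (I : Type) [DecidableEq I] where
  z : I → L
  E : I → Derivation k L L
  bas : IsTranscendenceBasis k z
  dual : ∀ i j, E i (z j) = if i = j then 1 else 0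

/-- the values of alternating forms -/
abbrev Frm (k L : Type) [Field k] [Field L] [Algebra k L] (ι : Type) : Type :=
  (Derivation k L L) [⋀^ι]→ₗ[L] L

section basics

variable {k L R : Type} [Field k] [CharZero k] [Field L] [Field R] [Algebra k L] [Algebra k R]
  {I : Type} [Fintype I] [DecidableEq I]

theorem exists_crd' {n : ℕ} (hn : Algebra.trdeg k L = n) : Nonempty (Crd k L (Fin n)) := by
  obtain ⟨y, E, h1, h2⟩ := Pool.Agent.Y172.exists_crd hn
  exact ⟨⟨y, E, h1, h2⟩⟩

theorem crd_of {z : I → L} (hz : IsTranscendenceBasis k z) :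
    ∃ C : Crd k L I, C.z = z := by
  choose E hE using fun i : I => exists_der _ hz fun j => if i = j then (1 : L) else 0
  exact ⟨⟨z, E, hz, hE⟩, rfl⟩

/-- a derivation into a larger field which vanishes on a transcendence basis is zero -/
theorem der_zero' {z : I → L} (hz : IsTranscendenceBasis k z) (φ : L →ₐ[k] R)
    (D : Derivation k R R) (h : ∀ i, D (φ (z i)) = 0) (f : L) : D (φ f) = 0 := by
  letI : Algebra L R := φ.toRingHom.toAlgebra
  have hT : IsScalarTower k L R := IsScalarTower.of_algebraMap_eq fun c => (φ.commutes c).symm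
  exact Pool.Agent.W619.TW.der_zero (D.compAlgebraMap L) z hz h f

theorem der_sum_apply {J : Type} (s : Finset J) (g : J → Derivation k R R) (f : R) :
    (∑ c ∈ s, g c) f = ∑ c ∈ s, g c f := by
  classical
  induction s using Finset.induction_on with
  | empty => rfl
  | insert a s ha ih =>
    rw [Finset.sum_insert ha, Finset.sum_insert ha, ← ih]
    rfl

theorem expandD (C : Crd k L I) (D : Derivation k L L) : ∑ b, D (C.z b) • C.E b = D := by
  ext f
  have h1 := der_zero' C.bas (AlgHom.id k L) ((∑ b, D (C.z b) • C.E b) - D) (fun i => by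
    change (∑ b, D (C.z b) • C.E b) (C.z i) - D (C.z i) = 0
    rw [der_sum_apply]
    change ∑ b, D (C.z b) * C.E b (C.z i) - D (C.z i) = 0
    simp only [C.dual, mul_ite, mul_one, mul_zero, Finset.sum_ite_eq', Finset.mem_univ, if_true,
      sub_self]) f
  exact sub_eq_zero.1 h1

theorem lc_der (φ : L →ₐ[k] R) (D : Derivation k L L) (f g : L) :
    φ (D (f * g)) = φ f * φ (D g) + φ g * φ (D f) := by
  rw [D.leibniz, map_add]
  simp

/-- the chain rule -/
theorem chainA (C : Crd k L I) (φ : L →ₐ[k] R) (D : Derivation k R R) (f : L) :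
    D (φ f) = ∑ c, D (φ (C.z c)) * φ (C.E c f) := by
  letI : Algebra L R := φ.toRingHom.toAlgebra
  have hT : IsScalarTower k L R := IsScalarTower.of_algebraMap_eq fun c => (φ.commutes c).symm
  let e := Fintype.equivFin I
  have hE : ∀ i j : Fin (Fintype.card I), C.E (e.symm i) (C.z (e.symm j)) =
      if i = j then 1 else 0 := by
    intro i j
    rw [C.dual]
    simp [e.symm.injective.eq_iff]
  have h1 := Pool.Agent.W73.PG.PULL.chain (fun i => C.z (e.symm i))
    ((isTranscendenceBasis_equiv e.symm).2 C.bas) (fun i => C.E (e.symm i)) hE D f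
  refine Eq.trans h1 ?_
  exact Equiv.sum_comp e.symm (fun c => D (φ (C.z c)) * φ (C.E c f))

/-- evaluation at a function -/
def evD (k : Type) {R : Type} [Field k] [Field R] [Algebra k R] (g : R) :
    Derivation k R R →ₗ[R] R where
  toFun := fun D => D g
  map_add' := fun _ _ => rfl
  map_smul' := fun _ _ => rfl

end basics

section forms

variable {k L R S : Type} [Field k] [CharZero k] [Field L] [Field R] [Field S] [Algebra k L]
  [Algebra k R] [Algebra k S] {I J : Type} [Fintype I] [DecidableEq I] [Fintype J] [DecidableEq J]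
  {ι : Type} [Fintype ι] [DecidableEq ι]

/-- antisymmetric families -/
def Anti (c : (ι → I) → R) : Prop :=
  ∀ (κ : ι → I) (a b : ι), a ≠ b → c (κ ∘ Equiv.swap a b) = - c κ

/-- the form `∑ κ, c κ * d g (κ 1) ⊗ ... ⊗ d g (κ p)` -/
noncomputable def mkF (g : I → R) (c : (ι → I) → R) (hc : Anti c) : Frm k R ι :=
  { toMultilinearMap := ∑ κ : ι → I, c κ •
      (MultilinearMap.mkPiAlgebra R ι R).compLinearMap (fun i => evD k (g (κ i)))
    map_eq_zero_of_eq' := by
      intro D a b hab hne
      have hcR : CharZero R := charZero_of_injective_algebraMap (algebraMap k R).injective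
      have happ : ∀ D : ι → Derivation k R R, (∑ κ : ι → I, c κ •
          (MultilinearMap.mkPiAlgebra R ι R).compLinearMap (fun i => evD k (g (κ i))) :
          MultilinearMap R (fun _ : ι => Derivation k R R) R) D =
          ∑ κ : ι → I, c κ * ∏ i, D i (g (κ i)) := by
        intro D
        rw [MultilinearMap.sum_apply]
        rfl
      change (∑ κ : ι → I, c κ •
          (MultilinearMap.mkPiAlgebra R ι R).compLinearMap (fun i => evD k (g (κ i))) :
          MultilinearMap R (fun _ : ι => Derivation k R R) R) D = 0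
      rw [happ]
      have h1 : ∑ κ : ι → I, c κ * ∏ i, D i (g (κ i)) =
          ∑ κ : ι → I, -(c κ * ∏ i, D i (g (κ i))) := by
        refine Fintype.sum_equiv (Equiv.arrowCongr (Equiv.swap a b) (Equiv.refl I)) _ _ fun κ => ?_
        have h2 : (Equiv.arrowCongr (Equiv.swap a b) (Equiv.refl I)) κ =
            κ ∘ Equiv.swap a b := by
          funext i
          simp [Equiv.arrowCongr]
        rw [h2, hc κ a b hne, neg_mul, neg_neg]
        congr 1
        rw [← Equiv.prod_comp (Equiv.swap a b) (fun i => D i (g ((κ ∘ Equiv.swap a b) i)))]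
        refine Finset.prod_congr rfl fun i _ => ?_
        have h3 : D (Equiv.swap a b i) = D i := by
          by_cases hia : i = a
          · rw [hia, Equiv.swap_apply_left, hab]
          · by_cases hib : i = b
            · rw [hib, Equiv.swap_apply_right, hab]
            · rw [Equiv.swap_apply_of_ne_of_ne hia hib]
        rw [h3]
        simp
      rw [Finset.sum_neg_distrib] at h1
      exact self_eq_neg.1 h1 }

theorem mkF_apply (g : I → R) (c : (ι → I) → R) (hc : Anti c) (D : ι → Derivation k R R) :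
    mkF g c hc D = ∑ κ : ι → I, c κ * ∏ i, D i (g (κ i)) := by
  change (∑ κ : ι → I, c κ •
          (MultilinearMap.mkPiAlgebra R ι R).compLinearMap (fun i => evD k (g (κ i))) :
          MultilinearMap R (fun _ : ι => Derivation k R R) R) D = _
  rw [MultilinearMap.sum_apply]
  rfl

theorem anti_frm (θ : Frm k L ι) (φ : L →ₐ[k] R) (E : I → Derivation k L L) :
    Anti fun κ : ι → I => φ (θ fun i => E (κ i)) := by
  intro κ a b hab
  have h1 := θ.map_swap (fun i => E (κ i)) hab
  change φ (θ ((fun i => E (κ i)) ∘ Equiv.swap a b)) = _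
  rw [h1, map_neg]

/-- expansion of the value of a form -/
theorem frm_expand (θ : Frm k L ι) (E : I → Derivation k L L) (a : ι → I → L) :
    θ (fun i => ∑ j, a i j • E j) = ∑ κ : ι → I, (∏ i, a i (κ i)) * θ fun i => E (κ i) := by
  change θ.toMultilinearMap _ = _
  rw [MultilinearMap.map_sum]
  refine Finset.sum_congr rfl fun κ _ => ?_
  rw [MultilinearMap.map_smul_univ]
  rfl

/-- the extension of a form to a larger field -/
noncomputable def extF (C : Crd k L I) (φ : L →ₐ[k] R) (θ : Frm k L ι) : Frm k R ι :=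
  mkF (fun i => φ (C.z i)) (fun κ => φ (θ fun i => C.E (κ i))) (anti_frm θ φ C.E)

theorem extF_apply (C : Crd k L I) (φ : L →ₐ[k] R) (θ : Frm k L ι) (D : ι → Derivation k R R) :
    extF C φ θ D = ∑ κ : ι → I, φ (θ fun i => C.E (κ i)) * ∏ i, D i (φ (C.z (κ i))) :=
  mkF_apply _ _ _ _

/-- the value on the lifts of derivations -/
theorem extF_lift (C : Crd k L I) (φ : L →ₐ[k] R) (θ : Frm k L ι) {D : ι → Derivation k L L}
    {D' : ι → Derivation k R R} (h : ∀ i f, D' i (φ f) = φ (D i f)) :
    extF C φ θ D' = φ (θ D) := by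
  rw [extF_apply]
  have h1 : D = fun i => ∑ j, D i (C.z j) • C.E j := by
    funext i
    exact (expandD C (D i)).symm
  conv_rhs => rw [h1]
  rw [frm_expand, map_sum]
  refine Finset.sum_congr rfl fun κ _ => ?_
  rw [map_mul, map_prod, mul_comm]
  congr 1
  exact Finset.prod_congr rfl fun i _ => h i _

theorem prod_sum' {c : ι → I → R} : ∏ i, ∑ j, c i j = ∑ κ : ι → I, ∏ i, c i (κ i) := by
  rw [Finset.prod_univ_sum]
  simp

/-- the extension does not depend on the coordinates -/
theorem extF_crd (C : Crd k L I) (C' : Crd k L J) (φ : L →ₐ[k] R) (θ : Frm k L ι) :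
    extF C φ θ = extF C' φ θ := by
  ext D
  rw [extF_apply, extF_apply]
  have h1 : ∀ κ' : ι → J, φ (θ fun i => C'.E (κ' i)) * ∏ i, D i (φ (C'.z (κ' i))) =
      ∑ κ : ι → I, (∏ i, D i (φ (C.z (κ i)))) *
        (φ (∏ i, C.E (κ i) (C'.z (κ' i))) * φ (θ fun i => C'.E (κ' i))) := by
    intro κ'
    have h2 : ∏ i, D i (φ (C'.z (κ' i))) =
        ∏ i, ∑ j, D i (φ (C.z j)) * φ (C.E j (C'.z (κ' i))) :=
      Finset.prod_congr rfl fun i _ => chainA C φ (D i) _
    rw [h2, prod_sum', Finset.mul_sum]
    refine Finset.sum_congr rfl fun κ _ => ?_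
    rw [Finset.prod_mul_distrib, map_prod]
    ring
  rw [Finset.sum_congr rfl fun κ' _ => h1 κ', Finset.sum_comm]
  refine Finset.sum_congr rfl fun κ _ => ?_
  rw [← Finset.mul_sum, mul_comm]
  congr 1
  have h3 : (fun i => C.E (κ i)) = fun i => ∑ j, C.E (κ i) (C'.z j) • C'.E j := by
    funext i
    exact (expandD C' (C.E (κ i))).symm
  rw [h3, frm_expand, map_sum]
  refine Finset.sum_congr rfl fun κ' _ => ?_
  rw [map_mul]

/-- transitivity -/
theorem extF_comp (C : Crd k L I) (C' : Crd k R J) (φ : L →ₐ[k] R) (ψ : R →ₐ[k] S)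
    (θ : Frm k L ι) : extF C' ψ (extF C φ θ) = extF C (ψ.comp φ) θ := by
  ext D
  rw [extF_apply, extF_apply]
  simp only [extF_apply, AlgHom.comp_apply]
  have h1 : ∀ κ : ι → I, ψ (φ (θ fun i => C.E (κ i))) * ∏ i, D i (ψ (φ (C.z (κ i)))) =
      ∑ μ : ι → J, ψ (φ (θ fun i => C.E (κ i)) * ∏ i, C'.E (μ i) (φ (C.z (κ i)))) *
        ∏ i, D i (ψ (C'.z (μ i))) := by
    intro κ
    have h2 : ∏ i, D i (ψ (φ (C.z (κ i)))) =
        ∏ i, ∑ j, D i (ψ (C'.z j)) * ψ (C'.E j (φ (C.z (κ i)))) :=
      Finset.prod_congr rfl fun i _ => chainA C' ψ (D i) _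
    rw [h2, prod_sum', Finset.mul_sum]
    refine Finset.sum_congr rfl fun μ _ => ?_
    rw [Finset.prod_mul_distrib, map_mul, map_prod]
    ring
  rw [Finset.sum_congr rfl fun κ _ => h1 κ, Finset.sum_comm]
  refine Finset.sum_congr rfl fun μ _ => ?_
  rw [map_sum, Finset.sum_mul]

end forms

end Pool.Agent.L7h62.MM
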