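import Pool.Agent.L7h62.MM.Wdg
import Pool.Agent.Y36.LT.ORD
import Pool.Agent.Y36.LT.GAUSS

/-!
Rational functions without poles at the places which are not defined over the constants.
-/

set_option autoImplicit false
set_option linter.all false

open Module FF MvPolynomial Pool.Agent.Y166.LT

namespace Pool.Agent.L7h62.MM

section

variable {k₀ F K₀ : Type} [Field k₀] [Field F] [Field K₀] [Algebra k₀ F] [Algebra F K₀]
  {n : ℕ} {x : Fin n → K₀}

theorem ael_ne (hx : AlgebraicIndependent F x) {G : MvPolynomial (Fin n) F} (hG : G ≠ 0) :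
    aeval x G ≠ 0 := fun h => hG (hx (by rw [h, map_zero]))

/-- orders of polynomials at the place of an irreducible polynomial -/
theorem pl_ord (hx : AlgebraicIndependent F x) {v : Place F K₀} {q : MvPolynomial (Fin n) F}
    (hq : Irreducible q) (hv : IsPl x v q) {G : MvPolynomial (Fin n) F} (hG : G ≠ 0) :
    ∃ (m : ℕ) (G' : MvPolynomial (Fin n) F), ¬ q ∣ G' ∧ G = q ^ m * G' ∧
      v.ord (aeval x G) = m ∧ v.ord (aeval x G') = 0 := by
  obtain ⟨m, G', h1, h2⟩ := WfDvdMonoid.max_power_factor hG hq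
  refine ⟨m, G', h1, h2, ?_, hv.2 G' h1⟩
  have h3 : G' ≠ 0 := by
    rintro rfl
    exact h1 (dvd_zero _)
  rw [h2, map_mul, map_pow, v.ord_mul (pow_ne_zero _ (ael_ne hx hq.ne_zero)) (ael_ne hx h3),
    v.ord_pow, hv.1, hv.2 G' h1]
  ring

theorem pl_reg (hx : AlgebraicIndependent F x) {v : Place F K₀} {q : MvPolynomial (Fin n) F}
    (hq : Irreducible q) (hv : IsPl x v q) (G : MvPolynomial (Fin n) F) : v.Reg (aeval x G) := by
  by_cases hG : G = 0
  · left
    rw [hG, map_zero]
  · right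
    obtain ⟨m, -, -, -, h, -⟩ := pl_ord hx hq hv hG
    rw [h]
    exact Int.natCast_nonneg m

/-- the irreducible polynomial divides no polynomial over the constants -/
def NC (k₀ : Type) {F : Type} [Field k₀] [Field F] [Algebra k₀ F] {n : ℕ}
    (q : MvPolynomial (Fin n) F) : Prop :=
  ∀ h : MvPolynomial (Fin n) k₀, h ≠ 0 → ¬ q ∣ map (algebraMap k₀ F) h

theorem map_ne {h : MvPolynomial (Fin n) k₀} (hh : h ≠ 0) : map (algebraMap k₀ F) h ≠ 0 := by
  intro h0
  exact hh (MvPolynomial.map_injective _ (algebraMap k₀ F).injective (by rw [h0, map_zero]))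

/-- **Denominators over the constants.** -/
theorem denom (hx : AlgebraicIndependent F x)
    (htop : IntermediateField.adjoin F (Set.range x) = ⊤) (B : MvPolynomial (Fin n) F) :
    B ≠ 0 → ∀ c : K₀, (∃ A : MvPolynomial (Fin n) F, c * aeval x B = aeval x A) →
    (∀ q : MvPolynomial (Fin n) F, Irreducible q → NC k₀ q → ∀ v : Place F K₀, IsPl x v q →
      v.Reg c) →
    ∃ h : MvPolynomial (Fin n) k₀, h ≠ 0 ∧ ∃ A : MvPolynomial (Fin n) F,
      c * aeval x (map (algebraMap k₀ F) h) = aeval x A := by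
  induction B using UniqueFactorizationMonoid.induction_on_prime with
  | h₁ => exact fun h => absurd rfl h
  | h₂ B hB =>
    rintro - c ⟨A, hA⟩ -
    obtain ⟨u, hu⟩ := hB
    refine ⟨1, one_ne_zero, A * ((u⁻¹ : (MvPolynomial (Fin n) F)ˣ) : MvPolynomial (Fin n) F), ?_⟩
    rw [map_mul, ← hA, map_one, map_one, mul_one, mul_assoc, ← map_mul, ← hu, Units.mul_inv,
      map_one, mul_one]
  | h₃ B q hB hq ih =>
    rintro - c ⟨A, hA⟩ hreg
    by_cases hnc : NC k₀ q
    · obtain ⟨v, hv⟩ := Pool.Agent.Y36.LT.ORD.done F K₀ (Fin n) x hx htop q hq.irreducible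
      have h1 := hreg q hq.irreducible hnc v hv
      have hdvd : q ∣ A := by
        by_contra hA'
        have h2 : v.ord (aeval x A) = 0 := hv.2 A hA'
        have hc0 : c ≠ 0 := by
          rintro rfl
          rw [zero_mul] at hA
          apply hA'
          have : A = 0 := hx (by rw [← hA, map_zero])
          rw [this]
          exact dvd_zero _
        rw [← hA, v.ord_mul hc0 (ael_ne hx (mul_ne_zero hq.ne_zero hB)), map_mul,
          v.ord_mul (ael_ne hx hq.ne_zero) (ael_ne hx hB), hv.1] at h2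
        have h3 := (v.reg_iff hc0).1 h1
        obtain ⟨m, -, -, -, h4, -⟩ := pl_ord hx hq.irreducible hv hB
        omega
      obtain ⟨A', rfl⟩ := hdvd
      refine ih hB c ⟨A', ?_⟩ hreg
      apply mul_left_cancel₀ (ael_ne hx hq.ne_zero)
      rw [← map_mul, ← hA, map_mul]
      ring
    · unfold NC at hnc
      push Not at hnc
      obtain ⟨h₁, hh₁, s, hs⟩ := hnc
      obtain ⟨h', hh', A', hA'⟩ := ih hB (c * aeval x (map (algebraMap k₀ F) h₁)) ⟨A * s, by
        rw [hs, map_mul, map_mul, ← hA, map_mul]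
        ring⟩ (fun q' hq' hnc' v hv => v.reg_mul (hreg q' hq' hnc' v hv) (pl_reg hx hq' hv _))
      refine ⟨h₁ * h', mul_ne_zero hh₁ hh', A', ?_⟩
      rw [← hA', map_mul, map_mul]
      ring

/-- a common denominator for a finite family -/
theorem denoms (hx : AlgebraicIndependent F x)
    (htop : IntermediateField.adjoin F (Set.range x) = ⊤) {T : Type} [Fintype T] (c : T → K₀)
    (hreg : ∀ q : MvPolynomial (Fin n) F, Irreducible q → NC k₀ q → ∀ v : Place F K₀, IsPl x v q →
      ∀ t, v.Reg (c t)) :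
    ∃ h : MvPolynomial (Fin n) k₀, h ≠ 0 ∧ ∃ A : T → MvPolynomial (Fin n) F, ∀ t,
      c t * aeval x (map (algebraMap k₀ F) h) = aeval x (A t) := by
  classical
  have h1 : ∀ t, ∃ h : MvPolynomial (Fin n) k₀, h ≠ 0 ∧ ∃ A : MvPolynomial (Fin n) F,
      c t * aeval x (map (algebraMap k₀ F) h) = aeval x A := by
    intro t
    obtain ⟨A, B, hB, hAB⟩ := Pool.Agent.Y36.LT.frac_of_adjoin x htop hx (c t)
    refine denom hx htop B hB (c t) ⟨A, ?_⟩ fun q hq hnc v hv => hreg q hq hnc v hv t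
    rw [hAB, div_mul_cancel₀ _ (ael_ne hx hB)]
  choose h hh A hA using h1
  refine ⟨∏ t, h t, Finset.prod_ne_zero_iff.2 fun t _ => hh t,
    fun t => A t * ∏ s ∈ Finset.univ.erase t, map (algebraMap k₀ F) (h s), fun t => ?_⟩
  rw [map_mul, ← hA, mul_assoc, ← map_mul, map_prod]
  congr 2
  exact (Finset.mul_prod_erase Finset.univ (fun t => map (algebraMap k₀ F) (h t))
    (Finset.mem_univ t)).symm

/-- the Gauss extension of a place -/
structure IsGauss {k : Type} [Field k] [Algebra k F] [Algebra k K₀] (x : Fin n → K₀)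
    (w : Place k K₀) (P : Place k F) : Prop where
  ord : ∀ f : F, w.ord (algebraMap F K₀ f) = P.ord f
  reg : ∀ G : MvPolynomial (Fin n) F, (∀ s, P.Reg (G.coeff s)) → w.Reg (aeval x G)
  unit : ∀ G : MvPolynomial (Fin n) F, (∀ s, P.Reg (G.coeff s)) →
    (∃ s, G.coeff s ≠ 0 ∧ P.ord (G.coeff s) = 0) → w.ord (aeval x G) = 0

variable {k : Type} [Field k] [Algebra k F] [Algebra k K₀] [IsScalarTower k F K₀]

theorem exists_gauss (hx : AlgebraicIndependent F x)
    (htop : IntermediateField.adjoin F (Set.range x) = ⊤) (P : Place k F) :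
    ∃ w : Place k K₀, IsGauss x w P := by
  obtain ⟨w, h1, h2⟩ := Pool.Agent.Y36.LT.GAUSS.done k F K₀ (Fin n) x hx htop P
  exact ⟨w, h1, fun G hG => (h2 G hG).1, fun G hG hG' => ((h2 G hG).2 hG').2⟩

/-- normalisation of a polynomial -/
theorem gauss_norm {w : Place k K₀} {P : Place k F} (hw : IsGauss x w P)
    (hx : AlgebraicIndependent F x) {G : MvPolynomial (Fin n) F} (hG : G ≠ 0) :
    ∃ a : F, a ≠ 0 ∧ (∀ s, P.Reg ((C a⁻¹ * G).coeff s)) ∧
      w.ord (aeval x (C a⁻¹ * G)) = 0 ∧ w.ord (aeval x G) = P.ord a ∧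
      (∃ s, a = G.coeff s) := by
  classical
  obtain ⟨m0, hm0, hmin⟩ := Finset.exists_min_image G.support (fun m => P.ord (G.coeff m))
    (MvPolynomial.support_nonempty.2 hG)
  obtain ⟨a, ha⟩ : ∃ a, a = G.coeff m0 := ⟨_, rfl⟩
  have ha0 : a ≠ 0 := by
    rw [ha]
    exact MvPolynomial.mem_support_iff.1 hm0
  have h1 : ∀ s, P.Reg ((C a⁻¹ * G).coeff s) := by
    intro s
    rw [coeff_C_mul]
    by_cases hs : G.coeff s = 0
    · rw [hs, mul_zero]
      exact P.reg_zero
    · right
      rw [P.ord_mul (inv_ne_zero ha0) hs, P.ord_inv]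
      have h2 := hmin s (MvPolynomial.mem_support_iff.2 hs)
      rw [ha]
      omega
  have h2 : w.ord (aeval x (C a⁻¹ * G)) = 0 := by
    refine hw.unit _ h1 ⟨m0, ?_, ?_⟩
    · rw [coeff_C_mul, ← ha, inv_mul_cancel₀ ha0]
      exact one_ne_zero
    · rw [coeff_C_mul, ← ha, inv_mul_cancel₀ ha0, P.ord_one]
  refine ⟨a, ha0, h1, h2, ?_, m0, ha⟩
  have h3 : aeval x G = algebraMap F K₀ a * aeval x (C a⁻¹ * G) := by
    rw [map_mul, ← mul_assoc, aeval_C, ← map_mul, mul_inv_cancel₀ ha0, map_one, one_mul]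
  have h4 : algebraMap F K₀ a ≠ 0 := by simpa using ha0
  have h5 : aeval x (C a⁻¹ * G) ≠ 0 := by
    refine ael_ne hx (mul_ne_zero ?_ hG)
    simpa using ha0
  rw [h3, w.ord_mul h4 h5, h2, hw.ord, add_zero]

/-- regularity at the Gauss place is regularity of the coefficients -/
theorem gauss_coeff {w : Place k K₀} {P : Place k F} (hw : IsGauss x w P)
    (hx : AlgebraicIndependent F x) {G : MvPolynomial (Fin n) F} (hG : w.Reg (aeval x G))
    (s : Fin n →₀ ℕ) : P.Reg (G.coeff s) := by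
  by_cases hG0 : G = 0
  · rw [hG0, coeff_zero]
    exact P.reg_zero
  obtain ⟨a, ha0, h1, h2, h3, -⟩ := gauss_norm hw hx hG0
  rw [w.reg_iff (ael_ne hx hG0), h3] at hG
  have h4 := P.reg_mul (Or.inr hG : P.Reg a) (h1 s)
  rwa [coeff_C_mul, ← mul_assoc, mul_inv_cancel₀ ha0, one_mul] at h4

/-- polynomials over the constants are units at the Gauss places -/
theorem gauss_const [Algebra k₀ k] [IsScalarTower k₀ k F] {w : Place k K₀} {P : Place k F}
    (hw : IsGauss x w P) {h : MvPolynomial (Fin n) k₀} (hh : h ≠ 0) :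
    w.ord (aeval x (map (algebraMap k₀ F) h)) = 0 := by
  have h0 : ∀ c : k₀, c ≠ 0 → algebraMap k₀ F c ≠ 0 ∧ P.ord (algebraMap k₀ F c) = 0 := by
    intro c hc
    refine ⟨by simpa using hc, ?_⟩
    rw [IsScalarTower.algebraMap_apply k₀ k F]
    exact P.ord_const (by simpa using hc)
  refine hw.unit _ (fun s => ?_) ?_
  · rw [coeff_map]
    by_cases hs : h.coeff s = 0
    · rw [hs, map_zero]
      exact P.reg_zero
    · exact Or.inr (h0 _ hs).2.ge
  · obtain ⟨s, hs⟩ := MvPolynomial.ne_zero_iff.1 hh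
    exact ⟨s, by rw [coeff_map]; exact (h0 _ hs).1, by rw [coeff_map]; exact (h0 _ hs).2⟩

end

end Pool.Agent.L7h62.MM
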