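import Pool.Agent.L7h62.MM.BC1

/-!
Purely transcendental extensions: vector fields and divisorial places; the descent of forms.
-/

set_option autoImplicit false
set_option linter.all false

open Module FF MvPolynomial Pool.Agent.Y166.LT
open Pool.Agent.W602.GT (DerReg Divisorial)

namespace Pool.Agent.L7h62.MM

section good

variable {B K : Type} [Field B] [Field K] [Algebra B K] {v : Place B K} {D : Derivation B K K}

/-- regular functions with regular derivative -/
def Good (v : Place B K) (D : Derivation B K K) (f : K) : Prop := v.Reg f ∧ v.Reg (D f)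

theorem Good.add {f g : K} (hf : Good v D f) (hg : Good v D g) : Good v D (f + g) :=
  ⟨v.reg_add hf.1 hg.1, by rw [map_add]; exact v.reg_add hf.2 hg.2⟩

theorem Good.mul {f g : K} (hf : Good v D f) (hg : Good v D g) : Good v D (f * g) := by
  refine ⟨v.reg_mul hf.1 hg.1, ?_⟩
  rw [D.leibniz]
  exact v.reg_add (v.reg_mul hf.1 hg.2) (v.reg_mul hg.1 hf.2)

theorem Good.pow {f : K} (hf : Good v D f) (m : ℕ) : Good v D (f ^ m) := by
  induction m with
  | zero =>
    rw [pow_zero]
    exact ⟨v.reg_one, by rw [D.map_one_eq_zero]; exact v.reg_zero⟩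
  | succ m ih =>
    rw [pow_succ]
    exact ih.mul hf

theorem Good.sum {J : Type} (s : Finset J) {f : J → K} (h : ∀ j ∈ s, Good v D (f j)) :
    Good v D (∑ j ∈ s, f j) := by
  classical
  induction s using Finset.induction_on with
  | empty =>
    rw [Finset.sum_empty]
    exact ⟨v.reg_zero, by rw [map_zero]; exact v.reg_zero⟩
  | insert a s ha ih =>
    rw [Finset.sum_insert ha]
    exact (h a (Finset.mem_insert_self _ _)).add
      (ih fun j hj => h j (Finset.mem_insert_of_mem hj))

theorem Good.prod {J : Type} (s : Finset J) {f : J → K} (h : ∀ j ∈ s, Good v D (f j)) :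
    Good v D (∏ j ∈ s, f j) := by
  classical
  induction s using Finset.induction_on with
  | empty =>
    rw [Finset.prod_empty]
    exact ⟨v.reg_one, by rw [D.map_one_eq_zero]; exact v.reg_zero⟩
  | insert a s ha ih =>
    rw [Finset.prod_insert ha]
    exact (h a (Finset.mem_insert_self _ _)).mul
      (ih fun j hj => h j (Finset.mem_insert_of_mem hj))

/-- quotients by units -/
theorem Good.quot {f a b : K} (ha : Good v D a) (hb : Good v D b) (hb0 : b ≠ 0)
    (hbo : v.ord b = 0) (hf : v.Reg f) (h : f * b = a) : Good v D f := by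
  refine ⟨hf, ?_⟩
  have h1 : D f = (D a - f * D b) * b⁻¹ := by
    rw [← h, D.leibniz, smul_eq_mul, smul_eq_mul]
    field_simp
    ring
  rw [h1]
  refine v.reg_mul ?_ (Or.inr (by rw [v.ord_inv, hbo, neg_zero]))
  rw [sub_eq_add_neg]
  exact v.reg_add ha.2 (v.reg_neg (v.reg_mul hf hb.2))

end good

section

variable {F K₀ : Type} [Field F] [Field K₀] [Algebra F K₀] {n : ℕ} {x : Fin n → K₀}
  {B : Type} [Field B] [Algebra B K₀]

theorem good_poly {v : Place B K₀} {D : Derivation B K₀ K₀} (hx : ∀ i, Good v D (x i))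
    (G : MvPolynomial (Fin n) F) (hG : ∀ s, Good v D (algebraMap F K₀ (G.coeff s))) :
    Good v D (aeval x G) := by
  rw [MvPolynomial.aeval_def, MvPolynomial.eval₂_eq]
  exact Good.sum _ fun s _ => (hG s).mul (Good.prod _ fun i _ => (hx i).pow _)

/-- vector fields which are regular on the polynomials are regular at the places of irreducible
polynomials -/
theorem der_pl (hx : AlgebraicIndependent F x)
    (htop : IntermediateField.adjoin F (Set.range x) = ⊤) {v : Place B K₀} {v' : Place F K₀}
    (hvv : ∀ f, v.ord f = v'.ord f) {q : MvPolynomial (Fin n) F} (hq : Irreducible q)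
    (hv : IsPl x v' q) {D : Derivation B K₀ K₀} (hDx : ∀ i, v.Reg (D (x i)))
    (hDF : ∀ a : F, v.Reg (D (algebraMap F K₀ a))) : DerReg v D := by
  have hrr : ∀ f, v.Reg f ↔ v'.Reg f := fun f => by
    unfold Place.Reg
    rw [hvv]
  have hpoly : ∀ G : MvPolynomial (Fin n) F, Good v D (aeval x G) := fun G =>
    good_poly (fun i => ⟨by
      have := pl_reg hx hq hv (X i)
      rw [aeval_X] at this
      exact (hrr _).2 this, hDx i⟩) G fun s => ⟨by
      have := pl_reg hx hq hv (C (G.coeff s))
      rw [aeval_C] at this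
      exact (hrr _).2 this, hDF _⟩
  intro f hf
  by_cases hf0 : f = 0
  · rw [hf0, map_zero]
    exact v.reg_zero
  obtain ⟨A, b, hb, hAb⟩ := Pool.Agent.Y36.LT.frac_of_adjoin x htop hx f
  have hA : A ≠ 0 := by
    rintro rfl
    rw [map_zero, zero_div] at hAb
    exact hf0 hAb
  obtain ⟨m, b', hb1, hb2, hb3, hb4⟩ := pl_ord hx hq hv hb
  obtain ⟨m', A', hA1, hA2, hA3, hA4⟩ := pl_ord hx hq hv hA
  have hb' : b' ≠ 0 := by
    rintro rfl
    exact hb1 (dvd_zero _)
  have hle : m ≤ m' := by
    rw [v.reg_iff hf0, hvv, hAb, v'.ord_div (ael_ne hx hA) (ael_ne hx hb), hA3, hb3] at hf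
    omega
  refine (Good.quot (hpoly (q ^ (m' - m) * A')) (hpoly b') (ael_ne hx hb')
    ((hvv _).trans hb4) hf ?_).2
  have h1 : aeval x b ≠ 0 := ael_ne hx hb
  rw [hAb, hb2, hA2]
  have h2 : aeval x q ≠ 0 := ael_ne hx hq.ne_zero
  have h3 : aeval x b' ≠ 0 := ael_ne hx hb'
  simp only [map_mul, map_pow]
  have h4 : (aeval x q : K₀) ^ m' = aeval x q ^ (m' - m) * aeval x q ^ m := by
    rw [← pow_add, Nat.sub_add_cancel hle]
  rw [h4]
  field_simp

/-- vector fields at the Gauss places -/
theorem der_gauss {k : Type} [Field k] [Algebra k F] [Algebra k K₀] [IsScalarTower k F K₀]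
    (hx : AlgebraicIndependent F x)
    (htop : IntermediateField.adjoin F (Set.range x) = ⊤) {v : Place B K₀} {w : Place k K₀}
    {P : Place k F} (hw : IsGauss x w P) (hvw : ∀ f, v.ord f = w.ord f)
    {D : Derivation B K₀ K₀} (hDx : ∀ i, v.Reg (D (x i)))
    (hDF : ∀ a : F, P.Reg a → v.Reg (D (algebraMap F K₀ a))) : DerReg v D := by
  have hrr : ∀ f, v.Reg f ↔ w.Reg f := fun f => by
    unfold Place.Reg
    rw [hvw]
  have hxr : ∀ i, v.Reg (x i) := fun i => by
    have := hw.reg (X i) fun s => by
      rw [coeff_X']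
      split_ifs
      · exact P.reg_one
      · exact P.reg_zero
    rw [aeval_X] at this
    exact (hrr _).2 this
  have hpoly : ∀ G : MvPolynomial (Fin n) F, (∀ s, P.Reg (G.coeff s)) → Good v D (aeval x G) :=
    fun G hG => good_poly (fun i => ⟨hxr i, hDx i⟩) G fun s => ⟨by
      have h1 : v.ord (algebraMap F K₀ (G.coeff s)) = P.ord (G.coeff s) := by rw [hvw, hw.ord]
      rcases hG s with h | h
      · left; rw [h, map_zero]
      · right; rw [h1]; exact h, hDF _ (hG s)⟩
  intro f hf
  by_cases hf0 : f = 0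
  · rw [hf0, map_zero]
    exact v.reg_zero
  obtain ⟨A, b, hb, hAb⟩ := Pool.Agent.Y36.LT.frac_of_adjoin x htop hx f
  obtain ⟨a, ha0, h1, h2, h3, -⟩ := gauss_norm hw hx hb
  have hb' : C a⁻¹ * b ≠ 0 := mul_ne_zero (by simpa using ha0) hb
  have hmul : f * aeval x (C a⁻¹ * b) = aeval x (C a⁻¹ * A) := by
    rw [map_mul, map_mul, hAb]
    have := ael_ne hx hb
    field_simp
  have hA' : w.Reg (aeval x (C a⁻¹ * A)) := by
    rw [← hmul]
    exact w.reg_mul ((hrr _).1 hf) (Or.inr h2.ge)
  exact (Good.quot (hpoly _ (gauss_coeff hw hx hA')) (hpoly _ h1) (ael_ne hx hb')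
    ((hvw _).trans h2) hf hmul).2

end

section divi

theorem div_of_fam {k K : Type} [Field k] [Field K] [Algebra k K] {P : Place k K} {w : ℕ}
    {T : Type} [Fintype T] (hT : w - 1 ≤ Fintype.card T) (u : T → K)
    (h : ∀ G : MvPolynomial T k, G ≠ 0 → aeval u G ≠ 0 ∧ P.ord (aeval u G) = 0) :
    Divisorial w P := by
  have h1 : Fintype.card (Fin (w - 1)) ≤ Fintype.card T := by rwa [Fintype.card_fin]
  obtain ⟨e⟩ := Function.Embedding.nonempty_of_card_le h1
  refine ⟨fun i => u (e i), fun G hG => ?_⟩
  have h2 := h (rename e G) (by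
    rw [Ne, ← map_zero (rename (R := k) e)]
    exact fun h0 => hG (rename_injective e e.injective h0))
  rw [aeval_rename] at h2
  exact h2

variable {k F K₀ : Type} [Field k] [Field F] [Field K₀] [Algebra k F] [Algebra k K₀]
  [Algebra F K₀] [IsScalarTower k F K₀] {n : ℕ} {x : Fin n → K₀} {I : Type} [Fintype I]

/-- Gauss places are divisorial -/
theorem gauss_div (hx : AlgebraicIndependent F x) {w : Place k K₀} {P : Place k F}
    (hw : IsGauss x w P) {r : ℕ} (hP : Divisorial r P) : Divisorial (n + r) w := by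
  obtain ⟨u, hu⟩ := hP
  refine div_of_fam (T := Fin n ⊕ Fin (r - 1)) (by
    rw [Fintype.card_sum, Fintype.card_fin, Fintype.card_fin]
    omega) (Sum.elim x fun i => algebraMap F K₀ (u i)) fun G hG => ?_
  have h1' : ∀ G : MvPolynomial (Fin n ⊕ Fin (r - 1)) k,
      aeval (Sum.elim x fun i => algebraMap F K₀ (u i)) G = aeval x
      (map ((aeval u : MvPolynomial (Fin (r - 1)) k →ₐ[k] F) : MvPolynomial (Fin (r - 1)) k →+* F)
        (sumAlgEquiv k (Fin n) (Fin (r - 1)) G)) := by
    intro G
    induction G using MvPolynomial.induction_on with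
    | C c =>
      rw [sumAlgEquiv_C_inl, map_C, aeval_C, aeval_C]
      simp
      rw [← IsScalarTower.algebraMap_apply]
    | add p q hp hq =>
      rw [map_add, map_add, map_add, map_add, hp, hq]
    | mul_X p t hp =>
      rw [map_mul, map_mul, map_mul, map_mul, hp]
      congr 1
      rcases t with t | t
      · simp
      · simp
  obtain ⟨G', hG'⟩ : ∃ G' : MvPolynomial (Fin n) F, G' =
      map ((aeval u : MvPolynomial (Fin (r - 1)) k →ₐ[k] F) : MvPolynomial (Fin (r - 1)) k →+* F)
        (sumAlgEquiv k (Fin n) (Fin (r - 1)) G) := ⟨_, rfl⟩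
  have h1 : aeval (Sum.elim x fun i => algebraMap F K₀ (u i)) G = aeval x G' := by
    rw [hG']
    exact h1' G
  have h2 : ∀ s, G'.coeff s = aeval u ((sumAlgEquiv k (Fin n) (Fin (r - 1)) G).coeff s) := by
    intro s
    rw [hG', coeff_map]
    rfl
  have h3 : sumAlgEquiv k (Fin n) (Fin (r - 1)) G ≠ 0 := by
    rw [Ne, EmbeddingLike.map_eq_zero_iff]
    exact hG
  obtain ⟨s, hs⟩ := MvPolynomial.ne_zero_iff.1 h3
  have h4 := hu _ hs
  have h5 : G' ≠ 0 := by
    intro h0
    have := h2 s
    rw [h0, coeff_zero] at this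
    exact h4.1 this.symm
  rw [h1]
  refine ⟨ael_ne hx h5, hw.unit _ (fun s' => ?_) ⟨s, ?_, ?_⟩⟩
  · rw [h2]
    by_cases hs' : (sumAlgEquiv k (Fin n) (Fin (r - 1)) G).coeff s' = 0
    · rw [hs', map_zero]
      exact P.reg_zero
    · exact Or.inr (hu _ hs').2.ge
  · rw [h2]
    exact h4.1
  · rw [h2]
    exact h4.2

/-- the places of irreducible polynomials are divisorial -/
theorem pl_div [DecidableEq I] (hx : AlgebraicIndependent F x) {z : I → F}
    (hz : AlgebraicIndependent k z) {v : Place k K₀} {v' : Place F K₀}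
    (hvv : ∀ f, v.ord f = v'.ord f) {q : MvPolynomial (Fin n) F} (hq : Irreducible q)
    (hv : IsPl x v' q) : Divisorial (n + Fintype.card I) v := by
  classical
  obtain ⟨i0, hi0⟩ : ∃ i0, q.degreeOf i0 ≠ 0 := by
    by_contra hcon
    push Not at hcon
    have h1 : q.vars = ∅ := by
      rw [Finset.eq_empty_iff_forall_notMem]
      intro i hi
      exact mem_vars_iff_degreeOf_ne_zero.1 hi (hcon i)
    rw [vars_eq_empty_iff_eq_C] at h1
    apply hq.not_isUnit
    rw [h1]
    refine IsUnit.map C (IsUnit.mk0 _ ?_)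
    intro h0
    rw [h0, C_0] at h1
    exact hq.ne_zero h1
  let T := I ⊕ {l : Fin n // l ≠ i0}
  have hcard : Fintype.card T = Fintype.card I + (n - 1) := by
    rw [Fintype.card_sum, Fintype.card_subtype_compl, Fintype.card_fin, Fintype.card_subtype_eq]
  have hn : 1 ≤ n := by
    have := i0.2
    omega
  let fam : T → K₀ := Sum.elim (fun i => algebraMap F K₀ (z i)) fun l => x l.1
  refine div_of_fam (T := T) (by rw [hcard]; omega) fam fun G hG => ?_
  let Ψ : MvPolynomial T k →ₐ[k] MvPolynomial (Fin n) F :=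
    aeval (Sum.elim (fun i => C (z i)) fun l => X l.1)
  have h1 : ∀ G : MvPolynomial T k, aeval fam G = aeval x (Ψ G) := by
    intro G
    induction G using MvPolynomial.induction_on with
    | C c =>
      rw [aeval_C]
      have : Ψ (C c) = C (algebraMap k F c) := by
        change aeval _ (C c) = _
        rw [aeval_C]
        rfl
      rw [this, aeval_C, ← IsScalarTower.algebraMap_apply]
    | add p q hp hq => rw [map_add, map_add, map_add, hp, hq]
    | mul_X p t hp =>
      rw [map_mul, map_mul, map_mul, hp]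
      congr 1
      rw [aeval_X]
      have : Ψ (X t) = (Sum.elim (fun i => C (z i)) fun l => X l.1 : T → MvPolynomial (Fin n) F) t :=
        aeval_X _ _
      rw [this]
      rcases t with t | t
      · change algebraMap F K₀ (z t) = aeval x (C (z t))
        rw [aeval_C]
      · change x t.1 = aeval x (X t.1)
        rw [aeval_X]
  have hfam : AlgebraicIndependent k fam := by
    have h2 : AlgebraicIndependent k (Sum.elim x (algebraMap F K₀ ∘ z)) := hz.sumElim_comp hx
    have h3 := h2.comp (Sum.elim (fun i => Sum.inr i) fun l : {l : Fin n // l ≠ i0} => Sum.inl l.1)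
      (by
        rintro (a | a) (b | b) hab
        · simpa using hab
        · simp at hab
        · simp at hab
        · simp only [Sum.elim_inr, Sum.inl.injEq] at hab
          rw [Subtype.ext hab])
    have h4 : (Sum.elim x (algebraMap F K₀ ∘ z)) ∘
        (Sum.elim (fun i => Sum.inr i) fun l : {l : Fin n // l ≠ i0} => Sum.inl l.1) = fam := by
      funext t
      rcases t with t | t <;> rfl
    rwa [h4] at h3
  have hdeg : ∀ G : MvPolynomial T k, (Ψ G).degreeOf i0 = 0 := by
    intro G
    induction G using MvPolynomial.induction_on with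
    | C c =>
      have : Ψ (C c) = C (algebraMap k F c) := by
        change aeval _ (C c) = _
        rw [aeval_C]
        rfl
      rw [this, degreeOf_C]
    | add p q hp hq =>
      rw [map_add]
      have := degreeOf_add_le i0 (Ψ p) (Ψ q)
      rw [hp, hq, max_self] at this
      omega
    | mul_X p t hp =>
      rw [map_mul]
      have h5 := degreeOf_mul_le i0 (Ψ p) (Ψ (X t))
      have h6 : (Ψ (X t)).degreeOf i0 = 0 := by
        have : Ψ (X t) = (Sum.elim (fun i => C (z i)) fun l => X l.1 :
          T → MvPolynomial (Fin n) F) t := aeval_X _ _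
        rw [this]
        rcases t with t | t
        · change (C (z t)).degreeOf i0 = 0
          rw [degreeOf_C]
        · change (X t.1 : MvPolynomial (Fin n) F).degreeOf i0 = 0
          rw [degreeOf_X, if_neg (Ne.symm t.2)]
      omega
  have hne : aeval fam G ≠ 0 := fun h0 => hG (hfam (by rw [h0, map_zero]))
  have hΨ : Ψ G ≠ 0 := by
    intro h0
    rw [h1, h0, map_zero] at hne
    exact hne rfl
  have hnd : ¬ q ∣ Ψ G := by
    rintro ⟨s, hs⟩
    have hs0 : s ≠ 0 := by
      rintro rfl
      rw [mul_zero] at hs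
      exact hΨ hs
    have h7 := degreeOf_mul_eq (n := i0) hq.ne_zero hs0
    rw [← hs, hdeg] at h7
    omega
  refine ⟨hne, ?_⟩
  rw [h1, hvv]
  exact hv.2 _ hnd

/-- restriction of the constants of a place -/
def Place.lower (k : Type) {F K₀ : Type} [Field k] [Field F] [Field K₀] [Algebra k F]
    [Algebra k K₀] [Algebra F K₀] [IsScalarTower k F K₀] (v : Place F K₀) : Place k K₀ where
  ord := v.ord
  ord_zero := v.ord_zero
  ord_mul := v.ord_mul
  ord_add := v.ord_add
  ord_const := by
    intro c hc
    rw [IsScalarTower.algebraMap_apply k F K₀]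
    exact v.ord_const (by simpa using hc)
  surj := v.surj

end divi

end Pool.Agent.L7h62.MM
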