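import Pool.Agent.L7h62.MM.BC2

/-!
The descent of forms along purely transcendental extensions.
-/

set_option autoImplicit false
set_option linter.all false

open Module FF MvPolynomial Pool.Agent.Y166.LT
open Pool.Agent.W602.GT (DerReg Divisorial)

namespace Pool.Agent.L7h62.MM

section

variable {k F K₀ : Type} [Field k] [CharZero k] [Field F] [Field K₀] [Algebra k F] [Algebra F K₀]
  [Algebra k K₀] [IsScalarTower k F K₀] {n : ℕ} {x : Fin n → K₀} {I : Type} [Fintype I]
  [DecidableEq I]

/-- the coefficients of an antisymmetric family of polynomials -/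
theorem anti_coeff (hx : AlgebraicIndependent F x) {j : ℕ} {c : (Fin j → I) → K₀} (hc : Anti c)
    {H : K₀} {A : (Fin j → I) → MvPolynomial (Fin n) F} (hA : ∀ J, c J * H = aeval x (A J))
    (μ : Fin n →₀ ℕ) : Anti fun J => (A J).coeff μ := by
  intro J a b hab
  have h1 : A (J ∘ Equiv.swap a b) = - A J := hx (by
    rw [map_neg, ← hA, ← hA, hc J a b hab, neg_mul])
  change (A (J ∘ Equiv.swap a b)).coeff μ = _
  rw [h1, coeff_neg]

/-- **Descent of forms.** -/
theorem base_change (C : Crd k F I) (hx : AlgebraicIndependent F x)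
    (htop : IntermediateField.adjoin F (Set.range x) = ⊤) {j : ℕ} {c : (Fin j → I) → K₀}
    (hc : Anti c)
    (h1 : ∀ q : MvPolynomial (Fin n) F, Irreducible q → NC k q → ∀ v : Place F K₀, IsPl x v q →
      ∀ J, v.Reg (c J))
    (h2 : ∀ P : Place k F, Divisorial (Fintype.card I) P → ∀ w : Place k K₀, IsGauss x w P →
      ∀ δ : Fin j → Derivation k F F, (∀ i, DerReg P (δ i)) →
      w.Reg (∑ J, c J * algebraMap F K₀ (∏ i, δ i (C.z (J i))))) :
    ∃ h : MvPolynomial (Fin n) k, h ≠ 0 ∧ ∃ (T : Finset (Fin n →₀ ℕ))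
      (Φ : (Fin n →₀ ℕ) → Frm k F (Fin j)),
      (∀ μ, ∀ P : Place k F, Divisorial (Fintype.card I) P → RegF (Φ μ) P) ∧
      ∀ J, c J * aeval x h =
        ∑ μ ∈ T, aeval x (monomial μ (1 : k)) * algebraMap F K₀ (Φ μ fun i => C.E (J i)) := by
  classical
  obtain ⟨h, hh, A, hA⟩ := denoms (k₀ := k) hx htop c h1
  refine ⟨h, hh, Finset.univ.biUnion fun J => (A J).support,
    fun μ => mkF C.z (fun J => (A J).coeff μ) (anti_coeff hx hc hA μ), ?_, ?_⟩
  · intro μ P hP δ hδ
    obtain ⟨w, hw⟩ := exists_gauss hx htop P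
    have h3 := h2 P hP w hw δ hδ
    rw [mkF_apply]
    have h4 : w.Reg (aeval x (∑ J, MvPolynomial.C (∏ i, δ i (C.z (J i))) * A J)) := by
      have h5 : aeval x (∑ J, MvPolynomial.C (∏ i, δ i (C.z (J i))) * A J) =
          (∑ J, c J * algebraMap F K₀ (∏ i, δ i (C.z (J i)))) *
            aeval x (map (algebraMap k F) h) := by
        rw [map_sum, Finset.sum_mul]
        refine Finset.sum_congr rfl fun J _ => ?_
        rw [map_mul, ← hA, aeval_C]
        ring
      rw [h5]
      exact w.reg_mul h3 (Or.inr (gauss_const (k₀ := k) hw hh).ge)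
    have h6 := gauss_coeff hw hx h4 μ
    rw [coeff_sum] at h6
    have h7 : ∀ J : Fin j → I, (MvPolynomial.C (∏ i, δ i (C.z (J i))) * A J).coeff μ =
        (A J).coeff μ * ∏ i, δ i (C.z (J i)) := by
      intro J
      rw [coeff_C_mul, mul_comm]
    rwa [Finset.sum_congr rfl fun J _ => h7 J] at h6
  · intro J
    have h3 : aeval x (map (algebraMap k F) h) = aeval x h := aeval_map_algebraMap F x h
    rw [← h3, hA]
    have h4 : ∀ μ, mkF (k := k) C.z (fun J => (A J).coeff μ) (anti_coeff hx hc hA μ)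
        (fun i => C.E (J i)) = (A J).coeff μ := by
      intro μ
      rw [mkF_apply, Finset.sum_eq_single J]
      · have h5 : ∏ i, C.E (J i) (C.z (J i)) = 1 :=
          Finset.prod_eq_one fun i _ => by rw [C.dual, if_pos rfl]
        rw [h5, mul_one]
      · intro J' _ hJ'
        obtain ⟨i, hi⟩ := Function.ne_iff.1 hJ'
        rw [Finset.prod_eq_zero (Finset.mem_univ i), mul_zero]
        rw [C.dual, if_neg (Ne.symm hi)]
      · intro h5
        exact absurd (Finset.mem_univ _) h5
    simp only [h4]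
    conv_lhs => rw [← MvPolynomial.support_sum_monomial_coeff (A J), map_sum]
    refine (Finset.sum_subset (Finset.subset_biUnion_of_mem (fun J => (A J).support)
      (Finset.mem_univ J)) fun μ _ hμ => ?_).trans (Finset.sum_congr rfl fun μ _ => ?_)
    · rw [MvPolynomial.notMem_support_iff.1 hμ, monomial_zero, map_zero]
    · rw [aeval_monomial, aeval_monomial, map_one, one_mul, mul_comm]

end

end Pool.Agent.L7h62.MM
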