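import Pool.Agent.W602.GT.KDefs

/-!
Varieties with a generically finite canonical map.
-/

set_option autoImplicit false

open FF
open Pool.Agent.W602.GT (Divisorial RegAt IsPluri GeneralType)

namespace Pool.Agent.L7h62.MM

/-- The canonical map of the smooth projective varieties with the function field `L`, of
transcendence degree `w` over `ℂ`, is generically finite onto its image: there are `w + 1` canonical
forms, regular at all prime divisors, whose ratios are `w` algebraically independent functions. -/
def CanonicalMapFinite (L : Type) [Field L] [Algebra ℂ L] (w : ℕ) : Prop :=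
  Algebra.trdeg ℂ L = w ∧ ∃ ω : Fin (w + 1) → (Fin w → Derivation ℂ L L) → L,
    (∀ j, IsPluri 1 (ω j)) ∧ (∀ P : Place ℂ L, Divisorial w P → ∀ j, RegAt P (ω j)) ∧
    ∃ D, ω 0 D ≠ 0 ∧ AlgebraicIndependent ℂ (fun i : Fin w => ω i.succ D / ω 0 D)

/-- Such varieties are of general type. -/
theorem CanonicalMapFinite.generalType {L : Type} [Field L] [Algebra ℂ L] {w : ℕ}
    (h : CanonicalMapFinite L w) : GeneralType ℂ L w :=
  ⟨h.1, 1, one_pos, h.2⟩

end Pool.Agent.L7h62.MM
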