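import Pool.Agent.L7h62.MM.Core

/-!
Integral elements of rational function fields.
-/

set_option autoImplicit false
set_option linter.all false

open Module MvPolynomial

namespace Pool.Agent.L7h62.MM

section

variable {F K₀ : Type} [Field F] [Field K₀] [Algebra F K₀] {n : ℕ} {x : Fin n → K₀}

/-- integral elements of a rational function field are polynomials -/
theorem int_poly (hx : AlgebraicIndependent F x)
    (htop : IntermediateField.adjoin F (Set.range x) = ⊤) {z : K₀}
    (hz : ((aeval x : MvPolynomial (Fin n) F →ₐ[F] K₀) :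
      MvPolynomial (Fin n) F →+* K₀).IsIntegralElem z) :
    ∃ G : MvPolynomial (Fin n) F, z = aeval x G := by
  letI : Algebra (MvPolynomial (Fin n) F) K₀ :=
    ((aeval x : MvPolynomial (Fin n) F →ₐ[F] K₀) : MvPolynomial (Fin n) F →+* K₀).toAlgebra
  have h0 : ∀ G : MvPolynomial (Fin n) F, algebraMap (MvPolynomial (Fin n) F) K₀ G = aeval x G :=
    fun _ => rfl
  have hf : FaithfulSMul (MvPolynomial (Fin n) F) K₀ :=
    (faithfulSMul_iff_algebraMap_injective _ _).2 hx
  have hfr : IsFractionRing (MvPolynomial (Fin n) F) K₀ := IsFractionRing.of_field _ _ fun z => by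
    obtain ⟨A, B, -, h⟩ := Pool.Agent.Y36.LT.frac_of_adjoin x htop hx z
    exact ⟨A, B, h⟩
  have h1 : IsIntegral (MvPolynomial (Fin n) F) z := hz
  obtain ⟨G, hG⟩ := (IsIntegrallyClosed.isIntegral_iff (K := K₀)).1 h1
  exact ⟨G, hG.symm⟩

theorem td_pow {G : MvPolynomial (Fin n) F} (hG : G ≠ 0) (m : ℕ) :
    (G ^ m).totalDegree = m * G.totalDegree := by
  induction m with
  | zero => simp
  | succ m ih =>
    rw [pow_succ, totalDegree_mul_of_isDomain (pow_ne_zero _ hG) hG, ih]
    ring

/-- the constants are algebraically closed in a rational function field -/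
theorem int_const (hx : AlgebraicIndependent F x)
    (htop : IntermediateField.adjoin F (Set.range x) = ⊤) {z : K₀} (hz : IsIntegral F z) :
    ∃ y : F, algebraMap F K₀ y = z := by
  obtain ⟨P, hP, hPz⟩ := hz
  obtain ⟨G, hG⟩ := int_poly hx htop (z := z) (by
    refine ⟨P.map (MvPolynomial.C), hP.map _, ?_⟩
    rw [Polynomial.eval₂_map]
    rw [← hPz]
    congr 1
    ext c
    simp)
  by_cases hG0 : G = 0
  · exact ⟨0, by rw [hG, hG0, map_zero, map_zero]⟩
  have h1 : Polynomial.eval₂ (MvPolynomial.C) G P = 0 := by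
    apply hx
    rw [map_zero]
    have h2 := Polynomial.hom_eval₂ P (MvPolynomial.C)
      ((aeval x : MvPolynomial (Fin n) F →ₐ[F] K₀) : MvPolynomial (Fin n) F →+* K₀) G
    have h3 : (((aeval x : MvPolynomial (Fin n) F →ₐ[F] K₀) :
        MvPolynomial (Fin n) F →+* K₀).comp MvPolynomial.C) = algebraMap F K₀ := by
      ext c
      simp
    rw [h3] at h2
    refine h2.trans ?_
    rw [← hPz, hG]
    rfl
  have h2 : G.totalDegree = 0 := by
    by_contra hd
    have hd' : 0 < G.totalDegree := Nat.pos_of_ne_zero hd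
    rw [Polynomial.eval₂_eq_sum_range, Finset.sum_range_succ] at h1
    have hlead : P.coeff P.natDegree = 1 := hP
    rw [hlead, map_one, one_mul] at h1
    have h3 : G ^ P.natDegree = - ∑ i ∈ Finset.range P.natDegree, C (P.coeff i) * G ^ i := by
      linear_combination h1
    have h4 : (G ^ P.natDegree).totalDegree ≤ (P.natDegree - 1) * G.totalDegree := by
      rw [h3, totalDegree_neg]
      refine totalDegree_finsetSum_le fun i hi => ?_
      refine (totalDegree_mul _ _).trans ?_
      rw [totalDegree_C, zero_add, td_pow hG0]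
      exact Nat.mul_le_mul_right _ (by
        rw [Finset.mem_range] at hi
        omega)
    rw [td_pow hG0] at h4
    have h5 : P.natDegree ≤ P.natDegree - 1 := Nat.le_of_mul_le_mul_right h4 hd'
    have h6 : P.natDegree = 0 := by omega
    rw [h6] at h1
    simp at h1
  rw [totalDegree_eq_zero_iff_eq_C] at h2
  refine ⟨G.coeff 0, ?_⟩
  rw [hG]
  conv_rhs => rw [h2]
  rw [aeval_C]

variable {B : Type} [Field B] [Algebra B F] [Algebra B K₀] [IsScalarTower B F K₀]

attribute [local instance] MvPolynomial.algebraMvPolynomial in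
/-- algebraic functions over `B (x)` in `F (x)` -/
theorem int_ratfun (hcl : ∀ a : F, IsIntegral B a → ∃ b : B, algebraMap B F b = a)
    (hx : AlgebraicIndependent F x)
    (htop : IntermediateField.adjoin F (Set.range x) = ⊤) {z : K₀}
    (hz : ((aeval x : MvPolynomial (Fin n) B →ₐ[B] K₀) :
      MvPolynomial (Fin n) B →+* K₀).IsIntegralElem z) :
    ∃ G : MvPolynomial (Fin n) B, z = aeval x G := by
  obtain ⟨P, hP, hPz⟩ := hz
  have h0 : (((aeval x : MvPolynomial (Fin n) F →ₐ[F] K₀) :
      MvPolynomial (Fin n) F →+* K₀).comp (MvPolynomial.map (algebraMap B F))) =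
      ((aeval x : MvPolynomial (Fin n) B →ₐ[B] K₀) : MvPolynomial (Fin n) B →+* K₀) := by
    ext c
    · simp
      rw [← IsScalarTower.algebraMap_apply]
    · simp
  obtain ⟨G, hG⟩ := int_poly hx htop (z := z) (by
    refine ⟨P.map (MvPolynomial.map (algebraMap B F)), hP.map _, ?_⟩
    rw [Polynomial.eval₂_map, h0]
    exact hPz)
  have h1 : Polynomial.eval₂ (MvPolynomial.map (algebraMap B F)) G P = 0 := by
    apply hx
    rw [map_zero]
    have h2 := Polynomial.hom_eval₂ P (MvPolynomial.map (algebraMap B F))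
      ((aeval x : MvPolynomial (Fin n) F →ₐ[F] K₀) : MvPolynomial (Fin n) F →+* K₀) G
    rw [h0] at h2
    refine h2.trans ?_
    rw [← hPz, hG]
    rfl
  have h2 : IsIntegral (MvPolynomial (Fin n) B) G := ⟨P, hP, h1⟩
  have h3 := MvPolynomial.isIntegral_iff_isIntegral_coeff.1 h2
  have h4 : G ∈ Set.range (MvPolynomial.map (algebraMap B F)) := by
    rw [MvPolynomial.mem_range_map_iff_coeffs_subset]
    intro c hc
    rw [Finset.mem_coe, MvPolynomial.mem_coeffs_iff] at hc
    obtain ⟨s, -, rfl⟩ := hc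
    obtain ⟨b, hb⟩ := hcl _ (h3 s)
    exact ⟨b, hb⟩
  obtain ⟨G', hG'⟩ := h4
  refine ⟨G', ?_⟩
  rw [hG, ← hG', aeval_map_algebraMap]

end

end Pool.Agent.L7h62.MM
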