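import Pool.Agent.N145.SX.Rel

/-!
Separation of the points of a finite set.
-/

set_option autoImplicit false
set_option linter.all false
set_option maxHeartbeats 4000000
set_option synthInstance.maxHeartbeats 400000

open Module FF
open Pool.Agent.N145.SX (HX SepX mem_res card_res)
open Pool.Agent.N145.PC (res res_apply sum_trace charZero_L)

open scoped Classical

namespace Pool.Agent.L7h62.MM

section

variable {E : Type} [Field E] [Algebra ℂ E] {m : ℕ} (x : Fin m → E)

/-- the point `σ0` is separated from the other points of `A` -/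
def SepAt {Ω : Type} [Field Ω] [Algebra ℂ Ω] (A : Finset (E →ₐ[ℂ] Ω)) (σ0 : E →ₐ[ℂ] Ω) : Prop :=
  ∀ c : (E →ₐ[ℂ] Ω) → Ω, (∀ f ∈ HX x (fun _ => False), ∑ σ ∈ A, c σ * σ f = 0) → c σ0 = 0

theorem SepX.at {x : Fin m → E} {g : ℕ} (h : SepX x (fun _ => False) g) {Ω : Type} [Field Ω]
    [Algebra ℂ Ω] [IsAlgClosed Ω] {A : Finset (E →ₐ[ℂ] Ω)} (hA : A.card < g) {σ0 : E →ₐ[ℂ] Ω}
    (h0 : σ0 ∈ A) : SepAt x A σ0 := fun c hc => h Ω A hA c hc σ0 h0

/-- grouping of the points with the same image -/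
theorem sep_group' {x : Fin m → E} {Ω : Type} [Field Ω] [Algebra ℂ Ω] {T : Type} [Fintype T]
    (p : T → (E →ₐ[ℂ] Ω)) (w : T → Ω) (τ0 : T) (hsep : SepAt x (Finset.univ.image p) (p τ0))
    (hrel : ∀ f ∈ HX x (fun _ => False), ∑ τ, w τ * p τ f = 0) :
    ∑ τ ∈ Finset.univ.filter (fun τ => p τ = p τ0), w τ = 0 :=
  hsep (fun σ => ∑ τ ∈ Finset.univ.filter (fun τ => p τ = σ), w τ) (by
    intro f hf
    rw [← hrel f hf, ← Finset.sum_fiberwise_of_maps_to (s := Finset.univ)
      (t := Finset.univ.image p) (g := p) (fun τ hτ => Finset.mem_image_of_mem _ hτ)]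
    refine Finset.sum_congr rfl fun σ _ => ?_
    rw [Finset.sum_mul]
    refine Finset.sum_congr rfl fun τ hτ => ?_
    rw [(Finset.mem_filter.1 hτ).2])

variable (K L : Type) [Field K] [Field L] [Algebra ℂ K] [Algebra ℂ L]
  [Algebra L K] [IsScalarTower ℂ L K] [FiniteDimensional L K]
  [Algebra E K] [IsScalarTower ℂ E K]

/-- the points of `V` below one or two points of `W` are separated -/
structure SepHyp : Prop where
  one : ∀ τ0 : K →ₐ[L] AlgebraicClosure L, SepAt x
    (Finset.univ.image (res (K := K) (L := L) (Ω := AlgebraicClosure L) E)) (res E τ0)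
  two : ∀ (Ω' : Type) [Field Ω'] [Algebra ℂ Ω'] [IsAlgClosed Ω']
    (i1 i2 : AlgebraicClosure L →ₐ[ℂ] Ω') (τ0 : K →ₐ[L] AlgebraicClosure L), SepAt x
    (Finset.univ.image (Sum.elim
      (fun τ : K →ₐ[L] AlgebraicClosure L => i1.comp (res (K := K) (L := L) E τ))
      (fun τ : K →ₐ[L] AlgebraicClosure L => i2.comp (res (K := K) (L := L) E τ))))
    (i1.comp (res E τ0))

/-- few points -/
theorem sepHyp_of {x : Fin m → E} {g : ℕ} (hsep : SepX x (fun _ => False) g)
    (hd : 2 * finrank L (IntermediateField.adjoin L (Set.range (algebraMap E K))) < g) :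
    SepHyp x K L := by
  have hT' : IsScalarTower ℂ L (AlgebraicClosure L) := inferInstance
  have h0 := card_res (K := K) (L := L) (Ω := AlgebraicClosure L) E
  constructor
  · intro τ0
    exact SepX.at hsep (by omega) (Finset.mem_image_of_mem _ (Finset.mem_univ _))
  · intro Ω' _ _ _ i1 i2 τ0
    refine SepX.at hsep ?_ (Finset.mem_image.2 ⟨Sum.inl τ0, Finset.mem_univ _, rfl⟩)
    obtain ⟨A, hA⟩ : ∃ A, A = Finset.univ.image
      (res (K := K) (L := L) (Ω := AlgebraicClosure L) E) := ⟨_, rfl⟩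
    rw [← hA] at h0
    obtain ⟨U1, hU1⟩ : ∃ U1 : Finset (E →ₐ[ℂ] Ω'), U1 = A.image fun σ => i1.comp σ := ⟨_, rfl⟩
    obtain ⟨U2, hU2⟩ : ∃ U2 : Finset (E →ₐ[ℂ] Ω'), U2 = A.image fun σ => i2.comp σ := ⟨_, rfl⟩
    have h4 : U1.card ≤ A.card := by
      rw [hU1]
      exact Finset.card_image_le
    have h5 : U2.card ≤ A.card := by
      rw [hU2]
      exact Finset.card_image_le
    have h1 : (Finset.univ.image (Sum.elim
        (fun τ : K →ₐ[L] AlgebraicClosure L => i1.comp (res (K := K) (L := L) E τ))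
        (fun τ : K →ₐ[L] AlgebraicClosure L => i2.comp (res (K := K) (L := L) E τ)))) ⊆
        U1 ∪ U2 := by
      intro σ hσ
      obtain ⟨ρ, -, rfl⟩ := Finset.mem_image.1 hσ
      rw [Finset.mem_union, hU1, hU2, hA]
      rcases ρ with τ | τ
      · exact Or.inl (Finset.mem_image_of_mem _ (Finset.mem_image_of_mem _ (Finset.mem_univ τ)))
      · exact Or.inr (Finset.mem_image_of_mem _ (Finset.mem_image_of_mem _ (Finset.mem_univ τ)))
    have h2 := Finset.card_le_card h1
    have h3 := Finset.card_union_le U1 U2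
    omega

end

section

variable {K L E : Type} [Field K] [Field L] [Algebra ℂ K] [Algebra ℂ L]
  [Algebra L K] [IsScalarTower ℂ L K] [FiniteDimensional L K]
  [Field E] [Algebra ℂ E] [Algebra E K] [IsScalarTower ℂ E K] {m : ℕ} {x : Fin m → E}

/-- **One fibre.** -/
theorem relA_one (hsep : SepHyp x K L) {h : K}
    (hT : ∀ f ∈ HX x (fun _ => False), Algebra.trace L K (h * algebraMap E K f) = 0) :
    Algebra.trace (IntermediateField.adjoin L (Set.range (algebraMap E K))) K h = 0 := by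
  have hchar : CharZero L := charZero_L
  obtain ⟨τ0⟩ : Nonempty (K →ₐ[L] AlgebraicClosure L) :=
    ⟨IsAlgClosed.lift (R := L) (M := AlgebraicClosure L) (S := K)⟩
  have hT' : IsScalarTower ℂ L (AlgebraicClosure L) := inferInstance
  have h1 := sep_group' (T := K →ₐ[L] AlgebraicClosure L)
    (res (K := K) (L := L) (Ω := AlgebraicClosure L) E) (fun τ => τ h) τ0 (hsep.one τ0)
    (by
      intro f hf
      have h2 := trace_eq_sum_embeddings (K := L) (L := K) (AlgebraicClosure L)
        (x := h * algebraMap E K f)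
      rw [hT f hf, map_zero] at h2
      rw [h2]
      refine Finset.sum_congr rfl fun τ _ => ?_
      rw [res_apply, ← map_mul])
  have h2 := sum_trace (IntermediateField.adjoin L (Set.range (algebraMap E K))) τ0 _
    (mem_res E τ0) h
  rw [h1] at h2
  have h6 := h2.symm
  rw [map_eq_zero, map_eq_zero] at h6
  exact h6

/-- **Two fibres.** -/
theorem relA_two (hsep : SepHyp x K L) {h : K}
    {Ω' : Type} [Field Ω'] [Algebra ℂ Ω'] [IsAlgClosed Ω']
    {i1 i2 : AlgebraicClosure L →ₐ[ℂ] Ω'} {lam : Ω'} (hlam : lam ≠ 0)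
    (hT : ∀ f ∈ HX x (fun _ => False),
      i2 (algebraMap L (AlgebraicClosure L) (Algebra.trace L K (h * algebraMap E K f))) =
      lam * i1 (algebraMap L (AlgebraicClosure L)
        (Algebra.trace L K (h * algebraMap E K f))))
    (τ0 : K →ₐ[L] AlgebraicClosure L) :
    (∃ τ : K →ₐ[L] AlgebraicClosure L, ∀ z : E,
      i2 (τ (algebraMap E K z)) = i1 (τ0 (algebraMap E K z))) ∨
      Algebra.trace (IntermediateField.adjoin L (Set.range (algebraMap E K))) K h = 0 := by
  have hchar : CharZero L := charZero_L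
  have hT' : IsScalarTower ℂ L (AlgebraicClosure L) := inferInstance
  by_cases hex : ∃ τ : K →ₐ[L] AlgebraicClosure L, ∀ z : E,
    i2 (τ (algebraMap E K z)) = i1 (τ0 (algebraMap E K z))
  · exact Or.inl hex
  right
  let Ω := AlgebraicClosure L
  let p : (K →ₐ[L] Ω) ⊕ (K →ₐ[L] Ω) → (E →ₐ[ℂ] Ω') :=
    Sum.elim (fun τ => i1.comp (res E τ)) (fun τ => i2.comp (res E τ))
  let w : (K →ₐ[L] Ω) ⊕ (K →ₐ[L] Ω) → Ω' :=
    Sum.elim (fun τ => -(lam * i1 (τ h))) (fun τ => i2 (τ h))
  have h1 := sep_group' p w (Sum.inl τ0) (hsep.two Ω' i1 i2 τ0) (by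
      intro f hf
      have h2 := trace_eq_sum_embeddings (K := L) (L := K) Ω
        (x := h * algebraMap E K f)
      have h3 := hT f hf
      rw [h2, map_sum, map_sum] at h3
      rw [Fintype.sum_sum_type]
      have e1 : ∑ τ : K →ₐ[L] Ω, w (Sum.inl τ) * p (Sum.inl τ) f =
          -(lam * ∑ τ : K →ₐ[L] Ω, i1 (τ (h * algebraMap E K f))) := by
        rw [Finset.mul_sum, ← Finset.sum_neg_distrib]
        refine Finset.sum_congr rfl fun τ _ => ?_
        change -(lam * i1 (τ h)) * i1 (res E τ f) = _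
        rw [res_apply, map_mul, map_mul i1, neg_mul, mul_assoc]
      have e2 : ∑ τ : K →ₐ[L] Ω, w (Sum.inr τ) * p (Sum.inr τ) f =
          ∑ τ : K →ₐ[L] Ω, i2 (τ (h * algebraMap E K f)) := by
        refine Finset.sum_congr rfl fun τ _ => ?_
        change i2 (τ h) * i2 (res E τ f) = _
        rw [res_apply, ← map_mul, ← map_mul]
      rw [e1, e2, h3]
      ring)
  have h2 : ∑ τ ∈ Finset.univ.filter (fun τ => p τ = p (Sum.inl τ0)), w τ =
      ∑ τ ∈ Finset.univ.filter (fun τ => res (K := K) (L := L) (Ω := Ω) E τ = res E τ0),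
        -(lam * i1 (τ h)) := by
    symm
    refine Finset.sum_bij (fun τ _ => Sum.inl τ) ?_ ?_ ?_ ?_
    · intro τ hτ
      rw [Finset.mem_filter] at hτ ⊢
      refine ⟨Finset.mem_univ _, ?_⟩
      change i1.comp (res E τ) = i1.comp (res E τ0)
      rw [hτ.2]
    · intro a _ b _ hab
      exact Sum.inl_injective hab
    · intro ρ hρ
      rw [Finset.mem_filter] at hρ
      rcases ρ with τ | τ
      · refine ⟨τ, ?_, rfl⟩
        rw [Finset.mem_filter]
        refine ⟨Finset.mem_univ _, ?_⟩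
        ext z
        exact i1.injective (DFunLike.congr_fun hρ.2 z)
      · exact absurd ⟨τ, fun z => DFunLike.congr_fun hρ.2 z⟩ hex
    · intro τ _
      rfl
  rw [h2, Finset.sum_neg_distrib, neg_eq_zero, ← Finset.mul_sum, mul_eq_zero] at h1
  have h3 := h1.resolve_left hlam
  rw [← map_sum, map_eq_zero] at h3
  have h4 := sum_trace (IntermediateField.adjoin L (Set.range (algebraMap E K))) τ0 _
    (mem_res E τ0) h
  rw [h3] at h4
  have h6 := h4.symm
  rw [map_eq_zero, map_eq_zero] at h6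
  exact h6

end

end Pool.Agent.L7h62.MM
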