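import Pool.Agent.L7h62.MM.Ext
import Pool.Agent.L7h62.MM.SepA

/-!
The form of the second factor has top degree.
-/

set_option autoImplicit false
set_option linter.all false
set_option maxHeartbeats 4000000
set_option synthInstance.maxHeartbeats 400000

open Module FF
open Pool.Agent.W602.GT (DerReg Divisorial)
open Pool.Agent.N145.SX (HX SepX sep_group mem_res)
open Pool.Agent.N145.PC (res res_apply sum_trace)

namespace Pool.Agent.L7h62.MM

section

variable {k F K L E Ω : Type} [Field k] [CharZero k] [Field F] [Field K] [Field L] [Field E] [Field Ω]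
  [Algebra ℂ k] [Algebra ℂ L] [Algebra ℂ K] [Algebra ℂ E] [Algebra ℂ Ω]
  [Algebra k F] [Algebra k L] [Algebra k K] [Algebra k Ω] [Algebra F K] [Algebra E K]
  [Algebra L K] [Algebra L Ω]
  [IsScalarTower ℂ k K] [IsScalarTower k F K] [IsScalarTower ℂ E K] [IsScalarTower k L K]
  [IsScalarTower ℂ L K] [IsScalarTower k L Ω] [IsScalarTower ℂ L Ω]
  [FiniteDimensional L K] [IsAlgClosed Ω] [Algebra.IsAlgebraic L Ω]
  [Algebra.EssFiniteType ℂ E] [Algebra.EssFiniteType k F] [Algebra.EssFiniteType k L]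
  [Algebra.EssFiniteType k K] {n r q j : ℕ} {I : Type} [Fintype I] [DecidableEq I]

open scoped Classical in
/-- the values of the sum over one fibre -/
theorem psi_val (M : IntermediateField L K) [IsScalarTower k M K]
    (hM : M = IntermediateField.adjoin L (Set.range (algebraMap E K)))
    (CF : Crd k F (Fin r)) (CM : Crd k M (Fin n ⊕ Fin r)) {x : Fin n → E}
    (hCM : ∀ l, algebraMap M K (CM.z (Sum.inl l)) = algebraMap E K (x l))
    (φ : Frm k F (Fin j)) (s : Fin j → Fin r) (σ0 : K →ₐ[L] Ω) :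
    ∃ D : Fin n ⊕ Fin j → Derivation k Ω Ω,
      ∑ σ ∈ Finset.univ.filter (fun σ : K →ₐ[L] Ω => res E σ = res E σ0),
        extF (CM.up K) (σ.restrictScalars k)
          (wdg CF (1 : K) (fun l => algebraMap E K (x l)) φ) D =
      σ0 (algebraMap M K (Algebra.trace M K
        (extF CF (emb k F K) φ fun b => (CM.up K).E (Sum.inr (s b))))) := by
  letI iA : Algebra M Ω := ((σ0 : K →+* Ω).comp (algebraMap M K)).toAlgebra
  have hA : ∀ z : M, algebraMap M Ω z = σ0 (algebraMap M K z) := fun z => rfl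
  have hT : IsScalarTower L M Ω := IsScalarTower.of_algebraMap_eq fun z => by
    rw [hA]
    exact (σ0.commutes z).symm
  have hTk : IsScalarTower k M Ω := IsScalarTower.of_algebraMap_eq fun z => by
    rw [hA]
    have h1 : algebraMap M K (algebraMap k M z) = algebraMap L K (algebraMap k L z) :=
      (IsScalarTower.algebraMap_apply k L K z)
    rw [h1, σ0.commutes, ← IsScalarTower.algebraMap_apply k L Ω]
  have hal : Algebra.IsAlgebraic M Ω := Algebra.IsAlgebraic.tower_top (K := L) M
  have hbas : IsTranscendenceBasis k (algebraMap M Ω ∘ CM.z) := CM.bas.algebraMap_comp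
  obtain ⟨CR, hCR⟩ := crd_of hbas
  have hCKx : ∀ l, (CM.up K).z (Sum.inl l) = algebraMap E K (x l) := hCM
  have key : ∀ σ : K →ₐ[L] Ω, res E σ = res E σ0 → ∀ a f,
      CR.E a ((σ.restrictScalars k) f) = (σ.restrictScalars k) ((CM.up K).E a f) := by
    intro σ hσ a f
    refine lift_crd (CM.up K) CR (σ.restrictScalars k) (fun c => ?_) a f
    rw [hCR]
    change σ0 (algebraMap M K (CM.z c)) = σ (algebraMap M K (CM.z c))
    have h1 := (mem_res (K := K) (L := L) (Ω := Ω) E σ0 σ).1
      (Finset.mem_filter.2 ⟨Finset.mem_univ _, hσ⟩)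
    exact (h1 _ (by rw [← hM]; exact (CM.z c).2)).symm
  refine ⟨Sum.elim (fun l => CR.E (Sum.inl l)) fun b => CR.E (Sum.inr (s b)), ?_⟩
  rw [← sum_trace M σ0 (Finset.univ.filter (fun σ : K →ₐ[L] Ω => res E σ = res E σ0))
    (fun σ => by
      rw [hM]
      exact mem_res E σ0 σ)]
  refine Finset.sum_congr rfl fun σ hσ => ?_
  rw [extF_lift (CM.up K) (σ.restrictScalars k) _
    (D := Sum.elim (fun l => (CM.up K).E (Sum.inl l)) fun b => (CM.up K).E (Sum.inr (s b)))
    (fun i f => by
      rcases i with i | i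
      · exact key σ (Finset.mem_filter.1 hσ).2 _ f
      · exact key σ (Finset.mem_filter.1 hσ).2 _ f)]
  rw [wdg_val CF (1 : K) (fun l => algebraMap E K (x l)) φ]
  · rw [one_mul]
    rfl
  · intro i l
    rw [← hCKx, (CM.up K).dual]
    by_cases h : i = l
    · rw [if_pos h, h, if_pos rfl]
    · rw [if_neg h, if_neg]
      exact fun h' => h (Sum.inl_injective h')
  · intro b l
    rw [← hCKx, (CM.up K).dual, if_neg]
    exact fun h' => by cases h'

open scoped Classical in
/-- **The form of the second factor has top degree.** -/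
theorem core (hE : Algebra.trdeg ℂ E = n) {b : Fin q → k} (hb : AlgebraicIndependent ℂ b)
    (hKK : Algebra.trdeg ℂ K = (q + (n + r) : ℕ)) (M : IntermediateField L K)
    [IsScalarTower k M K]
    (hM : M = IntermediateField.adjoin L (Set.range (algebraMap E K)))
    (C : Crd k L I) (hI : Fintype.card I = n + r) (CF : Crd k F (Fin r))
    (CM : Crd k M (Fin n ⊕ Fin r)) {x : Fin n → E}
    (hx : IsTranscendenceBasis ℂ x)
    (hCM : ∀ l, algebraMap M K (CM.z (Sum.inl l)) = algebraMap E K (x l))
    (hsep : ∀ σ1 : K →ₐ[L] Ω, SepAt x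
      (Finset.univ.image (res (K := K) (L := L) (Ω := Ω) E)) (res E σ1))
    (hH : ∀ D : Derivation k Ω Ω, (∀ (σ : K →ₐ[L] Ω) l, D (σ (algebraMap E K (x l))) = 0) → D = 0)
    (hPM : PM C CM j) {φ : Frm k F (Fin j)}
    (hφ : ∀ P : Place k F, Divisorial (Fintype.card (Fin r)) P → RegF φ P) (s : Fin j → Fin r)
    (hstar : Algebra.trace M K
      (extF CF (emb k F K) φ fun b => (CM.up K).E (Sum.inr (s b))) ≠ 0) : r ≤ j := by
  obtain ⟨CK, hCK⟩ : ∃ CK : Crd k K (Fin n ⊕ Fin r), CK = CM.up K := ⟨_, rfl⟩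
  have hkK : Algebra.trdeg k K = (n + r : ℕ) := by
    rw [CK.trdeg, Fintype.card_sum, Fintype.card_fin, Fintype.card_fin]
  obtain ⟨xK, hxK⟩ : ∃ xK : Fin n → K, xK = fun l => algebraMap E K (x l) := ⟨_, rfl⟩
  obtain ⟨σ0⟩ : Nonempty (K →ₐ[L] Ω) := ⟨IsAlgClosed.lift (R := L) (M := Ω) (S := K)⟩
  obtain ⟨Ψ, hΨ⟩ : ∃ Ψ : (K →ₐ[L] Ω) → Frm k Ω (Fin n ⊕ Fin j), ∀ σ1, Ψ σ1 =
      ∑ σ ∈ Finset.univ.filter (fun σ : K →ₐ[L] Ω => res E σ = res E σ1),
        extF CK (σ.restrictScalars k) (wdg CF (1 : K) xK φ) := ⟨_, fun _ => rfl⟩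
  -- vanishing
  have hvan : ∀ (σ1 σ2 : K →ₐ[L] Ω) (D : Fin n ⊕ Fin j → Derivation k Ω Ω)
      (S : Finset (Fin n ⊕ Fin j)), j + 1 ≤ S.card →
      (∀ i ∈ S, ∀ l, D i (σ2 (xK l)) = 0) → Ψ σ1 D = 0 := by
    intro σ1 σ2 D S hS hD
    have h1 := sep_group' (T := K →ₐ[L] Ω) (res (K := K) (L := L) (Ω := Ω) E)
      (fun σ => extF CK (σ.restrictScalars k) (wdg CF (1 : K) xK φ) D) σ1 (hsep σ1) (by
        intro f hf
        obtain ⟨T, hT⟩ : ∃ T : Frm k L (Fin (n + j)), T =
            (trF C (wdg CF (algebraMap E K f) xK φ)).domDomCongr finSumFinEquiv := ⟨_, rfl⟩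
        have hTreg : ∀ P : Place k L, Divisorial (Fintype.card I) P → RegF T P := by
          intro P hP
          rw [hT]
          refine regF_dom _ (trF_reg C hP fun Q e hQ => ?_)
          rw [hxK]
          refine wreg hE hb hkK hKK CF hφ hx hf Q ?_
          rw [hI] at hP
          exact Pool.Agent.Y172.divisorial_up hQ hP
        have h2 := hPM.van hTreg ((σ2.restrictScalars k).comp (emb k M K))
          (fun i => D (finSumFinEquiv.symm i)) (S := S.map finSumFinEquiv.toEmbedding)
          (by rwa [Finset.card_map]) (by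
            intro i hi l
            rw [Finset.mem_map] at hi
            obtain ⟨i', hi', rfl⟩ := hi
            change D (finSumFinEquiv.symm (finSumFinEquiv i'))
              (σ2 (algebraMap M K (CM.z (Sum.inl l)))) = 0
            rw [Equiv.symm_apply_apply, hCM]
            have := hD i' hi' l
            rwa [hxK] at this)
        have h3 : ((σ2.restrictScalars k).comp (emb k M K)).comp (emb k L M) = emb k L Ω := by
          ext a
          change σ2 (algebraMap M K (algebraMap L M a)) = algebraMap L Ω a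
          rw [← IsScalarTower.algebraMap_apply L M K, σ2.commutes]
        rw [h3, hT, extF_dom] at h2
        simp only [Equiv.symm_apply_apply] at h2
        rw [trF_embed C CK] at h2
        rw [← h2]
        refine Finset.sum_congr rfl fun σ _ => ?_
        have h4 : wdg CF (algebraMap E K f) xK φ = algebraMap E K f • wdg CF (1 : K) xK φ := by
          rw [← wdg_smul, mul_one]
        rw [h4, extF_smul, mul_comm]
        rfl)
    rw [hΨ, frm_sum_apply]
    exact h1
  -- the basis of the derivations of `Ω`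
  obtain ⟨D0, hD0⟩ := psi_val (Ω := Ω) M hM CF CM hCM φ s σ0
  have hne : (Ψ σ0).domDomCongr (finSumFinEquiv (m := n) (n := j)) ≠ 0 := by
    intro h0
    have h1 := DFunLike.congr_fun h0 fun i => D0 (finSumFinEquiv.symm i)
    rw [AlternatingMap.domDomCongr_apply] at h1
    change Ψ σ0 (fun i => D0 (finSumFinEquiv.symm (finSumFinEquiv i))) = 0 at h1
    simp only [Equiv.symm_apply_apply] at h1
    rw [hΨ, frm_sum_apply, hCK, hxK] at h1
    have h2 : (∑ σ ∈ Finset.univ.filter (fun σ : K →ₐ[L] Ω => res E σ = res E σ0),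
        extF (CM.up K) (σ.restrictScalars k)
          (wdg CF (1 : K) (fun l => algebraMap E K (x l)) φ) D0) = 0 := h1
    rw [hD0, _root_.map_eq_zero, _root_.map_eq_zero] at h2
    exact hstar h2
  -- coordinates of `Ω`
  letI iA : Algebra M Ω := ((σ0 : K →+* Ω).comp (algebraMap M K)).toAlgebra
  have hA : ∀ z : M, algebraMap M Ω z = σ0 (algebraMap M K z) := fun z => rfl
  have hT : IsScalarTower L M Ω := IsScalarTower.of_algebraMap_eq fun z => by
    rw [hA]
    exact (σ0.commutes z).symm
  have hTk : IsScalarTower k M Ω := IsScalarTower.of_algebraMap_eq fun z => by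
    rw [hA]
    have h1 : algebraMap M K (algebraMap k M z) = algebraMap L K (algebraMap k L z) :=
      (IsScalarTower.algebraMap_apply k L K z)
    rw [h1, σ0.commutes, ← IsScalarTower.algebraMap_apply k L Ω]
  have hal : Algebra.IsAlgebraic M Ω := Algebra.IsAlgebraic.tower_top (K := L) M
  have hbas : IsTranscendenceBasis k (algebraMap M Ω ∘ CM.z) := CM.bas.algebraMap_comp
  obtain ⟨CR, -⟩ := crd_of hbas
  have hfin : FiniteDimensional Ω (Derivation k Ω Ω) := CR.fin
  have h1 := dim_le (R := Ω) (V := Derivation k Ω Ω) (n := n) (k := j) (m := n + j) rfl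
    (fun σ : K →ₐ[L] Ω => Vg k fun l => σ (xK l)) (fun σ => Vg_codim _) (by
      rw [eq_bot_iff]
      intro D hD
      rw [Submodule.mem_iInf] at hD
      rw [Submodule.mem_bot]
      refine hH D fun σ l => ?_
      have := mem_Vg.1 (hD σ) l
      rwa [hxK] at this)
    (ϑ := (Ψ σ0).domDomCongr (finSumFinEquiv (m := n) (n := j))) (fun σ D hD => ?_) hne
  · rw [CR.finrank_der, Fintype.card_sum, Fintype.card_fin, Fintype.card_fin] at h1
    omega
  · rw [AlternatingMap.domDomCongr_apply]
    refine hvan σ0 σ _ ((Finset.univ.filter fun i => D i ∈ Vg k fun l => σ (xK l)).map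
      finSumFinEquiv.symm.toEmbedding) (by rwa [Finset.card_map]) ?_
    intro i hi l
    rw [Finset.mem_map] at hi
    obtain ⟨i', hi', rfl⟩ := hi
    rw [Finset.mem_filter] at hi'
    have h3 := mem_Vg.1 hi'.2 l
    change D (finSumFinEquiv (finSumFinEquiv.symm i')) (σ (xK l)) = 0
    rw [Equiv.apply_symm_apply]
    exact h3

end

end Pool.Agent.L7h62.MM
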