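import Pool.Agent.L7h62.MM.Fin3
import Pool.Agent.Y174.V6

/-!
Degrees of algebraic extensions of the constants.
-/

set_option autoImplicit false
set_option linter.all false
set_option maxHeartbeats 4000000
set_option synthInstance.maxHeartbeats 400000

open Module FF IntermediateField

namespace Pool.Agent.L7h62.MM

section

variable {N B K : Type} [Field N] [CharZero N] [Field B] [Field K] [Algebra N B] [Algebra B K]
  [Algebra N K] [IsScalarTower N B K] [FiniteDimensional B K]

/-- degrees over a field in which the constants are algebraically closed -/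
theorem rank_eq (hcl : ∀ z : B, IsIntegral N z → ∃ y : N, algebraMap N B y = z)
    (M0 : IntermediateField N K) [FiniteDimensional N M0] :
    finrank B (adjoin B (M0 : Set K)) = finrank N M0 := by
  obtain ⟨α, hα⟩ := Field.exists_primitive_element N M0
  have hαi : IsIntegral N α := Algebra.IsIntegral.isIntegral α
  have hzi : IsIntegral B (α : K) := Algebra.IsIntegral.isIntegral _
  have h1 : adjoin B (M0 : Set K) = B⟮(α : K)⟯ := by
    apply le_antisymm
    · rw [adjoin_le_iff]
      intro m hm
      have h2 : (⟨m, hm⟩ : M0) ∈ N⟮α⟯ := by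
        rw [hα]
        exact mem_top
      have h3 : N⟮α⟯ ≤ ((B⟮(α : K)⟯).restrictScalars N).comap M0.val := by
        rw [adjoin_le_iff]
        rintro y hy
        rw [Set.mem_singleton_iff] at hy
        rw [hy]
        exact mem_adjoin_simple_self B (α : K)
      exact h3 h2
    · rw [adjoin_le_iff]
      rintro y hy
      rw [Set.mem_singleton_iff] at hy
      rw [hy]
      exact subset_adjoin _ _ α.2
  have h2 : finrank N M0 = (minpoly N α).natDegree := by
    rw [← adjoin.finrank hαi, hα, finrank_top']
  have h3 : (minpoly N (α : K)) = minpoly N α :=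
    minpoly.algebraMap_eq (A := N) (B := M0) (B' := K) Subtype.val_injective α
  rw [h1, adjoin.finrank hzi, h2]
  apply le_antisymm
  · rw [← h3]
    have h4 : minpoly B (α : K) ∣ (minpoly N (α : K)).map (algebraMap N B) :=
      minpoly.dvd_map_of_isScalarTower N B (α : K)
    have hi : IsIntegral N (α : K) := hαi.algebraMap
    have h5 := Polynomial.natDegree_le_of_dvd h4 (Polynomial.map_ne_zero (minpoly.ne_zero hi))
    rwa [Polynomial.natDegree_map] at h5
  · exact Pool.Agent.Y174.minpoly_deg (L := N) (K := B) (Λ := M0) (F := K) hcl hαi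

theorem adj_adj (S : Set K) : adjoin B ((adjoin N S : IntermediateField N K) : Set K) =
    adjoin B S := by
  apply le_antisymm
  · rw [adjoin_le_iff]
    have h1 : adjoin N S ≤ (adjoin B S).restrictScalars N := by
      rw [adjoin_le_iff]
      exact subset_adjoin B S
    exact h1
  · rw [adjoin_le_iff]
    exact fun y hy => subset_adjoin _ _ (subset_adjoin N S hy)

end

section

variable {N B B' K : Type} [Field N] [CharZero N] [Field B] [Field B'] [Field K] [Algebra N B]
  [Algebra B K] [Algebra N B'] [Algebra B' K]
  [Algebra N K] [IsScalarTower N B K] [IsScalarTower N B' K] [FiniteDimensional B K]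
  [FiniteDimensional B' K] [Algebra.EssFiniteType N K]

theorem fin_adj {S : Set K} (hS : ∀ z ∈ S, IsAlgebraic N z) : FiniteDimensional N (adjoin N S) := by
  have h1 : Algebra.EssFiniteType N (adjoin N S) := Pool.Agent.N999.SX.ess_any _
  refine fin_of_alg fun z => ?_
  have h2 : Algebra.IsAlgebraic N (adjoin N S) :=
    isAlgebraic_adjoin fun y hy => (hS y hy).isIntegral
  exact h2.isAlgebraic z

theorem rank_eq2 (hcl : ∀ z : B, IsIntegral N z → ∃ y : N, algebraMap N B y = z)
    (hcl' : ∀ z : B', IsIntegral N z → ∃ y : N, algebraMap N B' y = z)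
    {S : Set K} (hS : ∀ z ∈ S, IsAlgebraic N z) :
    finrank B (adjoin B S) = finrank B' (adjoin B' S) := by
  have h1 := fin_adj hS
  rw [← adj_adj (N := N) S, ← adj_adj (N := N) (B := B') S, rank_eq hcl, rank_eq hcl']

/-- degrees in a tower -/
theorem rank_tower (S1 S2 : Set K) : finrank B (adjoin B S1) *
    finrank (adjoin B S1) (adjoin (adjoin B S1 : IntermediateField B K) S2) =
    finrank B (adjoin B (S1 ∪ S2)) := by
  rw [← adjoin_adjoin_left]
  exact finrank_mul_finrank B (adjoin B S1) (adjoin (adjoin B S1 : IntermediateField B K) S2)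

theorem rank_eq3 (hcl : ∀ z : B, IsIntegral N z → ∃ y : N, algebraMap N B y = z)
    (hcl' : ∀ z : B', IsIntegral N z → ∃ y : N, algebraMap N B' y = z)
    {S1 S2 : Set K} (hS1 : ∀ z ∈ S1, IsAlgebraic N z) (hS2 : ∀ z ∈ S2, IsAlgebraic N z) :
    finrank (adjoin B S1) (adjoin (adjoin B S1 : IntermediateField B K) S2) =
    finrank (adjoin B' S1) (adjoin (adjoin B' S1 : IntermediateField B' K) S2) := by
  have h1 := rank_tower (B := B) S1 S2
  have h2 := rank_tower (B := B') S1 S2
  have h3 := rank_eq2 hcl hcl' hS1
  have h4 := rank_eq2 hcl hcl' (S := S1 ∪ S2) (fun z hz => hz.elim (hS1 z) (hS2 z))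
  rw [h4, ← h2, ← h3] at h1
  exact Nat.eq_of_mul_eq_mul_left finrank_pos h1

end

end Pool.Agent.L7h62.MM
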