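import Pool.Agent.L7h62.MM.Dual

/-!
The field generated by the coefficients of the minimal polynomials.
-/

set_option autoImplicit false
set_option linter.all false

open Module

namespace Pool.Agent.L7h62.MM

section der

variable {k A R : Type} [Field k] [Field A] [CharZero A] [Field R] [Algebra k R]

/-- vector fields and algebraic elements -/
theorem der_algK [Algebra A R] (D : Derivation k R R) (h : ∀ a : A, D (algebraMap A R a) = 0)
    {z : R} (hz : IsAlgebraic A z) : D z = 0 := by
  let D' : Derivation A R R := Derivation.mk'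
    { toFun := fun y => D y
      map_add' := fun a b => map_add D a b
      map_smul' := fun a y => by
        rw [Algebra.smul_def a y, D.leibniz, h, smul_zero, add_zero, RingHom.id_apply,
          smul_eq_mul, ← Algebra.smul_def] } (fun a b => D.leibniz a b)
  have hint : IsIntegral A z := hz.isIntegral
  have h1 : D' (Polynomial.aeval z (minpoly A z)) =
      Polynomial.aeval z (Polynomial.derivative (minpoly A z)) • D' z := D'.map_aeval _ _
  rw [minpoly.aeval, map_zero] at h1
  have h2 : Polynomial.aeval z (Polynomial.derivative (minpoly A z)) ≠ 0 :=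
    (minpoly.irreducible hint).separable.aeval_derivative_ne_zero (minpoly.aeval A z)
  have h3 := h1.symm
  rw [smul_eq_zero] at h3
  exact h3.resolve_left h2

/-- the elements which are killed by `D` -/
def kerD (D : Derivation k R R) : Subfield R where
  carrier := {z | D z = 0}
  mul_mem' := fun {a b} ha hb => by
    change D (a * b) = 0
    rw [D.leibniz, show D a = 0 from ha, show D b = 0 from hb, smul_zero, smul_zero, add_zero]
  one_mem' := D.map_one_eq_zero
  add_mem' := fun {a b} ha hb => by
    change D (a + b) = 0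
    rw [map_add, show D a = 0 from ha, show D b = 0 from hb, add_zero]
  zero_mem' := map_zero D
  neg_mem' := fun {a} ha => by
    change D (-a) = 0
    rw [map_neg, show D a = 0 from ha, neg_zero]
  inv_mem' := fun a ha => by
    change D a⁻¹ = 0
    rw [D.leibniz_inv, show D a = 0 from ha, smul_zero]

theorem mem_kerD {D : Derivation k R R} {z : R} : z ∈ kerD D ↔ D z = 0 := Iff.rfl

/-- the coefficients of a polynomial with all roots in a subfield -/
theorem coeff_mem_of_roots {A : Type} [Field A] (S : Subfield A) {P : Polynomial A}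
    (hm : P.Monic) (hs : P.Splits) (h : ∀ a ∈ P.roots, a ∈ S) (i : ℕ) : P.coeff i ∈ S := by
  have h1 : P ∈ Polynomial.lifts S.subtype := by
    rw [hs.eq_prod_roots_of_monic hm]
    refine Subsemiring.multiset_prod_mem _ _ fun q hq => ?_
    rw [Multiset.mem_map] at hq
    obtain ⟨a, ha, rfl⟩ := hq
    have h2 : Polynomial.X - Polynomial.C a = Polynomial.X + Polynomial.C (-a) := by
      rw [map_neg, sub_eq_add_neg]
    rw [h2]
    refine Subsemiring.add_mem _ (Polynomial.X_mem_lifts _) ?_
    exact Polynomial.C_mem_lifts S.subtype (⟨-a, neg_mem (h a ha)⟩ : S)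
  rw [Polynomial.lifts_iff_coeff_lifts] at h1
  obtain ⟨c, hc⟩ := h1 i
  rw [← hc]
  exact c.2

end der

section deg

variable {L2 K E : Type} [Field L2] [Field K] [Field E] [Algebra ℂ L2] [Algebra ℂ K]
  [Algebra ℂ E] [Algebra L2 K] [Algebra E K] [IsScalarTower ℂ L2 K] [IsScalarTower ℂ E K]
  [FiniteDimensional L2 K]

/-- the degree of the field generated by `E` -/
theorem finrank_adj_le {d : ℕ}
    (h : ∀ e : E, (minpoly L2 (algebraMap E K e)).natDegree ≤ d) :
    finrank L2 (IntermediateField.adjoin L2 (Set.range (algebraMap E K))) ≤ d := by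
  classical
  have hc : CharZero L2 := charZero_of_injective_algebraMap (algebraMap ℂ L2).injective
  obtain ⟨M, hM⟩ : ∃ M, M = IntermediateField.adjoin L2 (Set.range (algebraMap E K)) := ⟨_, rfl⟩
  rw [← hM]
  have hmem : ∀ e : E, algebraMap E K e ∈ M := fun e => by
    rw [hM]
    exact IntermediateField.subset_adjoin _ _ ⟨e, rfl⟩
  let Ω := AlgebraicClosure L2
  have hT : IsScalarTower ℂ L2 Ω := inferInstance
  let ι := {p : (M →ₐ[L2] Ω) × (M →ₐ[L2] Ω) // p.1 ≠ p.2}
  let ev : (M →ₐ[L2] Ω) → (E →ₗ[ℂ] Ω) := fun ψ =>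
    { toFun := fun e => ψ ⟨algebraMap E K e, hmem e⟩
      map_add' := fun a b => by
        rw [← map_add]
        congr 1
        exact Subtype.ext (map_add _ a b)
      map_smul' := fun c a => by
        rw [RingHom.id_apply, Algebra.smul_def, Algebra.smul_def, IsScalarTower.algebraMap_apply ℂ L2 Ω,
          ← ψ.commutes, ← map_mul]
        congr 1
        apply Subtype.ext
        change algebraMap E K (algebraMap ℂ E c * a) = algebraMap L2 K (algebraMap ℂ L2 c) * _
        rw [map_mul, ← IsScalarTower.algebraMap_apply ℂ E K, ← IsScalarTower.algebraMap_apply ℂ L2 K] }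
  have hne : ∀ p : ι, LinearMap.ker (ev p.1.1 - ev p.1.2) ≠ ⊤ := by
    rintro ⟨⟨ψ1, ψ2⟩, hp⟩ htop
    apply hp
    have h1 : ∀ e : E, ψ1 ⟨algebraMap E K e, hmem e⟩ = ψ2 ⟨algebraMap E K e, hmem e⟩ := by
      intro e
      have h2 : e ∈ LinearMap.ker (ev ψ1 - ev ψ2) := by
        rw [htop]
        trivial
      rw [LinearMap.mem_ker] at h2
      exact sub_eq_zero.1 h2
    have h3 : ∀ z (hz : z ∈ M), ψ1 ⟨z, hz⟩ = ψ2 ⟨z, hz⟩ := by
      subst hM
      intro z hz
      refine IntermediateField.adjoin_induction L2
        (p := fun z hz => ψ1 ⟨z, hz⟩ = ψ2 ⟨z, hz⟩) ?_ ?_ ?_ ?_ ?_ hz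
      · rintro _ ⟨e, rfl⟩
        exact h1 e
      · intro a
        exact (ψ1.commutes a).trans (ψ2.commutes a).symm
      · intro a b ha hb h1 h2
        have e1 := map_add ψ1 ⟨a, ha⟩ ⟨b, hb⟩
        have e2 := map_add ψ2 ⟨a, ha⟩ ⟨b, hb⟩
        rw [h1, h2, ← e2] at e1
        exact e1
      · intro a ha h1
        have e1 := map_inv₀ ψ1 ⟨a, ha⟩
        have e2 := map_inv₀ ψ2 ⟨a, ha⟩
        rw [h1, ← e2] at e1
        exact e1
      · intro a b ha hb h1 h2
        have e1 := map_mul ψ1 ⟨a, ha⟩ ⟨b, hb⟩
        have e2 := map_mul ψ2 ⟨a, ha⟩ ⟨b, hb⟩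
        rw [h1, h2, ← e2] at e1
        exact e1
    ext ⟨z, hz⟩
    exact h3 z hz
  have hfinM : FiniteDimensional L2 M := inferInstance
  have hfin : Finite ι := inferInstance
  obtain ⟨e, he⟩ := Submodule.exists_forall_notMem_of_forall_ne_top _ hne
  have hinj : Function.Injective fun ψ : M →ₐ[L2] Ω => ψ ⟨algebraMap E K e, hmem e⟩ := by
    intro ψ1 ψ2 h12
    by_contra hcon
    apply he ⟨(ψ1, ψ2), hcon⟩
    rw [LinearMap.mem_ker]
    exact sub_eq_zero.2 h12
  have h1 := (Field.primitive_element_iff_algHom_eq_of_eval' L2 Ω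
    (fun x => IsAlgClosed.splits _) (⟨algebraMap E K e, hmem e⟩ : M)).2 hinj
  have h2 : finrank L2 M = (minpoly L2 (⟨algebraMap E K e, hmem e⟩ : M)).natDegree := by
    rw [← IntermediateField.adjoin.finrank (Algebra.IsIntegral.isIntegral _), h1,
      IntermediateField.finrank_top']
  have h3 := minpoly.algebraMap_eq (A := L2) (B := M) (B' := K) Subtype.val_injective
    (⟨algebraMap E K e, hmem e⟩ : M)
  rw [h2, ← h3]
  exact h e

end deg

section desc

variable {N L L2 K k E Ω : Type} [Field N] [Field L] [Field L2] [Field K] [Field k] [Field E]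
  [Field Ω] [Algebra ℂ N] [Algebra ℂ L2] [Algebra ℂ K] [Algebra ℂ E]
  [Algebra ℂ k] [Algebra ℂ Ω] [Algebra N L] [Algebra N L2] [Algebra N K] [Algebra L K]
  [Algebra L2 K] [Algebra k L2] [Algebra k Ω] [Algebra L2 Ω] [Algebra E K]
  [IsScalarTower N L K] [IsScalarTower N L2 K] [IsScalarTower ℂ N L2] [IsScalarTower ℂ L2 K]
  [IsScalarTower ℂ E K] [IsScalarTower k L2 Ω] [IsScalarTower ℂ L2 Ω] [IsScalarTower ℂ k Ω]
  [FiniteDimensional L K] [FiniteDimensional L2 K] [IsAlgClosed Ω] [Algebra.IsAlgebraic L2 Ω]

/-- the coefficients of the minimal polynomials -/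
def coefs (N L K E : Type) [Field N] [Field L] [Field K] [Field E] [Algebra N L] [Algebra L K]
    [Algebra E K] : Set N :=
  {c : N | ∃ (e : E) (i : ℕ), algebraMap N L c = (minpoly L (algebraMap E K e)).coeff i}

/-- the minimal polynomial over `N` -/
theorem minpoly_N {e : E} {p : Polynomial N}
    (hp : p.map (algebraMap N L) = minpoly L (algebraMap E K e)) :
    p = minpoly N (algebraMap E K e) ∧ IsIntegral N (algebraMap E K e) := by
  have hint : IsIntegral L (algebraMap E K e) := Algebra.IsIntegral.isIntegral _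
  have hpm : p.Monic := by
    refine Polynomial.monic_of_injective (algebraMap N L).injective ?_
    rw [hp]
    exact minpoly.monic hint
  have hirr : Irreducible p := by
    refine hpm.irreducible_of_irreducible_map (algebraMap N L) p ?_
    rw [hp]
    exact minpoly.irreducible hint
  have h0 : Polynomial.aeval (algebraMap E K e) p = 0 := by
    rw [← Polynomial.aeval_map_algebraMap L, hp, minpoly.aeval]
  exact ⟨minpoly.eq_of_irreducible_of_monic hirr h0 hpm, p, hpm, h0⟩

/-- the minimal polynomial over `N (t)` -/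
theorem minpoly_L2 {q : ℕ} {t : Fin q → L2} (ht : AlgebraicIndependent N t)
    (htop : IntermediateField.adjoin N (Set.range t) = ⊤) {e : E} {p : Polynomial N}
    (hp : p.map (algebraMap N L) = minpoly L (algebraMap E K e)) :
    minpoly L2 (algebraMap E K e) = p.map (algebraMap N L2) := by
  obtain ⟨h1, h2⟩ := minpoly_N hp
  have hint : IsIntegral L2 (algebraMap E K e) := Algebra.IsIntegral.isIntegral _
  have hpm : p.Monic := by
    rw [h1]
    exact minpoly.monic h2
  have h0 : Polynomial.aeval (algebraMap E K e) p = 0 := by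
    rw [h1]
    exact minpoly.aeval _ _
  have hdvd : minpoly L2 (algebraMap E K e) ∣ p.map (algebraMap N L2) := by
    apply minpoly.dvd
    rw [Polynomial.aeval_map_algebraMap, h0]
  have hdeg := Pool.Agent.Y174.minpoly_deg (L := N) (K := L2) (Λ := K) (F := K)
    (fun z hz => int_const ht htop hz) h2
  refine (Polynomial.eq_of_monic_of_dvd_of_natDegree_le (minpoly.monic hint) (hpm.map _) hdvd
    ?_).symm
  rw [Polynomial.natDegree_map, h1]
  exact hdeg

/-- **Vector fields which kill all conjugates.** -/
theorem desc_H {q n : ℕ} {t : Fin q → L2} (ht : AlgebraicIndependent N t)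
    (htop : IntermediateField.adjoin N (Set.range t) = ⊤)
    (htk : ∀ i, ∃ c : k, algebraMap k L2 c = t i)
    (hp : ∀ e : E, ∃ p : Polynomial N, p.map (algebraMap N L) = minpoly L (algebraMap E K e))
    (hN : ∀ z : N, IsAlgebraic (IntermediateField.adjoin ℂ (coefs N L K E)) z)
    {x : Fin n → E} (hx : IsTranscendenceBasis ℂ x) (D : Derivation k Ω Ω)
    (hD : ∀ (σ : K →ₐ[L2] Ω) l, D (σ (algebraMap E K (x l))) = 0) : D = 0 := by
  have hcN : CharZero N := charZero_of_injective_algebraMap (algebraMap ℂ N).injective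
  have hcL : CharZero L2 := charZero_of_injective_algebraMap (algebraMap ℂ L2).injective
  -- the conjugates of the elements of `E`
  have h1 : ∀ (σ : K →ₐ[L2] Ω) (e : E), D (σ (algebraMap E K e)) = 0 := by
    intro σ e
    exact der_zero' hx ((σ.restrictScalars ℂ).comp (emb ℂ E K)) (D.restrictScalars ℂ)
      (fun l => hD σ l) e
  -- the coefficients
  have h2 : ∀ (e : E) (i : ℕ),
      D (algebraMap L2 Ω ((minpoly L2 (algebraMap E K e)).coeff i)) = 0 := by
    intro e i
    have hint : IsIntegral L2 (algebraMap E K e) := Algebra.IsIntegral.isIntegral _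
    have h3 := coeff_mem_of_roots (kerD D)
      (P := (minpoly L2 (algebraMap E K e)).map (algebraMap L2 Ω))
      ((minpoly.monic hint).map _) (IsAlgClosed.splits _) (fun a ha => by
        rw [mem_kerD]
        have h4 : a ∈ (minpoly L2 (algebraMap E K e)).rootSet Ω := by
          rw [Polynomial.mem_rootSet]
          rw [Polynomial.mem_roots'] at ha
          refine ⟨minpoly.ne_zero hint, ?_⟩
          have := ha.2
          rw [Polynomial.IsRoot.def, Polynomial.eval_map] at this
          exact this
        rw [← Algebra.IsAlgebraic.range_eval_eq_rootSet_minpoly (F := L2) (K := K) Ω] at h4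
        obtain ⟨σ, rfl⟩ := h4
        exact h1 σ e) i
    rw [Polynomial.coeff_map] at h3
    exact h3
  -- the elements of `N`
  have h3 : ∀ z ∈ IntermediateField.adjoin ℂ (coefs N L K E),
      D (algebraMap L2 Ω (algebraMap N L2 z)) = 0 := by
    let S : IntermediateField ℂ N :=
      { (kerD D).comap ((algebraMap L2 Ω).comp (algebraMap N L2)) with
        algebraMap_mem' := fun c => by
          change D (algebraMap L2 Ω (algebraMap N L2 (algebraMap ℂ N c))) = 0
          rw [← IsScalarTower.algebraMap_apply ℂ N L2, ← IsScalarTower.algebraMap_apply ℂ L2 Ω,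
            IsScalarTower.algebraMap_apply ℂ k Ω]
          exact D.map_algebraMap _ }
    have h4 : IntermediateField.adjoin ℂ (coefs N L K E) ≤ S := by
      rw [IntermediateField.adjoin_le_iff]
      rintro c ⟨e, i, hc⟩
      change D (algebraMap L2 Ω (algebraMap N L2 c)) = 0
      obtain ⟨p, hpe⟩ := hp e
      have h5 : c = p.coeff i := by
        apply (algebraMap N L).injective
        rw [hc, ← hpe, Polynomial.coeff_map]
      have h6 := h2 e i
      rw [minpoly_L2 ht htop hpe, Polynomial.coeff_map] at h6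
      rw [h5]
      exact h6
    exact fun z hz => h4 hz
  have h4 : ∀ z : N, D (algebraMap L2 Ω (algebraMap N L2 z)) = 0 := by
    intro z
    obtain ⟨B0, hB0⟩ : ∃ B0, B0 = IntermediateField.adjoin ℂ (coefs N L K E) := ⟨_, rfl⟩
    letI i1 : Algebra B0 Ω :=
      (((algebraMap L2 Ω).comp (algebraMap N L2)).comp (algebraMap B0 N)).toAlgebra
    have hcB : CharZero B0 := charZero_of_injective_algebraMap (algebraMap ℂ B0).injective
    refine der_algK (A := B0) D (fun a => h3 _ (by rw [← hB0]; exact a.2)) ?_
    have h5 := hN z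
    rw [← hB0] at h5
    obtain ⟨P, hP0, hP⟩ := h5
    refine ⟨P, hP0, ?_⟩
    have h6 := Polynomial.hom_eval₂ P (algebraMap B0 N) ((algebraMap L2 Ω).comp (algebraMap N L2)) z
    have h7 : Polynomial.eval₂ (algebraMap B0 N) z P = 0 := hP
    rw [h7, map_zero] at h6
    exact h6.symm
  -- the elements of `L2`
  have h5 : ∀ z : L2, D (algebraMap L2 Ω z) = 0 := by
    let S : IntermediateField N L2 :=
      { (kerD D).comap (algebraMap L2 Ω) with
        algebraMap_mem' := fun c => h4 c }
    have h6 : (⊤ : IntermediateField N L2) ≤ S := by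
      rw [← htop, IntermediateField.adjoin_le_iff]
      rintro _ ⟨i, rfl⟩
      obtain ⟨c, hc⟩ := htk i
      change D (algebraMap L2 Ω (t i)) = 0
      rw [← hc, ← IsScalarTower.algebraMap_apply k L2 Ω]
      exact D.map_algebraMap _
    exact fun z => h6 (IntermediateField.mem_top (x := z))
  ext z
  exact der_algK (A := L2) D h5 (Algebra.IsAlgebraic.isAlgebraic z)

end desc

end Pool.Agent.L7h62.MM
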