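import Pool.Agent.L7h62.MM.Cl

/-!
A trace-dual basis in the first factor.
-/

set_option autoImplicit false
set_option linter.all false

open Module MvPolynomial

namespace Pool.Agent.L7h62.MM

section

variable {F K₀ K E : Type} [Field F] [Field K₀] [Field K] [Field E] [Algebra ℂ F] [Algebra ℂ K₀]
  [Algebra ℂ K] [Algebra ℂ E] [Algebra F K₀] [Algebra K₀ K] [Algebra E K] [IsScalarTower ℂ F K₀]
  [IsScalarTower ℂ K₀ K] [IsScalarTower ℂ E K] [FiniteDimensional K₀ K] {n : ℕ} {x : Fin n → E}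
  {x0 : Fin n → K₀}

theorem closed_C (a : F) (ha : IsIntegral ℂ a) : ∃ b : ℂ, algebraMap ℂ F b = a := by
  have h1 := IsAlgClosed.degree_eq_one_of_irreducible ℂ (minpoly.irreducible ha)
  exact minpoly.mem_range_of_degree_eq_one ℂ a h1

theorem trace_E (hx : IsTranscendenceBasis ℂ x)
    (hx0 : ∀ l, algebraMap K₀ K (x0 l) = algebraMap E K (x l))
    (hxF : AlgebraicIndependent F x0)
    (htop : IntermediateField.adjoin F (Set.range x0) = ⊤) (a : E) :
    ∃ g : E, algebraMap E K g = algebraMap K₀ K (Algebra.trace K₀ K (algebraMap E K a)) := by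
  have hae : ∀ G : MvPolynomial (Fin n) ℂ, algebraMap E K (aeval x G) =
      algebraMap K₀ K (aeval x0 G) := by
    intro G
    rw [← MvPolynomial.aeval_algebraMap_apply, ← MvPolynomial.aeval_algebraMap_apply]
    congr 2
    funext l
    exact (hx0 l).symm
  have halg : IsAlgebraic (Algebra.adjoin ℂ (Set.range x)) a := hx.isAlgebraic.isAlgebraic a
  obtain ⟨y, hy0, P, hP, hPy⟩ := halg.exists_integral_multiple
  obtain ⟨h, hh⟩ : ∃ h : MvPolynomial (Fin n) ℂ, h = hx.1.aevalEquiv.symm y := ⟨_, rfl⟩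
  have hy : aeval x h = (y : E) := by
    rw [hh, ← hx.1.algebraMap_aevalEquiv]
    simp
  have hh0 : h ≠ 0 := by
    rintro rfl
    rw [map_zero] at hy
    exact hy0 (Subtype.ext hy.symm)
  obtain ⟨b, hb⟩ : ∃ b : E, b = aeval x h * a := ⟨_, rfl⟩
  obtain ⟨P', hP'⟩ : ∃ P' : Polynomial (MvPolynomial (Fin n) ℂ), P' =
      P.map ((hx.1.aevalEquiv.symm : _ ≃ₐ[ℂ] _) :
        Algebra.adjoin ℂ (Set.range x) →+* MvPolynomial (Fin n) ℂ) := ⟨_, rfl⟩
  have hPm : P'.Monic := by
    rw [hP']
    exact hP.map _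
  have hcomp : (((aeval x : MvPolynomial (Fin n) ℂ →ₐ[ℂ] E) : MvPolynomial (Fin n) ℂ →+* E).comp
      ((hx.1.aevalEquiv.symm : _ ≃ₐ[ℂ] _) :
        Algebra.adjoin ℂ (Set.range x) →+* MvPolynomial (Fin n) ℂ)) =
      algebraMap (Algebra.adjoin ℂ (Set.range x)) E := by
    ext c
    change aeval x (hx.1.aevalEquiv.symm c) = (c : E)
    rw [← hx.1.algebraMap_aevalEquiv]
    simp
  have hPb : Polynomial.eval₂ ((aeval x : MvPolynomial (Fin n) ℂ →ₐ[ℂ] E) :
      MvPolynomial (Fin n) ℂ →+* E) b P' = 0 := by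
    rw [hP', Polynomial.eval₂_map, hcomp, hb, hy]
    exact hPy
  letI i1 : Algebra (MvPolynomial (Fin n) ℂ) K₀ :=
    ((aeval x0 : MvPolynomial (Fin n) ℂ →ₐ[ℂ] K₀) : MvPolynomial (Fin n) ℂ →+* K₀).toAlgebra
  letI i2 : Algebra (MvPolynomial (Fin n) ℂ) K := ((algebraMap K₀ K).comp
    ((aeval x0 : MvPolynomial (Fin n) ℂ →ₐ[ℂ] K₀) : MvPolynomial (Fin n) ℂ →+* K₀)).toAlgebra
  have i3 : IsScalarTower (MvPolynomial (Fin n) ℂ) K₀ K :=
    IsScalarTower.of_algebraMap_eq fun _ => rfl
  have h1 : IsIntegral (MvPolynomial (Fin n) ℂ) (algebraMap E K b) := by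
    refine ⟨P', hPm, ?_⟩
    have h2 := Polynomial.hom_eval₂ P' ((aeval x : MvPolynomial (Fin n) ℂ →ₐ[ℂ] E) :
      MvPolynomial (Fin n) ℂ →+* E) (algebraMap E K) b
    rw [hPb, map_zero] at h2
    have h3 : (algebraMap E K).comp ((aeval x : MvPolynomial (Fin n) ℂ →ₐ[ℂ] E) :
        MvPolynomial (Fin n) ℂ →+* E) = algebraMap (MvPolynomial (Fin n) ℂ) K := by
      apply RingHom.ext
      intro G
      exact hae G
    rw [h3] at h2
    exact h2.symm
  have h2 : IsIntegral (MvPolynomial (Fin n) ℂ)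
      (Algebra.trace K₀ K (algebraMap E K b)) := Algebra.isIntegral_trace h1
  obtain ⟨G, hG⟩ := int_ratfun (B := ℂ) (fun a ha => closed_C a ha) hxF htop h2
  have h3 : Algebra.trace K₀ K (algebraMap E K b) =
      aeval x0 h * Algebra.trace K₀ K (algebraMap E K a) := by
    rw [hb, map_mul, hae, ← Algebra.smul_def, map_smul, smul_eq_mul]
  have h4 : (aeval x0 h : K₀) ≠ 0 := by
    intro h0
    have h5 := hae h
    rw [h0, map_zero, _root_.map_eq_zero, hy] at h5
    exact hy0 (Subtype.ext h5)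
  refine ⟨aeval x G / aeval x h, ?_⟩
  rw [map_div₀, hae, hae, ← map_div₀, ← hG, h3, mul_div_cancel_left₀ _ h4]

/-- **A trace-dual basis in the first factor.** -/
theorem exists_dual (hx : IsTranscendenceBasis ℂ x)
    (hx0 : ∀ l, algebraMap K₀ K (x0 l) = algebraMap E K (x l))
    (hxF : AlgebraicIndependent F x0)
    (htop : IntermediateField.adjoin F (Set.range x0) = ⊤)
    (hgen : IntermediateField.adjoin K₀ (Set.range (algebraMap E K)) = ⊤) :
    ∃ (m : ℕ) (e e' : Fin m → E), ∀ c : K, c = ∑ i, algebraMap E K (e' i) *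
      algebraMap K₀ K (Algebra.trace K₀ K (algebraMap E K (e i) * c)) := by
  classical
  have hcF : CharZero K₀ := charZero_of_injective_algebraMap (algebraMap ℂ K₀).injective
  have hsep : Algebra.IsSeparable K₀ K := inferInstance
  have hspan : Submodule.span K₀ (Set.range (algebraMap E K)) = ⊤ := by
    rw [eq_top_iff]
    intro z _
    exact Pool.Agent.R882.GL.mem_span_of (algebraMap E K)
      (fun a => Algebra.IsAlgebraic.isAlgebraic _) (by rw [hgen]; trivial)
  obtain ⟨S, hS1, hS2, hS3⟩ := exists_linearIndependent K₀ (Set.range (algebraMap E K))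
  let bS : Basis S K₀ K := Basis.mk hS3 (by
    rw [Subtype.range_coe, hS2, hspan])
  have hfin' : Finite S := Module.Finite.finite_basis bS
  letI hfin : Fintype S := Fintype.ofFinite S
  let m := Fintype.card S
  let b : Basis (Fin m) K₀ K := bS.reindex (Fintype.equivFin S)
  have hb : ∀ i, ∃ a : E, algebraMap E K a = b i := by
    intro i
    have h1 : b i = ((Fintype.equivFin S).symm i : K) := by
      simp [b, bS]
    rw [h1]
    exact hS1 ((Fintype.equivFin S).symm i).2
  choose β hβ using hb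
  choose g hg using fun p : Fin m × Fin m => trace_E (K := K) hx hx0 hxF htop (β p.1 * β p.2)
  obtain ⟨g', hg'⟩ : ∃ g' : Matrix (Fin m) (Fin m) E, ∀ i j, g' i j = g (i, j) :=
    ⟨Matrix.of fun i j => g (i, j), fun _ _ => rfl⟩
  have hdet : g'.det ≠ 0 := by
    intro h0
    have h1 : algebraMap E K g'.det = algebraMap K₀ K (Algebra.discr K₀ b) := by
      rw [Algebra.discr, RingHom.map_det, RingHom.map_det]
      congr 1
      ext i j
      rw [RingHom.mapMatrix_apply, RingHom.mapMatrix_apply, Matrix.map_apply, Matrix.map_apply,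
        hg', hg, Algebra.traceMatrix_apply, Algebra.traceForm_apply, map_mul, hβ, hβ]
    rw [h0, map_zero] at h1
    have h2 := Algebra.discr_not_zero_of_basis K₀ b
    exact h2 ((_root_.map_eq_zero _).1 h1.symm)
  refine ⟨m, β, fun i => ∑ j, g'⁻¹ j i * β j, fun c => ?_⟩
  have h1 : ∀ i, algebraMap K₀ K (Algebra.trace K₀ K (algebraMap E K (β i) * c)) =
      ∑ l, algebraMap K₀ K (b.repr c l) * algebraMap E K (g' i l) := by
    intro i
    have h2 : algebraMap E K (β i) * c = ∑ l, b.repr c l • (algebraMap E K (β i * β l)) := by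
      conv_lhs => rw [← b.sum_repr c]
      rw [Finset.mul_sum]
      refine Finset.sum_congr rfl fun l _ => ?_
      rw [mul_smul_comm, ← hβ, ← map_mul]
    rw [h2, map_sum, map_sum]
    refine Finset.sum_congr rfl fun l _ => ?_
    rw [map_smul, smul_eq_mul, map_mul, hg', hg]
  have h3 : ∀ j l, ∑ i, g'⁻¹ j i * g' i l = if j = l then 1 else 0 := by
    intro j l
    have h4 : (g'⁻¹ * g') j l = (1 : Matrix (Fin m) (Fin m) E) j l := by
      rw [Matrix.nonsing_inv_mul _ (isUnit_iff_ne_zero.2 hdet)]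
    rw [Matrix.mul_apply, Matrix.one_apply] at h4
    exact h4
  simp only [h1]
  have h5 : ∑ i, algebraMap E K (∑ j, g'⁻¹ j i * β j) *
      ∑ l, algebraMap K₀ K (b.repr c l) * algebraMap E K (g' i l) =
      ∑ l, ∑ j, algebraMap K₀ K (b.repr c l) * algebraMap E K (β j) *
        algebraMap E K (∑ i, g'⁻¹ j i * g' i l) := by
    have h6 : ∀ i, algebraMap E K (∑ j, g'⁻¹ j i * β j) *
        ∑ l, algebraMap K₀ K (b.repr c l) * algebraMap E K (g' i l) =
        ∑ l, ∑ j, algebraMap K₀ K (b.repr c l) * algebraMap E K (β j) *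
          algebraMap E K (g'⁻¹ j i * g' i l) := by
      intro i
      rw [map_sum, Finset.mul_sum]
      refine Finset.sum_congr rfl fun l _ => ?_
      rw [Finset.sum_mul]
      refine Finset.sum_congr rfl fun j _ => ?_
      rw [map_mul, map_mul]
      ring
    rw [Finset.sum_congr rfl fun i _ => h6 i, Finset.sum_comm]
    refine Finset.sum_congr rfl fun l _ => ?_
    rw [Finset.sum_comm]
    refine Finset.sum_congr rfl fun j _ => ?_
    rw [map_sum, Finset.mul_sum]
  rw [h5]
  conv_lhs => rw [← b.sum_repr c]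
  refine Finset.sum_congr rfl fun l _ => ?_
  rw [Finset.sum_eq_single l]
  · rw [h3, if_pos rfl, map_one, mul_one, hβ, Algebra.smul_def]
  · intro j _ hj
    rw [h3, if_neg hj, map_zero, mul_zero]
  · intro h
    exact absurd (Finset.mem_univ _) h

end

end Pool.Agent.L7h62.MM
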