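import Mathlib

/-!
Alternating forms which vanish if many arguments are in one of several subspaces with trivial
intersection.
-/

set_option autoImplicit false

open Module

namespace Pool.Agent.L7h62.MM

open scoped Classical

section

variable {R V : Type*} [Field R] [AddCommGroup V] [Module R V] {m : ℕ}

/-- `ϑ` vanishes if at least `j` of its arguments are in `S` -/
def VanGe (ϑ : V [⋀^Fin m]→ₗ[R] R) (S : Submodule R V) (j : ℕ) : Prop :=
  ∀ v : Fin m → V, j ≤ (Finset.univ.filter fun i => v i ∈ S).card → ϑ v = 0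

theorem wedge_zero [FiniteDimensional R V] {n k : ℕ} (hm : m = n + k)
    {ϑ : V [⋀^Fin m]→ₗ[R] R} {S : Submodule R V} (hS : finrank R (V ⧸ S) ≤ n)
    (h : VanGe ϑ S (k + 1)) {lam : V →ₗ[R] R} (hlam : ∀ v ∈ S, lam v = 0) :
    AlternatingMap.alternatizeUncurryFin (lam.smulRight ϑ) = 0 := by
  obtain ⟨C, hC⟩ := Submodule.exists_isCompl S
  obtain ⟨bS⟩ : Nonempty (Basis (Fin (finrank R S)) R S) := ⟨finBasis R S⟩
  obtain ⟨bC⟩ : Nonempty (Basis (Fin (finrank R C)) R C) := ⟨finBasis R C⟩
  have hCn : finrank R C ≤ n := by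
    rw [← (Submodule.quotientEquivOfIsCompl S C hC).finrank_eq]
    exact hS
  let b : Basis (Fin (finrank R S) ⊕ Fin (finrank R C)) R V :=
    (bS.prod bC).map (Submodule.prodEquivOfIsCompl S C hC)
  have hb1 : ∀ i, b (Sum.inl i) ∈ S := by
    intro i
    have : b (Sum.inl i) = (bS i : V) := by
      simp [b]
    rw [this]
    exact (bS i).2
  refine Basis.ext_alternating b fun v hv => ?_
  rw [AlternatingMap.alternatizeUncurryFin_apply, AlternatingMap.zero_apply]
  refine Finset.sum_eq_zero fun i _ => ?_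
  rw [LinearMap.smulRight_apply, AlternatingMap.smul_apply]
  rcases hi : v i with a | a
  · rw [hlam _ (hb1 a), zero_smul, smul_zero]
  have hz : ϑ (i.removeNth fun j => b (v j)) = 0 := by
    refine h _ ?_
    -- the number of the arguments in `S`
    have h1 : (Finset.univ.filter fun j : Fin (m + 1) => ¬ ∃ a, v j = Sum.inl a).card ≤ n := by
      refine le_trans ?_ hCn
      refine le_trans ?_ (le_of_eq (Fintype.card_fin (finrank R C)))
      have hex : ∀ j : {j // j ∈ Finset.univ.filter fun j : Fin (m + 1) => ¬ ∃ a, v j = Sum.inl a},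
          ∃ c, v j.1 = Sum.inr c := by
        rintro ⟨j, hj⟩
        rw [Finset.mem_filter] at hj
        rcases hv' : v j with c | c
        · exact absurd ⟨c, hv'⟩ hj.2
        · exact ⟨c, rfl⟩
      choose c hc using hex
      rw [← Fintype.card_coe]
      refine Fintype.card_le_of_injective c fun j j' hjj => ?_
      apply Subtype.ext
      apply hv
      rw [hc j, hc j', hjj]
    have h2 := Finset.card_filter_add_card_filter_not (s := (Finset.univ : Finset (Fin (m + 1))))
      (fun j : Fin (m + 1) => ∃ a, v j = Sum.inl a)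
    rw [Finset.card_univ, Fintype.card_fin] at h2
    have h3 : k + 1 ≤ (Finset.univ.filter fun j : Fin (m + 1) => ∃ a, v j = Sum.inl a).card := by
      omega
    refine h3.trans ?_
    have h4 : (Finset.univ.filter fun j : Fin (m + 1) => ∃ a, v j = Sum.inl a) ⊆
        ((Finset.univ : Finset (Fin m)).filter fun j => (i.removeNth fun j => b (v j)) j ∈ S).image
          i.succAbove := by
      intro j hj
      rw [Finset.mem_filter] at hj
      obtain ⟨-, a', ha'⟩ := hj
      have hne : j ≠ i := by
        rintro rfl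
        rw [hi] at ha'
        cases ha'
      obtain ⟨j', rfl⟩ := Fin.exists_succAbove_eq hne
      rw [Finset.mem_image]
      refine ⟨j', ?_, rfl⟩
      rw [Finset.mem_filter]
      refine ⟨Finset.mem_univ _, ?_⟩
      change b (v (i.succAbove j')) ∈ S
      rw [ha']
      exact hb1 a'
    exact (Finset.card_le_card h4).trans Finset.card_image_le
  rw [hz, smul_zero, smul_zero]

theorem dim_le [FiniteDimensional R V] {n k : ℕ} (hm : m = n + k) {ι : Type*} [Finite ι]
    (S : ι → Submodule R V) (hS : ∀ i, finrank R (V ⧸ S i) ≤ n) (hinf : ⨅ i, S i = ⊥)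
    {ϑ : V [⋀^Fin m]→ₗ[R] R} (h : ∀ i, VanGe ϑ (S i) (k + 1)) (h0 : ϑ ≠ 0) :
    finrank R V ≤ n + k := by
  by_contra hlt
  push Not at hlt
  let Φ : Dual R V →ₗ[R] V [⋀^Fin (m + 1)]→ₗ[R] R :=
    { toFun := fun lam => AlternatingMap.alternatizeUncurryFin (lam.smulRight ϑ)
      map_add' := fun a b => by
        rw [← AlternatingMap.alternatizeUncurryFin_add]
        congr 1
        ext v w
        simp [add_mul]
      map_smul' := fun c a => by
        rw [RingHom.id_apply, ← AlternatingMap.alternatizeUncurryFin_smul]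
        congr 1
        ext v w
        simp [mul_assoc] }
  have h1 : ∀ i, (S i).dualAnnihilator ≤ LinearMap.ker Φ := by
    intro i lam hlam
    rw [LinearMap.mem_ker]
    rw [Submodule.mem_dualAnnihilator] at hlam
    exact wedge_zero hm (hS i) (h i) hlam
  have h2 : (⊤ : Submodule R (Dual R V)) ≤ LinearMap.ker Φ := by
    have h3 : (⨅ i, S i).dualAnnihilator = ⨆ i, (S i).dualAnnihilator :=
      Subspace.dualAnnihilator_iInf_eq S
    rw [hinf, Submodule.dualAnnihilator_bot] at h3
    rw [h3, iSup_le_iff]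
    exact h1
  obtain ⟨v, hv⟩ : ∃ v, ϑ v ≠ 0 := by
    by_contra hcon
    push Not at hcon
    exact h0 (by ext v; exact hcon v)
  have h3 : Submodule.span R (Set.range v) ≠ ⊤ := by
    intro h4
    have h5 := finrank_range_le_card (R := R) v
    rw [Set.finrank, h4, finrank_top, Fintype.card_fin] at h5
    omega
  obtain ⟨lam, hlam0, hlam⟩ := Submodule.exists_le_ker_of_lt_top _ (lt_top_iff_ne_top.2 h3)
  obtain ⟨u, hu⟩ : ∃ u, lam u ≠ 0 := by
    by_contra hcon
    push Not at hcon
    exact hlam0 (by ext v; exact hcon v)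
  have h6 : Φ lam = 0 := h2 (Submodule.mem_top (x := lam))
  have h7 := DFunLike.congr_fun h6 (Fin.cons u v : Fin (m + 1) → V)
  change AlternatingMap.alternatizeUncurryFin (lam.smulRight ϑ) _ = 0 at h7
  rw [AlternatingMap.alternatizeUncurryFin_apply, Fin.sum_univ_succ] at h7
  have h8 : ∑ i : Fin m, (-1 : ℤ) ^ ((i.succ : Fin (m + 1)) : ℕ) •
      (lam.smulRight ϑ) ((Fin.cons u v : Fin (m + 1) → V) i.succ)
        (i.succ.removeNth (Fin.cons u v : Fin (m + 1) → V)) = 0 := by
    refine Finset.sum_eq_zero fun i _ => ?_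
    rw [Fin.cons_succ, LinearMap.smulRight_apply,
      LinearMap.mem_ker.1 (hlam (Submodule.subset_span ⟨i, rfl⟩)), zero_smul,
      AlternatingMap.zero_apply, smul_zero]
  rw [h8, add_zero] at h7
  rw [Fin.cons_zero, LinearMap.smulRight_apply, AlternatingMap.smul_apply] at h7
  have h9 : (Fin.removeNth 0 (Fin.cons u v : Fin (m + 1) → V)) = v := by
    funext j
    rfl
  rw [h9] at h7
  simp at h7
  rcases h7 with h7 | h7
  · exact hu h7
  · exact hv h7

end

end Pool.Agent.L7h62.MM
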