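import Pool.Agent.L7h62.MM.Star
import Pool.Agent.L7h62.MM.LA
import Pool.Agent.N145.SX.Main

/-!
Products of the canonical forms of the first factor and forms of the second factor.
-/

set_option autoImplicit false
set_option linter.all false

open Module FF
open Pool.Agent.W602.GT (DerReg Divisorial)

namespace Pool.Agent.L7h62.MM

section

variable {k L R : Type} [Field k] [CharZero k] [Field L] [Field R] [Algebra k L]
  [Algebra k R] {I : Type} [Fintype I] [DecidableEq I]
  {ι ι' : Type} [Fintype ι] [DecidableEq ι] [Fintype ι'] [DecidableEq ι']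

theorem extF_smul (C : Crd k L I) (φ : L →ₐ[k] R) (g : L) (θ : Frm k L ι)
    (D : ι → Derivation k R R) : extF C φ (g • θ) D = φ g * extF C φ θ D := by
  rw [extF_apply, extF_apply, Finset.mul_sum]
  refine Finset.sum_congr rfl fun κ _ => ?_
  rw [AlternatingMap.smul_apply, smul_eq_mul, map_mul]
  ring

theorem extF_dom (C : Crd k L I) (φ : L →ₐ[k] R) (e : ι ≃ ι') (θ : Frm k L ι)
    (D : ι' → Derivation k R R) :
    extF C φ (θ.domDomCongr e) D = extF C φ θ (fun i => D (e i)) := by
  rw [extF_apply, extF_apply]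
  refine Fintype.sum_equiv (Equiv.arrowCongr e.symm (Equiv.refl I)) _ _ fun κ => ?_
  have h1 : (Equiv.arrowCongr e.symm (Equiv.refl I)) κ = κ ∘ e := by
    funext i
    simp [Equiv.arrowCongr]
  rw [h1]
  congr 1
  rw [← Equiv.prod_comp e fun i => D i (φ (C.z (κ i)))]
  rfl

theorem regF_dom (e : ι ≃ ι') {θ : Frm k L ι} {P : Place k L} (h : RegF θ P) :
    RegF (θ.domDomCongr e) P := fun D hD => h (fun i => D (e i)) fun i => hD _

/-- the derivations are a vector space with the coordinates `D (z i)` -/
noncomputable def Crd.equiv (C : Crd k L I) : Derivation k L L ≃ₗ[L] (I → L) where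
  toFun D := fun i => D (C.z i)
  map_add' := fun _ _ => rfl
  map_smul' := fun _ _ => rfl
  invFun a := ∑ i, a i • C.E i
  left_inv := fun D => expandD C D
  right_inv := fun a => by
    funext i
    change (∑ j, a j • C.E j) (C.z i) = a i
    rw [der_sum_apply]
    change ∑ j, a j * C.E j (C.z i) = a i
    simp [C.dual]

theorem Crd.fin (C : Crd k L I) : FiniteDimensional L (Derivation k L L) :=
  Module.Finite.equiv C.equiv.symm

theorem Crd.finrank_der (C : Crd k L I) : finrank L (Derivation k L L) = Fintype.card I := by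
  rw [C.equiv.finrank_eq, Module.finrank_fintype_fun_eq_card]

/-- the derivations which vanish on `g` -/
noncomputable def Vg (k : Type) {R : Type} [Field k] [Field R] [Algebra k R] {n : ℕ}
    (g : Fin n → R) : Submodule R (Derivation k R R) :=
  LinearMap.ker (LinearMap.pi fun l => evD k (g l) :
    Derivation k R R →ₗ[R] (Fin n → R))

theorem mem_Vg {n : ℕ} {g : Fin n → R} {D : Derivation k R R} : D ∈ Vg k g ↔ ∀ l, D (g l) = 0 := by
  unfold Vg
  rw [LinearMap.mem_ker]
  constructor
  · intro h l
    exact congrFun h l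
  · intro h
    funext l
    exact h l

theorem Vg_codim {n : ℕ} (g : Fin n → R) :
    finrank R (Derivation k R R ⧸ Vg k g) ≤ n := by
  unfold Vg
  rw [(LinearMap.quotKerEquivRange _).finrank_eq]
  refine (Submodule.finrank_le _).trans ?_
  rw [Module.finrank_fin_fun]

/-- the lift of the vector fields to an algebraic extension -/
theorem lift_crd {M : Type} [Field M] [Algebra k M] (CM : Crd k M I) (CR : Crd k R I)
    (σ : M →ₐ[k] R) (h : ∀ c, CR.z c = σ (CM.z c)) (a : I) (f : M) :
    CR.E a (σ f) = σ (CM.E a f) := by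
  rw [chainA CM σ (CR.E a) f, Finset.sum_eq_single a]
  · rw [← h, CR.dual, if_pos rfl, one_mul]
  · intro b _ hb
    rw [← h, CR.dual, if_neg (Ne.symm hb), zero_mul]
  · intro h1
    exact absurd (Finset.mem_univ _) h1

end

section wreg

open Pool.Agent.N145.SX (HX SepX)
open Pool.Agent.Y184.NT (trForm)

variable {k F K E : Type} [Field k] [Field F] [Field K] [Field E] [Algebra ℂ k]
  [Algebra ℂ K] [Algebra ℂ E] [Algebra k F] [Algebra k K] [Algebra F K] [Algebra E K]
  [IsScalarTower ℂ k K] [IsScalarTower k F K] [IsScalarTower ℂ E K]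
  [Algebra.EssFiniteType ℂ E] [Algebra.EssFiniteType k F] {n r q j : ℕ}

/-- **Products of canonical forms of the first factor and regular forms of the second factor.** -/
theorem wreg (hE : Algebra.trdeg ℂ E = n) {b : Fin q → k} (hb : AlgebraicIndependent ℂ b)
    (hkK : Algebra.trdeg k K = (n + r : ℕ)) (hKK : Algebra.trdeg ℂ K = (q + (n + r) : ℕ))
    (CF : Crd k F (Fin r)) {φ : Frm k F (Fin j)}
    (hφ : ∀ P : Place k F, Divisorial (Fintype.card (Fin r)) P → RegF φ P) {x : Fin n → E}
    (hx : IsTranscendenceBasis ℂ x) {f : E} (hf : f ∈ HX x (fun _ => False)) (Q : Place k K)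
    (hQ : Divisorial (n + r) Q) :
    RegF (wdg CF (algebraMap E K f) (fun l => algebraMap E K (x l)) φ) Q := by
  classical
  have hck : CharZero k := charZero_of_injective_algebraMap (algebraMap ℂ k).injective
  obtain ⟨Q', hQ'⟩ : ∃ Q' : Place ℂ K, Q' = Place.lower ℂ Q := ⟨_, rfl⟩
  have ho : ∀ z, Q'.ord z = Q.ord z := fun z => by
    rw [hQ']
    rfl
  have hd : Divisorial (q + (n + r)) Q' := by
    rw [hQ']
    exact div_lower hb rfl hQ
  by_cases htriv : ∃ z : E, Q'.ord (algebraMap E K z) ≠ 0
  · obtain ⟨e, P, hP⟩ := exists_over Q' htriv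
    have hPd : Divisorial n P := t_abh hE hKK hP hd
    obtain ⟨y, G, i0, hloc⟩ := Pool.Agent.Y172.exists_loc hE hPd
    have hr : ∀ z : E, P.Reg z → Q.Reg (algebraMap E K z) := by
      intro z hz
      rcases hz with hz | hz
      · left
        rw [hz, map_zero]
      · right
        rw [← ho, hP.2]
        exact mul_nonneg (Int.natCast_nonneg e) hz
    refine wdg_reg CF hkK hφ hQ (u := fun a => algebraMap E K (y a))
      (A := Matrix.of fun a l => algebraMap E K (G a (x l))) (fun D l => ?_) (fun a => ?_) ?_
    · have h1 := chainA (⟨y, G, hloc.bas, hloc.dual⟩ : Crd ℂ E (Fin n)) (emb ℂ E K)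
        (D.restrictScalars ℂ) (x l)
      exact h1
    · exact hr _ (hloc.reg a)
    · have h1 := (hf P hPd).2 (fun h => h) G fun i => hloc.pres i
      have h2 : (Matrix.of fun a l => algebraMap E K (G a (x l)) : Matrix (Fin n) (Fin n) K).det =
          algebraMap E K (Matrix.of fun a l => G a (x l) : Matrix (Fin n) (Fin n) E).det := by
        rw [RingHom.map_det]
        rfl
      rw [h2, ← map_mul, mul_comm]
      exact hr _ h1
  · push Not at htriv
    have h0 : ∀ z : E, Q.Reg (algebraMap E K z) := fun z => Or.inr (by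
      rw [← ho, htriv z])
    refine wdg_reg CF hkK hφ hQ (u := fun a => algebraMap E K (x a)) (A := 1)
      (fun D l => ?_) (fun a => h0 _) ?_
    · simp [Matrix.one_apply]
    · rw [Matrix.det_one, mul_one]
      exact h0 f

end wreg

end Pool.Agent.L7h62.MM
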