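import Pool.Agent.L7h62.MM.Top

/-!
Algebraic elements and rational functions.
-/

set_option autoImplicit false
set_option linter.all false

open Module FF
open Pool.Agent.W602.GT (DerReg Divisorial)
open Pool.Agent.N145.PC (Rt ratio_mem)

namespace Pool.Agent.L7h62.MM

section tr

variable {A B A' B' : Type} [Field A] [Field B] [Field A'] [Field B'] [Algebra A B] [Algebra A' B']

/-- transport of algebraic elements -/
theorem alg_tr (φ : B →+* B') (h : ∀ a : A, ∃ a' : A', algebraMap A' B' a' = φ (algebraMap A B a))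
    {z : B} (hz : IsAlgebraic A z) : IsAlgebraic A' (φ z) := by
  choose f hf using h
  have hinj := (algebraMap A' B').injective
  let F : A →+* A' :=
    { toFun := f
      map_one' := hinj (by rw [hf, map_one, map_one, map_one])
      map_mul' := fun a b => hinj (by rw [hf, map_mul, map_mul, map_mul, hf, hf])
      map_zero' := hinj (by rw [hf, map_zero, map_zero, map_zero])
      map_add' := fun a b => hinj (by rw [hf, map_add, map_add, map_add, hf, hf]) }
  obtain ⟨P, hP0, hP⟩ := hz
  refine ⟨P.map F, (Polynomial.map_ne_zero_iff F.injective).2 hP0, ?_⟩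
  have h1 : (algebraMap A' B').comp F = φ.comp (algebraMap A B) := by
    ext a
    exact hf a
  rw [Polynomial.aeval_def, Polynomial.eval₂_map, h1, ← Polynomial.hom_eval₂]
  have h2 : Polynomial.eval₂ (algebraMap A B) z P = 0 := hP
  rw [h2, map_zero]

end tr

section desc

variable {R N K : Type} [Field R] [Field N] [Field K] [Algebra R N] [Algebra R K] [Algebra N K]
  [IsScalarTower R N K] {q : ℕ}

open scoped IntermediateField.algebraAdjoinAdjoin in
/-- algebraic elements over a rational function field -/
theorem alg_desc {t : Fin q → K} (ht : AlgebraicIndependent N t) {z : K} (hzN : IsAlgebraic N z)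
    (hz : IsAlgebraic (IntermediateField.adjoin R (Set.range t)) z) : IsAlgebraic R z := by
  by_contra htr
  obtain ⟨S, hS⟩ : ∃ S, S = IntermediateField.adjoin N {z} := ⟨_, rfl⟩
  have hzS : z ∈ S := by
    rw [hS]
    exact IntermediateField.subset_adjoin _ _ rfl
  have hSalg : Algebra.IsAlgebraic N S := by
    rw [hS]
    exact IntermediateField.isAlgebraic_adjoin fun y hy => by
      rw [Set.mem_singleton_iff] at hy
      rw [hy]
      exact hzN.isIntegral
  have hRS : IsScalarTower R N S := IsScalarTower.of_algebraMap_eq fun c => by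
    apply Subtype.ext
    change algebraMap R K c = algebraMap N K (algebraMap R N c)
    exact IsScalarTower.algebraMap_apply R N K c
  have hRSK : IsScalarTower R S K := IsScalarTower.of_algebraMap_eq fun c => rfl
  have h1 : AlgebraicIndependent S t := ht.extendScalars S
  have h2 : AlgebraicIndependent R (fun _ : Unit => (⟨z, hzS⟩ : S)) := by
    rw [algebraicIndependent_unique_type_iff]
    intro h3
    apply htr
    exact h3.algebraMap (A := K)
  have h3 := h2.sumElim_comp h1
  have h4 := h3.comp (Equiv.sumComm Unit (Fin q)) (Equiv.injective _)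
  have h5 : (Sum.elim t (algebraMap S K ∘ fun _ : Unit => (⟨z, hzS⟩ : S))) ∘
      (Equiv.sumComm Unit (Fin q)) = Sum.elim (fun _ : Unit => z) t := by
    funext a
    rcases a with a | a <;> rfl
  rw [h5, AlgebraicIndependent.sumElim_iff] at h4
  have h6 := h4.2
  rw [algebraicIndependent_unique_type_iff] at h6
  apply h6
  exact (IsFractionRing.isAlgebraic_iff (Algebra.adjoin R (Set.range t))
    (IntermediateField.adjoin R (Set.range t)) K).2 hz

end desc

section crdup

variable {N L2 k : Type} [Field N] [Field L2] [Field k] [Algebra ℂ N] [Algebra ℂ L2] [Algebra ℂ k]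
  [Algebra k L2] [Algebra N L2] [IsScalarTower ℂ N L2] [IsScalarTower ℂ k L2] {q w : ℕ}

/-- the coordinates of `N` are coordinates of `N (t)` over `ℂ (t)` -/
theorem crd_up {t : Fin q → L2} (ht : AlgebraicIndependent N t)
    (htop : IntermediateField.adjoin N (Set.range t) = ⊤) {tk : Fin q → k}
    (htk : ∀ i, algebraMap k L2 (tk i) = t i)
    (hktop : IntermediateField.adjoin ℂ (Set.range tk) = ⊤) (CN : Crd ℂ N (Fin w)) :
    ∃ CZ : Crd k L2 (Fin w), ∀ a, CZ.z a = algebraMap N L2 (CN.z a) := by
  have hcN : CharZero N := charZero_of_injective_algebraMap (algebraMap ℂ N).injective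
  have hck : CharZero k := charZero_of_injective_algebraMap (algebraMap ℂ k).injective
  have hindk : AlgebraicIndependent ℂ tk := by
    have h1 : AlgebraicIndependent ℂ t := ht.restrictScalars (algebraMap ℂ N).injective
    have h2 : t = algebraMap k L2 ∘ tk := by
      funext i
      exact (htk i).symm
    rw [h2] at h1
    exact AlgebraicIndependent.of_comp (IsScalarTower.toAlgHom ℂ k L2) h1
  have e1 : Algebra.trdeg ℂ k = (q : ℕ) := by
    rw [← (basis_of_top hindk hktop).cardinalMk_eq_trdeg, Cardinal.mk_fin]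
  have e2 : Algebra.trdeg N L2 = (q : ℕ) := by
    rw [← (basis_of_top ht htop).cardinalMk_eq_trdeg, Cardinal.mk_fin]
  have e3 : Algebra.trdeg ℂ N = (w : ℕ) := by
    rw [CN.trdeg, Fintype.card_fin]
  have e4 : Algebra.trdeg ℂ k + Algebra.trdeg k L2 = Algebra.trdeg ℂ L2 :=
    _root_.trdeg_add_eq ℂ k (A := L2)
  have e5 : Algebra.trdeg ℂ N + Algebra.trdeg N L2 = Algebra.trdeg ℂ L2 :=
    _root_.trdeg_add_eq ℂ N (A := L2)
  have e6 : Algebra.trdeg k L2 = (w : ℕ) := by
    rw [← e5, e1, e2, e3, add_comm, add_comm (w : Cardinal), add_comm _ (w : Cardinal)] at e4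
    exact (Cardinal.add_right_inj_of_lt_aleph0 Cardinal.natCast_lt_aleph0).1 e4
  obtain ⟨z', hz'⟩ : ∃ z' : Fin w → L2, ∀ a, z' a = algebraMap N L2 (CN.z a) := ⟨_, fun _ => rfl⟩
  have halg : Algebra.IsAlgebraic (Algebra.adjoin k (Set.range z')) L2 := by
    refine Pool.Agent.W619.PQ.alg_adjoin fun y => ?_
    obtain ⟨A1, hA1⟩ : ∃ A1, A1 = IntermediateField.adjoin k (Set.range z') := ⟨_, rfl⟩
    rw [← hA1]
    have hC : ∀ c ∈ IntermediateField.adjoin ℂ (Set.range CN.z), algebraMap N L2 c ∈ A1 := by
      let S : IntermediateField ℂ N :=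
        { A1.toSubfield.comap (algebraMap N L2) with
          algebraMap_mem' := fun c => by
            change algebraMap N L2 (algebraMap ℂ N c) ∈ A1
            rw [← IsScalarTower.algebraMap_apply ℂ N L2, IsScalarTower.algebraMap_apply ℂ k L2]
            exact A1.algebraMap_mem _ }
      have h1 : IntermediateField.adjoin ℂ (Set.range CN.z) ≤ S := by
        rw [IntermediateField.adjoin_le_iff]
        rintro _ ⟨a, rfl⟩
        change algebraMap N L2 (CN.z a) ∈ A1
        rw [hA1, ← hz']
        exact IntermediateField.subset_adjoin _ _ ⟨a, rfl⟩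
      exact fun c hc => h1 hc
    have hN : ∀ a : N, IsAlgebraic A1 (algebraMap N L2 a) := by
      intro a
      refine alg_tr (A := IntermediateField.adjoin ℂ (Set.range CN.z)) (algebraMap N L2)
        (fun c => ⟨⟨algebraMap N L2 c, hC _ c.2⟩, rfl⟩) ?_
      exact CN.bas.isAlgebraic_field.isAlgebraic a
    let S : IntermediateField N L2 :=
      { (algebraicClosure A1 L2).toSubfield with
        algebraMap_mem' := fun c => by
          change algebraMap N L2 c ∈ algebraicClosure A1 L2
          rw [mem_algebraicClosure_iff]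
          exact hN c }
    have h2 : (⊤ : IntermediateField N L2) ≤ S := by
      rw [← htop, IntermediateField.adjoin_le_iff]
      rintro _ ⟨i, rfl⟩
      change t i ∈ algebraicClosure A1 L2
      rw [← htk]
      exact (algebraicClosure A1 L2).algebraMap_mem (⟨algebraMap k L2 (tk i), A1.algebraMap_mem _⟩ : A1)
    have h3 : y ∈ algebraicClosure A1 L2 := h2 (IntermediateField.mem_top (x := y))
    rwa [mem_algebraicClosure_iff] at h3
  have hb : IsTranscendenceBasis k z' := by
    refine Algebra.IsAlgebraic.isTranscendenceBasis_of_le_trdeg_of_finite k z' ?_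
    rw [e6, Cardinal.mk_fin]
  obtain ⟨CZ, hCZ⟩ := crd_of hb
  exact ⟨CZ, fun a => by rw [hCZ, hz']⟩

end crdup

section ratios

variable {N L2 K : Type} [Field N] [Field L2] [Field K] [Algebra ℂ N] [Algebra ℂ L2] [Algebra ℂ K]
  [Algebra N L2] [Algebra N K] [Algebra L2 K] [IsScalarTower ℂ N L2] [IsScalarTower ℂ N K]
  [IsScalarTower ℂ L2 K] [IsScalarTower N L2 K] {q : ℕ}

/-- the ratios -/
theorem ratio_desc {t : Fin q → L2} {ι : Type} (T : ι → L2)
    (h : ι → MvPolynomial (Fin q) ℂ) (hh : ∀ f, MvPolynomial.aeval t (h f) ≠ 0)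
    (Ts : ι → Finset (Fin q →₀ ℕ)) (τ : ι × (Fin q →₀ ℕ) → N)
    (hT : ∀ f, T f * MvPolynomial.aeval t (h f) =
      ∑ μ ∈ Ts f, MvPolynomial.aeval t (MvPolynomial.monomial μ (1 : ℂ)) *
        algebraMap N L2 (τ (f, μ))) :
    ∀ c ∈ Rt T, algebraMap L2 K c ∈
      IntermediateField.adjoin (Rt τ) (Set.range fun i => algebraMap L2 K (t i)) := by
  obtain ⟨A, hA⟩ : ∃ A, A =
    IntermediateField.adjoin (Rt τ) (Set.range fun i => algebraMap L2 K (t i)) := ⟨_, rfl⟩
  rw [← hA]
  have hAC : ∀ c : ℂ, algebraMap ℂ K c ∈ A := by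
    intro c
    have h1 : algebraMap ℂ K c = algebraMap (Rt τ) K (algebraMap ℂ (Rt τ) c) := by
      rw [IsScalarTower.algebraMap_apply ℂ N K]
      rfl
    rw [h1]
    exact A.algebraMap_mem _
  have hAt : ∀ i, algebraMap L2 K (t i) ∈ A := fun i => by
    rw [hA]
    exact IntermediateField.subset_adjoin _ _ ⟨i, rfl⟩
  have hAp : ∀ G : MvPolynomial (Fin q) ℂ, algebraMap L2 K (MvPolynomial.aeval t G) ∈ A := by
    intro G
    induction G using MvPolynomial.induction_on with
    | C c =>
      rw [MvPolynomial.aeval_C, ← IsScalarTower.algebraMap_apply]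
      exact hAC c
    | add p q hp hq =>
      rw [map_add, map_add]
      exact A.add_mem hp hq
    | mul_X p i hp =>
      rw [map_mul, map_mul, MvPolynomial.aeval_X]
      exact A.mul_mem hp (hAt i)
  have hAr : ∀ a b, algebraMap N K (τ a / τ b) ∈ A := by
    intro a b
    exact A.algebraMap_mem (⟨_, ratio_mem τ a b⟩ : Rt τ)
  -- the normalised sums
  have hS : ∀ (b : ι × (Fin q →₀ ℕ)) f, algebraMap L2 K (T f) / algebraMap N K (τ b) ∈ A := by
    intro b f
    have h1 := congrArg (algebraMap L2 K) (hT f)
    rw [map_mul, map_sum] at h1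
    have h0 : algebraMap L2 K (MvPolynomial.aeval t (h f)) ≠ 0 := by
      rw [_root_.map_ne_zero]
      exact hh f
    have h2 : algebraMap L2 K (T f) / algebraMap N K (τ b) =
        (∑ μ ∈ Ts f, algebraMap L2 K (MvPolynomial.aeval t (MvPolynomial.monomial μ (1 : ℂ))) *
          algebraMap N K (τ (f, μ) / τ b)) / algebraMap L2 K (MvPolynomial.aeval t (h f)) := by
      rw [eq_div_iff h0, div_mul_eq_mul_div, h1, Finset.sum_div]
      refine Finset.sum_congr rfl fun μ _ => ?_
      rw [map_mul, map_div₀, ← IsScalarTower.algebraMap_apply N L2 K, mul_div_assoc]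
    rw [h2]
    refine A.div_mem ?_ (hAp _)
    exact A.sum_mem fun μ _ => A.mul_mem (hAp _) (hAr _ _)
  let S : IntermediateField ℂ L2 :=
    { A.toSubfield.comap (algebraMap L2 K) with
      algebraMap_mem' := fun c => by
        change algebraMap L2 K (algebraMap ℂ L2 c) ∈ A
        rw [← IsScalarTower.algebraMap_apply]
        exact hAC c }
  have hle : Rt T ≤ S := by
    unfold Rt
    rw [IntermediateField.adjoin_le_iff]
    rintro _ ⟨⟨f, g⟩, rfl⟩
    change algebraMap L2 K (T f / T g) ∈ A
    by_cases hg : T g = 0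
    · rw [hg, div_zero, map_zero]
      exact A.zero_mem
    have hex : ∃ b, τ b ≠ 0 := by
      by_contra hcon
      push Not at hcon
      have h1 := hT g
      rw [Finset.sum_eq_zero fun μ _ => by rw [hcon, map_zero, mul_zero], mul_eq_zero] at h1
      rcases h1 with h1 | h1
      · exact hg h1
      · exact hh g h1
    obtain ⟨b, hb⟩ := hex
    have hb' : algebraMap N K (τ b) ≠ 0 := by rwa [_root_.map_ne_zero]
    have h3 : algebraMap L2 K (T f / T g) = (algebraMap L2 K (T f) / algebraMap N K (τ b)) /
        (algebraMap L2 K (T g) / algebraMap N K (τ b)) := by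
      rw [map_div₀, div_div_div_cancel_right₀ hb']
    rw [h3]
    exact A.div_mem (hS b f) (hS b g)
  exact fun c hc => hle hc

end ratios

end Pool.Agent.L7h62.MM
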