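import Pool.Agent.L7h62.MM.Fin1
import Pool.Agent.L7h62.MM.Can

/-!
The Kodaira dimension of the base.
-/

set_option autoImplicit false
set_option linter.all false
set_option maxHeartbeats 4000000
set_option synthInstance.maxHeartbeats 400000

open Module FF
open Pool.Agent.W602.GT (DerReg Divisorial KodGe RegAt)
open Pool.Agent.N145.SX (HX SepX rel_one rel_two card_res)
open Pool.Agent.N145.PC (Rt ratio_mem res exists_pts alg_back trdeg_adj der_ratio der_alg2)
open Pool.Agent.N145.PL (kodGe_of_algL)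
open Pool.Agent.Y184.NT (trForm)
open Pool.Agent.R882.LT (SecAt)

namespace Pool.Agent.L7h62.MM

section algx

variable {R L2 E K : Type} [Field R] [Field L2] [Field E] [Field K] [Algebra ℂ R] [Algebra ℂ E]
  [Algebra ℂ K] [Algebra E K] [Algebra R K] [Algebra R L2] [Algebra L2 K] [IsScalarTower ℂ E K]
  [IsScalarTower ℂ R K] [IsScalarTower R L2 K]

theorem alg_x {n : ℕ} {x : Fin n → E} (hx : IsTranscendenceBasis ℂ x)
    (h : ∀ l, IsAlgebraic R (algebraMap E K (x l))) (e : E) : IsAlgebraic R (algebraMap E K e) := by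
  obtain ⟨B, hB⟩ : ∃ B, B = algebraicClosure R K := ⟨_, rfl⟩
  have h1 : ∀ c ∈ IntermediateField.adjoin ℂ (Set.range x), algebraMap E K c ∈ B := by
    let S : IntermediateField ℂ E :=
      { B.toSubfield.comap (algebraMap E K) with
        algebraMap_mem' := fun c => by
          change algebraMap E K (algebraMap ℂ E c) ∈ B
          rw [← IsScalarTower.algebraMap_apply ℂ E K, IsScalarTower.algebraMap_apply ℂ R K]
          exact B.algebraMap_mem _ }
    have h2 : IntermediateField.adjoin ℂ (Set.range x) ≤ S := by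
      rw [IntermediateField.adjoin_le_iff]
      rintro _ ⟨l, rfl⟩
      change algebraMap E K (x l) ∈ B
      rw [hB, mem_algebraicClosure_iff]
      exact h l
    exact fun c hc => h2 hc
  have h2 : IsAlgebraic B (algebraMap E K e) := by
    refine alg_tr (A := IntermediateField.adjoin ℂ (Set.range x)) (algebraMap E K)
      (fun c => ⟨⟨algebraMap E K c, h1 c c.2⟩, rfl⟩) ?_
    exact hx.isAlgebraic_field.isAlgebraic e
  subst hB
  exact h2.restrictScalars R

theorem alg_coeff [FiniteDimensional L2 K] {z : K} (hz : IsAlgebraic R z) (i : ℕ) :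
    IsAlgebraic R ((minpoly L2 z).coeff i) := by
  have hzi : IsIntegral R z := hz.isIntegral
  have h1 : minpoly L2 z ∣ (minpoly R z).map (algebraMap R L2) := minpoly.dvd_map_of_isScalarTower R L2 z
  have h2 := integralClosure.mem_lifts_of_monic_of_dvd_map L2 (minpoly.monic hzi)
    (minpoly.monic (Algebra.IsIntegral.isIntegral (R := L2) z)) h1
  rw [Polynomial.lifts_iff_coeff_lifts] at h2
  obtain ⟨c, hc⟩ := h2 i
  rw [← hc]
  exact c.2.isAlgebraic

end algx

section canfin

variable {L : Type} [Field L] [Algebra ℂ L] [Algebra.EssFiniteType ℂ L]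

theorem canFin_of_algL {n : ℕ} (hL : Algebra.trdeg ℂ L = n) {y : Fin n → L}
    {G : Fin n → Derivation ℂ L L}
    (hG : ∀ i j, G i (y j) = if i = j then 1 else 0) (hy : AlgebraicIndependent ℂ y) {ι : Type}
    (T : ι → L) (hT0 : ∃ f, T f ≠ 0)
    (hreg : ∀ f, ∀ P : Place ℂ L, Divisorial n P → RegAt P (trForm y (T f)))
    (halg : ∀ j, IsAlgebraic (Rt T) (y j)) : CanonicalMapFinite L n := by
  obtain ⟨s, hs0, hs⟩ := Pool.Agent.R882.LT.exists_ratios_d (d := n) hL (trdeg_adj hy) T hT0
    fun D h1 D' h2 j => der_alg2 (Rt T) D' (fun c hc => by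
      rw [h2, der_ratio T D h1 c hc, map_zero]) (halg j)
  have hθE : ∀ t, trForm y t G = t := by
    intro t
    have h1 : (Matrix.of fun i j => G i (y j) : Matrix (Fin n) (Fin n) L) = 1 := by
      ext i j
      rw [Matrix.of_apply, hG, Matrix.one_apply]
    rw [trForm, h1, Matrix.det_one, one_mul]
  refine ⟨hL, fun j => trForm y (T (s j)), fun l => Pool.Agent.Y184.NT.trForm_pluri y _,
    fun P hP l => hreg _ P hP, G, ?_, ?_⟩
  · change trForm y (T (s 0)) G ≠ 0
    rw [hθE]
    exact hs0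
  · simp only [hθE]
    exact hs

end canfin

section main3

variable {k F K₀ K L2 E N L : Type} [Field k] [CharZero k] [Field F] [Field K₀] [Field K]
  [Field L2] [Field E] [Field N] [Field L]
  [Algebra ℂ k] [Algebra ℂ F] [Algebra ℂ K₀] [Algebra ℂ L2] [Algebra ℂ K] [Algebra ℂ E]
  [Algebra ℂ N]
  [Algebra k F] [Algebra k K₀] [Algebra k L2] [Algebra k K] [Algebra F K₀]
  [Algebra F K] [Algebra K₀ K] [Algebra E K] [Algebra L2 K] [Algebra N L] [Algebra N L2]
  [Algebra N K] [Algebra L K]
  [IsScalarTower ℂ k K] [IsScalarTower ℂ F K₀] [IsScalarTower ℂ K₀ K]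
  [IsScalarTower ℂ k K₀] [IsScalarTower ℂ k L2]
  [IsScalarTower k F K₀] [IsScalarTower k F K] [IsScalarTower k K₀ K] [IsScalarTower F K₀ K]
  [IsScalarTower ℂ E K] [IsScalarTower k L2 K]
  [IsScalarTower ℂ L2 K] [IsScalarTower N L K] [IsScalarTower N L2 K] [IsScalarTower ℂ N L2]
  [IsScalarTower ℂ N K]
  [FiniteDimensional K₀ K] [FiniteDimensional L2 K] [FiniteDimensional L K]
  [Algebra.EssFiniteType ℂ E] [Algebra.EssFiniteType ℂ N] [Algebra.EssFiniteType k F]
  [Algebra.EssFiniteType k L2]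
  [Algebra.EssFiniteType k K₀] [Algebra.EssFiniteType k K] {n r q : ℕ}

open scoped Classical in
/-- **The Kodaira dimension of the base.** -/
theorem main3 (hE : Algebra.trdeg ℂ E = n) (hF : Algebra.trdeg k F = r)
    (hKK : Algebra.trdeg ℂ K = (q + (n + r) : ℕ)) (hNw : Algebra.trdeg ℂ N = (n + r : ℕ))
    {t : Fin q → L2} (ht : AlgebraicIndependent N t)
    (htop : IntermediateField.adjoin N (Set.range t) = ⊤) {tk : Fin q → k}
    (htk : ∀ i, algebraMap k L2 (tk i) = t i)
    (hktop : IntermediateField.adjoin ℂ (Set.range tk) = ⊤)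
    {x : Fin n → E} (hx : IsTranscendenceBasis ℂ x) {x0 : Fin n → K₀}
    (hx0 : ∀ l, algebraMap K₀ K (x0 l) = algebraMap E K (x l))
    (hxF : AlgebraicIndependent F x0)
    (htop0 : IntermediateField.adjoin F (Set.range x0) = ⊤)
    (hgen : IntermediateField.adjoin K₀ (Set.range (algebraMap E K)) = ⊤) 
    (hsep : SepHyp x K L2)
    (hp : ∀ e : E, ∃ p : Polynomial N, p.map (algebraMap N L) = minpoly L (algebraMap E K e))
    (hN : ∀ z : N, IsAlgebraic (IntermediateField.adjoin ℂ (coefs N L K E)) z) :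
    CanonicalMapFinite N (n + r) := by
  have hindk : AlgebraicIndependent ℂ tk := by
    have h1 : AlgebraicIndependent ℂ t := ht.restrictScalars (algebraMap ℂ N).injective
    have h2 : t = algebraMap k L2 ∘ tk := by
      funext i
      exact (htk i).symm
    rw [h2] at h1
    exact AlgebraicIndependent.of_comp (IsScalarTower.toAlgHom ℂ k L2) h1
  have hxK : AlgebraicIndependent ℂ fun l : Fin n => algebraMap E K (x l) :=
    hx.1.map' (f := IsScalarTower.toAlgHom ℂ E K) (algebraMap E K).injective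
  obtain ⟨M, hM⟩ : ∃ M, M = IntermediateField.adjoin L2 (Set.range (algebraMap E K)) := ⟨_, rfl⟩
  have hkM : IsScalarTower k M K := IsScalarTower.of_algebraMap_eq fun z => rfl
  let Ω := AlgebraicClosure L2
  have hT1 : IsScalarTower ℂ L2 Ω := inferInstance
  have hT2 : IsScalarTower k L2 Ω := inferInstance
  have hT3 : IsScalarTower ℂ k Ω := IsScalarTower.of_algebraMap_eq fun c => by
    rw [IsScalarTower.algebraMap_apply ℂ L2 Ω, IsScalarTower.algebraMap_apply k L2 Ω,
      ← IsScalarTower.algebraMap_apply ℂ k L2]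
  obtain ⟨CN⟩ := exists_crd' hNw
  obtain ⟨CZ, hCZ⟩ := crd_up ht htop htk hktop CN
  obtain ⟨CF⟩ := exists_crd' hF
  obtain ⟨φ, hφ, htr⟩ := main2 (Ω := Ω) hE hindk hKK M hM CZ CF hx hx0 hxF htop0 hgen hsep.one
    (fun D hD => desc_H ht htop (fun i => ⟨tk i, htk i⟩) hp hN hx D hD)
  obtain ⟨xK, hxKd⟩ : ∃ xK : Fin n → K, xK = fun l => algebraMap E K (x l) := ⟨_, rfl⟩
  rw [← hxKd] at htr
  obtain ⟨h, hh⟩ : ∃ h : K, h = wdg CF (1 : K) xK φ
    fun i => (CZ.up K).E (finSumFinEquiv i) := ⟨_, rfl⟩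
  rw [← hh] at htr
  have hkK : Algebra.trdeg k K = (n + r : ℕ) := by
    rw [(CZ.up K).trdeg, Fintype.card_fin]
  -- the traces
  let I := {f : E // f ∈ HX x (fun _ => False)}
  obtain ⟨T, hT⟩ : ∃ T : I → L2, ∀ f, T f =
    Algebra.trace L2 K (h * algebraMap E K f.1) := ⟨_, fun _ => rfl⟩
  obtain ⟨Θ, hΘ⟩ : ∃ Θ : I → Frm k L2 (Fin (n + r)), ∀ f, Θ f =
    (trF CZ (wdg CF (algebraMap E K f.1) xK φ)).domDomCongr finSumFinEquiv := ⟨_, fun _ => rfl⟩
  have hΘreg : ∀ f, ∀ P : Place k L2, Divisorial (n + r) P → RegF (Θ f) P := by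
    intro f P hP
    rw [hΘ]
    refine regF_dom _ (trF_reg CZ (by rwa [Fintype.card_fin]) fun Q e hQ => ?_)
    rw [hxKd]
    exact wreg hE hindk hkK hKK CF hφ hx f.2 Q (Pool.Agent.Y172.divisorial_up hQ hP)
  have hΘT : ∀ f, Θ f (fun i => CZ.E (id i)) = T f := by
    intro f
    rw [hΘ, AlternatingMap.domDomCongr_apply, hT]
    change trF CZ (wdg CF (algebraMap E K f.1) xK φ) (fun i => CZ.E (finSumFinEquiv i)) = _
    rw [trF_apply CZ (wdg CF (algebraMap E K f.1) xK φ)
      (D' := fun i => (CZ.up K).E (finSumFinEquiv i)) fun i f => CZ.up_E _ f]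
    congr 1
    have h4 : wdg CF (algebraMap E K f.1) xK φ = algebraMap E K f.1 • wdg CF (1 : K) xK φ := by
      rw [← wdg_smul, mul_one]
    rw [h4, AlternatingMap.smul_apply, smul_eq_mul, ← hh]
    ring
  choose hpol hpol0 Ts Φ hΦ hJ using fun f : I => low ht htop htk hktop CN CZ hCZ (hΘreg f)
  have hindt : AlgebraicIndependent ℂ t := ht.restrictScalars (algebraMap ℂ N).injective
  have hpol0' : ∀ f, MvPolynomial.aeval t (hpol f) ≠ 0 := fun f => ael_ne hindt (hpol0 f)
  obtain ⟨τ, hτ⟩ : ∃ τ : I × (Fin q →₀ ℕ) → N, ∀ p, τ p = Φ p.1 p.2 fun i => CN.E (id i) :=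
    ⟨_, fun _ => rfl⟩
  have hTτ : ∀ f, T f * MvPolynomial.aeval t (hpol f) =
      ∑ μ ∈ Ts f, MvPolynomial.aeval t (MvPolynomial.monomial μ (1 : ℂ)) *
        algebraMap N L2 (τ (f, μ)) := by
    intro f
    have h1 := hJ f id
    rw [hΘT] at h1
    rw [h1]
    refine Finset.sum_congr rfl fun μ _ => ?_
    rw [hτ]
  -- the points
  obtain ⟨τ0⟩ : Nonempty (K →ₐ[L2] AlgebraicClosure L2) :=
    ⟨IsAlgClosed.lift (R := L2) (M := AlgebraicClosure L2) (S := K)⟩
  have htrM : Algebra.trace (IntermediateField.adjoin L2 (Set.range (algebraMap E K))) K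
      h ≠ 0 := by
    rw [← hM]
    exact htr
  have hT0 : ∃ p, T p ≠ 0 := by
    by_contra h0
    push Not at h0
    exact htrM (relA_one hsep (h := h) (fun f hf => by
      have h1 := h0 ⟨f, hf⟩
      rw [hT] at h1
      exact h1))
  obtain ⟨p1, hp1⟩ := hT0
  obtain ⟨Ω', iF, iA, iC, i1, i2, lam, hlam, hlamT, hpts⟩ := exists_pts T (f1 := p1) hp1
  have hpt : ∀ l, IsAlgebraic (Rt T) (algebraMap E K (x l)) := by
    rcases relA_two hsep (h := h) hlam (fun f hf => by
        have h1 := hlamT ⟨f, hf⟩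
        rw [hT] at h1
        exact h1) τ0 with ⟨τ', hτ'⟩ | h2
    · intro l
      exact alg_back τ0 (hpts _ _ (hτ' (x l)).symm)
    · exact absurd h2 htrM
  -- the elements of `E`
  have hE1 : ∀ e : E, IsAlgebraic (Rt T) (algebraMap E K e) := by
    intro e
    refine alg_x (R := Rt T) hx hpt e
  -- the coefficients of the minimal polynomials
  have hco : ∀ (e : E) (i : ℕ), IsAlgebraic (Rt T) ((minpoly L2 (algebraMap E K e)).coeff i) := by
    intro e i
    exact alg_coeff (hE1 e) i
  -- the elements of `N`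
  have hNT : ∀ z : N, IsAlgebraic (Rt T) (algebraMap N L2 z) := by
    intro z
    obtain ⟨B0, hB0⟩ : ∃ B0, B0 = IntermediateField.adjoin ℂ (coefs N L K E) := ⟨_, rfl⟩
    have h3 : ∀ c ∈ B0, IsAlgebraic (Rt T) (algebraMap N L2 c) := by
      let S : IntermediateField ℂ N :=
        { (algebraicClosure (Rt T) L2).toSubfield.comap (algebraMap N L2) with
          algebraMap_mem' := fun c => by
            change algebraMap N L2 (algebraMap ℂ N c) ∈ algebraicClosure (Rt T) L2
            rw [← IsScalarTower.algebraMap_apply ℂ N L2,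
              IsScalarTower.algebraMap_apply ℂ (Rt T) L2]
            exact (algebraicClosure (Rt T) L2).algebraMap_mem _ }
      have h4 : IntermediateField.adjoin ℂ (coefs N L K E) ≤ S := by
        rw [IntermediateField.adjoin_le_iff]
        rintro c ⟨e, i, hc⟩
        change algebraMap N L2 c ∈ algebraicClosure (Rt T) L2
        rw [mem_algebraicClosure_iff]
        obtain ⟨p, hpe⟩ := hp e
        have h5 : c = p.coeff i := by
          apply (algebraMap N L).injective
          rw [hc, ← hpe, Polynomial.coeff_map]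
        have h6 := hco e i
        rw [minpoly_L2 ht htop hpe, Polynomial.coeff_map] at h6
        rw [h5]
        exact h6
      intro c hc
      rw [hB0] at hc
      have h5 : algebraMap N L2 c ∈ algebraicClosure (Rt T) L2 := h4 hc
      rwa [mem_algebraicClosure_iff] at h5
    have h5 := hN z
    rw [← hB0] at h5
    have h6 : IsAlgebraic (algebraicClosure (Rt T) L2) (algebraMap N L2 z) := by
      refine alg_tr (A := B0) (B := N) (A' := algebraicClosure (Rt T) L2) (algebraMap N L2)
        (fun c => ⟨⟨algebraMap N L2 c, mem_algebraicClosure_iff.2 (h3 c c.2)⟩, rfl⟩) h5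
    have h7 : Algebra.IsAlgebraic (Rt T) (algebraicClosure (Rt T) L2) := inferInstance
    exact h6.restrictScalars (Rt T)
  -- descent
  have hmem := ratio_desc (K := K) T hpol hpol0' Ts τ hTτ
  have htK : AlgebraicIndependent N fun i => algebraMap L2 K (t i) :=
    ht.map' (f := IsScalarTower.toAlgHom N L2 K) (algebraMap L2 K).injective
  have hRK : IsScalarTower (Rt τ) N K := IsScalarTower.of_algebraMap_eq fun _ => rfl
  have halg : ∀ z : N, IsAlgebraic (Rt τ) z := by
    intro z
    have h1 : IsAlgebraic (Rt τ) (algebraMap N K z) := by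
      refine alg_desc (R := Rt τ) htK (isAlgebraic_algebraMap z) ?_
      rw [IsScalarTower.algebraMap_apply N L2 K]
      exact alg_tr (A := Rt T) (B := L2) (algebraMap L2 K)
        (fun c => ⟨⟨algebraMap L2 K c, hmem c c.2⟩, rfl⟩) (hNT z)
    exact (isAlgebraic_algebraMap_iff (algebraMap N K).injective).1 h1
  have hτ0 : ∃ p, τ p ≠ 0 := by
    by_contra hcon
    push Not at hcon
    have h1 := hTτ p1
    rw [Finset.sum_eq_zero fun μ _ => by rw [hcon, map_zero, mul_zero], mul_eq_zero] at h1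
    rcases h1 with h1 | h1
    · exact hp1 h1
    · exact hpol0' p1 h1
  refine canFin_of_algL hNw (y := CN.z) (G := CN.E) CN.dual CN.bas.1 τ hτ0 ?_
    (fun l => halg (CN.z l))
  · intro p P hP
    have hval : ∀ D : Fin (n + r) → Derivation ℂ N N, trForm CN.z (τ p) D = Φ p.1 p.2 D := by
      intro D
      rw [top_val (Φ p.1 p.2) (Matrix.of fun i c => D i (CN.z c)) CN.E D
        (fun i => (expandD CN (D i)).symm), hτ]
      rfl
    have hP' : Divisorial (Fintype.card (Fin (n + r))) P := by rwa [Fintype.card_fin]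
    intro D hD
    rw [hval]
    exact hΦ p.1 p.2 P hP' D hD

end main3

end Pool.Agent.L7h62.MM
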