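import Pool.Agent.L7h62.MM.Fin2
import Pool.Agent.N999.SX.FG

/-!
Auxiliary fields.
-/

set_option autoImplicit false
set_option linter.all false

open Module

namespace Pool.Agent.L7h62.MM

section

theorem fin_of_alg {A B : Type} [Field A] [Field B] [Algebra A B] [Algebra.EssFiniteType A B]
    (h : ∀ z : B, IsAlgebraic A z) : FiniteDimensional A B := by
  have h1 : (⊤ : IntermediateField A B).FG := IntermediateField.fg_top A B
  obtain ⟨S, hS⟩ := h1
  have h2 : FiniteDimensional A (IntermediateField.adjoin A (S : Set B)) :=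
    IntermediateField.finiteDimensional_adjoin fun x _ => (h x).isIntegral
  rw [hS] at h2
  exact Module.Finite.equiv (IntermediateField.topEquiv (F := A) (E := B)).toLinearEquiv

/-- the algebraic closure of a subfield -/
theorem exists_N {L : Type} [Field L] [Algebra ℂ L] (S : Set L) :
    ∃ N : IntermediateField ℂ L, S ⊆ N ∧ (∀ z : L, IsAlgebraic N z → z ∈ N) ∧
      ∀ z : N, IsAlgebraic (IntermediateField.adjoin ℂ {c : N | (c : L) ∈ S}) z := by
  obtain ⟨B0, hB0⟩ : ∃ B0, B0 = IntermediateField.adjoin ℂ S := ⟨_, rfl⟩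
  let N : IntermediateField ℂ L := (algebraicClosure B0 L).restrictScalars ℂ
  have hmem : ∀ z : L, z ∈ N ↔ IsAlgebraic B0 z := fun z => mem_algebraicClosure_iff
  have hSN : S ⊆ N := by
    intro z hz
    change z ∈ N
    rw [hmem]
    have hz' : z ∈ B0 := by
      rw [hB0]
      exact IntermediateField.subset_adjoin _ _ hz
    exact isAlgebraic_algebraMap (⟨z, hz'⟩ : B0)
  refine ⟨N, hSN, ?_, ?_⟩
  · intro z hz
    rw [hmem]
    have h1 : IsAlgebraic (algebraicClosure B0 L) z :=
      alg_tr (A := N) (B := L) (RingHom.id L) (fun a => ⟨⟨a, a.2⟩, rfl⟩) hz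
    exact h1.restrictScalars B0
  · intro z
    obtain ⟨B1, hB1⟩ : ∃ B1, B1 = IntermediateField.adjoin ℂ {c : N | (c : L) ∈ S} := ⟨_, rfl⟩
    rw [← hB1]
    have hle : B0 ≤ B1.map N.val := by
      rw [hB0, IntermediateField.adjoin_le_iff]
      intro y hy
      refine ⟨⟨y, hSN hy⟩, ?_, rfl⟩
      change (⟨y, hSN hy⟩ : N) ∈ B1
      rw [hB1]
      exact IntermediateField.subset_adjoin _ _ hy
    have h1 : IsAlgebraic B0 (z : L) := (hmem z).1 z.2
    have h2 : IsAlgebraic B1 (z : L) := by
      refine alg_tr (A := B0) (B := L) (RingHom.id L) (fun a => ?_) h1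
      obtain ⟨b, hb, hb'⟩ := hle a.2
      exact ⟨⟨b, hb⟩, hb'⟩
    obtain ⟨P, hP0, hP⟩ := h2
    refine ⟨P, hP0, ?_⟩
    apply Subtype.ext
    have h3 := Polynomial.hom_eval₂ P (algebraMap B1 N) (algebraMap N L) z
    refine Eq.trans h3 ?_
    exact hP

/-- a transcendence basis in a generating set -/
theorem exists_t {N K : Type} [Field N] [Field K] [Algebra N K] {S : Set K} {q : ℕ}
    (h : ∀ z : K, IsAlgebraic (IntermediateField.adjoin N S) z) (hq : Algebra.trdeg N K = q) :
    ∃ t : Fin q → K, (∀ i, t i ∈ S) ∧ IsTranscendenceBasis N t := by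
  have h1 : Algebra.IsAlgebraic (Algebra.adjoin N S) K := Pool.Agent.W619.PQ.alg_adjoin h
  obtain ⟨T, hTS, hT⟩ := exists_isTranscendenceBasis_subset (R := N) S
  have h2 := hT.cardinalMk_eq_trdeg
  rw [hq, ← Cardinal.mk_fin, Cardinal.eq] at h2
  obtain ⟨e⟩ := h2
  refine ⟨fun i => (e.symm i : K), fun i => hTS (e.symm i).2, ?_⟩
  exact (isTranscendenceBasis_equiv e.symm).2 hT

/-- generators of a field, as elements of the field -/
theorem adjoin_top {k K : Type} [Field k] [Field K] [Algebra k K] {q : ℕ} {t : Fin q → K}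
    {A : IntermediateField k K} (hA : A = IntermediateField.adjoin k (Set.range t))
    (hmem : ∀ i, t i ∈ A) :
    IntermediateField.adjoin k (Set.range fun i => (⟨t i, hmem i⟩ : A)) = ⊤ := by
  apply IntermediateField.map_injective A.val
  rw [IntermediateField.adjoin_map, ← AlgHom.fieldRange_eq_map, IntermediateField.fieldRange_val,
    ← Set.range_comp]
  exact hA.symm

end

end Pool.Agent.L7h62.MM
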