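import Pool.Agent.L7h62.MM.Fin2
import Pool.Agent.L7h62.MM.Deg

/-!
Varieties dominated by products.
-/

set_option autoImplicit false
set_option linter.all false
set_option maxHeartbeats 4000000
set_option synthInstance.maxHeartbeats 400000

open Module FF
open Pool.Agent.W602.GT (DerReg Divisorial KodGe)
open Pool.Agent.N145.SX (HX SepX)

namespace Pool.Agent.L7h62.MM

/-- **Varieties dominated by products.** -/
theorem dominated {K : Type} [Field K] [Algebra ℂ K] [hess : Algebra.EssFiniteType ℂ K] {n s : ℕ}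
    {E F : IntermediateField ℂ K} (hsup : E ⊔ F = ⊤) (hE : Algebra.trdeg ℂ E = n)
    (hF : Algebra.trdeg ℂ F = s) (hK : Algebra.trdeg ℂ K = (n + s : ℕ)) {x : Fin n → E}
    (hx : IsTranscendenceBasis ℂ x) 
    {L : Type} [Field L] [Algebra ℂ L] [Algebra L K] [IsScalarTower ℂ L K]
    [FiniteDimensional L K]
    (hS : ∀ (L2 : Type) [Field L2] [Algebra ℂ L2] [Algebra L2 K] [IsScalarTower ℂ L2 K]
      [FiniteDimensional L2 K], (∀ S1 S2 : Set K, S1 ⊆ E → S2 ⊆ E →
        finrank (IntermediateField.adjoin L2 S1) (IntermediateField.adjoin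
          (IntermediateField.adjoin L2 S1 : IntermediateField L2 K) S2) =
        finrank (IntermediateField.adjoin L S1) (IntermediateField.adjoin
          (IntermediateField.adjoin L S1 : IntermediateField L K) S2)) → SepHyp x K L2) :
    ∃ (N : IntermediateField ℂ L) (w : ℕ), (∀ z : L, IsAlgebraic N z → z ∈ N) ∧
      Algebra.trdeg ℂ N = w ∧ n ≤ w ∧ w ≤ n + s ∧ (∀ z ∈ E, IsAlgebraic N z) ∧
      CanonicalMapFinite N w ∧ ∀ N' : IntermediateField ℂ L,
        (∀ z : L, IsAlgebraic N' z → z ∈ N') → (∀ z ∈ E, IsAlgebraic N' z) → N ≤ N' := by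
  classical
  obtain ⟨N, hSN, hNcl, hNalg⟩ := exists_N (L := L)
    {c : L | ∃ (e : E) (i : ℕ), c = (minpoly L (algebraMap E K e)).coeff i}
  have hp : ∀ e : E, ∃ p : Polynomial N, p.map (algebraMap N L) =
      minpoly L (algebraMap E K e) := by
    intro e
    have h1 : minpoly L (algebraMap E K e) ∈ Polynomial.lifts (algebraMap N L) := by
      rw [Polynomial.lifts_iff_coeff_lifts]
      intro i
      exact ⟨⟨_, hSN ⟨e, i, rfl⟩⟩, rfl⟩
    obtain ⟨p, hp⟩ := (Polynomial.mem_lifts _).1 h1
    exact ⟨p, hp⟩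
  have iNLK : IsScalarTower N L K := IsScalarTower.of_algebraMap_eq fun _ => rfl
  have iCNK : IsScalarTower ℂ N K := IsScalarTower.of_algebraMap_eq fun c =>
    IsScalarTower.algebraMap_apply ℂ L K c
  have hEN : ∀ z ∈ E, IsAlgebraic N z := by
    intro z hz
    obtain ⟨p, hp⟩ := hp ⟨z, hz⟩
    exact (minpoly_N hp).2.isAlgebraic
  have hNmin : ∀ N' : IntermediateField ℂ L,
      (∀ z : L, IsAlgebraic N' z → z ∈ N') → (∀ z ∈ E, IsAlgebraic N' z) → N ≤ N' := by
    intro N' hcl' hE'
    have j1 : IsScalarTower N' L K := IsScalarTower.of_algebraMap_eq fun _ => rfl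
    have hS : ∀ c : L, (∃ (e : E) (i : ℕ), c = (minpoly L (algebraMap E K e)).coeff i) →
        c ∈ N' := by
      rintro c ⟨e, i, rfl⟩
      exact hcl' _ (alg_coeff (hE' _ e.2) i)
    have h1 : IntermediateField.adjoin ℂ {c : N | (c : L) ∈ {c : L | ∃ (e : E) (i : ℕ),
        c = (minpoly L (algebraMap E K e)).coeff i}} ≤ N'.comap N.val := by
      rw [IntermediateField.adjoin_le_iff]
      intro c hc
      exact hS _ hc
    intro z hz
    apply hcl'
    have h2 := hNalg ⟨z, hz⟩
    exact alg_tr (A := IntermediateField.adjoin ℂ {c : N | (c : L) ∈ {c : L | ∃ (e : E) (i : ℕ),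
        c = (minpoly L (algebraMap E K e)).coeff i}}) (B := N) (algebraMap N L)
        (fun a => ⟨⟨((a : N) : L), h1 a.2⟩, rfl⟩) h2
  -- transcendence degrees
  have e1 : Algebra.trdeg ℂ N + Algebra.trdeg N K = Algebra.trdeg ℂ K :=
    _root_.trdeg_add_eq ℂ N (A := K)
  have hlt1 : Algebra.trdeg ℂ N < Cardinal.aleph0 := by
    refine lt_of_le_of_lt ?_ (Cardinal.natCast_lt_aleph0 (n := n + s))
    rw [← hK, ← e1]
    exact self_le_add_right _ _
  have hlt2 : Algebra.trdeg N K < Cardinal.aleph0 := by
    refine lt_of_le_of_lt ?_ (Cardinal.natCast_lt_aleph0 (n := n + s))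
    rw [← hK, ← e1]
    exact self_le_add_left _ _
  obtain ⟨w, hw⟩ := Cardinal.lt_aleph0.1 hlt1
  obtain ⟨q, hq⟩ := Cardinal.lt_aleph0.1 hlt2
  have hwq : w + q = n + s := by
    rw [hw, hq, hK] at e1
    exact_mod_cast e1
  -- `n ≤ w`
  have hxK : AlgebraicIndependent ℂ fun l : Fin n => algebraMap E K (x l) :=
    hx.1.map' (f := IsScalarTower.toAlgHom ℂ E K) (algebraMap E K).injective
  have hnw : n ≤ w := by
    have i1 : IsScalarTower ℂ N (algebraicClosure N K) :=
      IsScalarTower.of_algebraMap_eq fun c => by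
        apply Subtype.ext
        exact IsScalarTower.algebraMap_apply ℂ N K c
    have h1 : Algebra.trdeg ℂ N + Algebra.trdeg N (algebraicClosure N K) =
        Algebra.trdeg ℂ (algebraicClosure N K) :=
      _root_.trdeg_add_eq ℂ N (A := algebraicClosure N K)
    have h0 : Algebra.trdeg N (algebraicClosure N K) = 0 := trdeg_eq_zero
    rw [h0, add_zero, hw] at h1
    have h2 : AlgebraicIndependent ℂ fun l : Fin n =>
        (⟨algebraMap E K (x l), mem_algebraicClosure_iff.2 (hEN _ (x l).2)⟩ :
          algebraicClosure N K) :=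
      AlgebraicIndependent.of_comp ((algebraicClosure N K).val.restrictScalars ℂ) hxK
    have h3 := h2.cardinalMk_le_trdeg
    rw [← h1, Cardinal.mk_fin] at h3
    exact_mod_cast h3
  obtain ⟨r, rfl⟩ := Nat.exists_eq_add_of_le hnw
  refine ⟨N, n + r, hNcl, hw, hnw, by omega, hEN, ?_, hNmin⟩
  -- the constants
  have halgK : ∀ z : K, IsAlgebraic (IntermediateField.adjoin N (F : Set K)) z := by
    obtain ⟨A1, hA1⟩ : ∃ A1, A1 = IntermediateField.adjoin N (F : Set K) := ⟨_, rfl⟩
    rw [← hA1]
    let S : IntermediateField ℂ K :=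
      { (algebraicClosure A1 K).toSubfield with
        algebraMap_mem' := fun c => by
          change algebraMap ℂ K c ∈ algebraicClosure A1 K
          rw [IsScalarTower.algebraMap_apply ℂ N K]
          exact (algebraicClosure A1 K).algebraMap_mem
            (⟨algebraMap N K (algebraMap ℂ N c), A1.algebraMap_mem _⟩ : A1) }
    have h1 : E ⊔ F ≤ S := by
      refine sup_le ?_ ?_
      · intro z hz
        change z ∈ algebraicClosure A1 K
        rw [mem_algebraicClosure_iff]
        exact (hEN z hz).tower_top A1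
      · intro z hz
        change z ∈ algebraicClosure A1 K
        have hz' : z ∈ A1 := by
          rw [hA1]
          exact IntermediateField.subset_adjoin _ _ hz
        exact (algebraicClosure A1 K).algebraMap_mem (⟨z, hz'⟩ : A1)
    rw [hsup] at h1
    intro z
    exact mem_algebraicClosure_iff.1 (h1 (IntermediateField.mem_top (x := z)))
  obtain ⟨t0, ht0F, ht0⟩ := exists_t halgK hq
  obtain ⟨k, hk⟩ : ∃ k, k = IntermediateField.adjoin ℂ (Set.range t0) := ⟨_, rfl⟩
  have htk0 : ∀ i, t0 i ∈ k := fun i => by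
    rw [hk]
    exact IntermediateField.subset_adjoin _ _ ⟨i, rfl⟩
  have hkF : k ≤ F := by
    rw [hk, IntermediateField.adjoin_le_iff]
    rintro _ ⟨i, rfl⟩
    exact ht0F i
  have hktop := adjoin_top hk htk0
  obtain ⟨F', hF'⟩ : ∃ F', F' = IntermediateField.extendScalars hkF := ⟨_, rfl⟩
  have hmemF : ∀ z, z ∈ F' ↔ z ∈ F := by
    intro z
    rw [hF']
    exact IntermediateField.mem_extendScalars hkF
  obtain ⟨L2, hL2⟩ : ∃ L2, L2 = IntermediateField.adjoin k (Set.range (algebraMap N K)) := ⟨_, rfl⟩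
  have hNL2 : ∀ a : N, algebraMap N K a ∈ L2 := fun a => by
    rw [hL2]
    exact IntermediateField.subset_adjoin _ _ ⟨a, rfl⟩
  obtain ⟨K₀, hK₀⟩ : ∃ K₀, K₀ = IntermediateField.adjoin F'
    (Set.range fun l : Fin n => algebraMap E K (x l)) := ⟨_, rfl⟩
  have hxK₀ : ∀ l, algebraMap E K (x l) ∈ K₀ := fun l => by
    rw [hK₀]
    exact IntermediateField.subset_adjoin _ _ ⟨l, rfl⟩
  letI iNL2 : Algebra N L2 :=
    ((algebraMap N K).codRestrict L2.toSubfield.toSubring hNL2).toAlgebra
  have iNL2K : IsScalarTower N L2 K := IsScalarTower.of_algebraMap_eq fun _ => rfl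
  have iCNL2 : IsScalarTower ℂ N L2 := IsScalarTower.of_algebraMap_eq fun c => by
    apply Subtype.ext
    exact IsScalarTower.algebraMap_apply ℂ N K c
  have iCkK : IsScalarTower ℂ k K := inferInstance
  have iCL2K : IsScalarTower ℂ L2 K := IsScalarTower.of_algebraMap_eq fun _ => rfl
  have iCkL2 : IsScalarTower ℂ k L2 := IsScalarTower.of_algebraMap_eq fun _ => rfl
  have ikL2K : IsScalarTower k L2 K := IsScalarTower.of_algebraMap_eq fun _ => rfl
  have ikF'K : IsScalarTower k F' K := IsScalarTower.of_algebraMap_eq fun _ => rfl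
  have iCF'K : IsScalarTower ℂ F' K := IsScalarTower.of_algebraMap_eq fun _ => rfl
  have iCkF' : IsScalarTower ℂ k F' := IsScalarTower.of_algebraMap_eq fun _ => rfl
  have iF'K₀K : IsScalarTower F' K₀ K := IsScalarTower.of_algebraMap_eq fun _ => rfl
  have iCF'K₀ : IsScalarTower ℂ F' K₀ := IsScalarTower.of_algebraMap_eq fun _ => rfl
  have iCK₀K : IsScalarTower ℂ K₀ K := IsScalarTower.of_algebraMap_eq fun _ => rfl
  have ikF'K₀ : IsScalarTower k F' K₀ := IsScalarTower.of_algebraMap_eq fun _ => rfl
  have ikK₀K : IsScalarTower k K₀ K := IsScalarTower.of_algebraMap_eq fun _ => rfl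
  have iCkK₀ : IsScalarTower ℂ k K₀ := IsScalarTower.of_algebraMap_eq fun _ => rfl
  have hck : CharZero k := charZero_of_injective_algebraMap (algebraMap ℂ k).injective
  -- finite generation
  have f1 : Algebra.EssFiniteType ℂ L := Pool.Agent.TH466.QG.ess_below (K := K)
  have f2 : Algebra.EssFiniteType ℂ N := Pool.Agent.N999.SX.ess_any N
  have f3 : Algebra.EssFiniteType ℂ E := Pool.Agent.N999.SX.ess_any E
  have f4 : Algebra.EssFiniteType k K := Algebra.EssFiniteType.of_comp ℂ k K
  have f5 : Algebra.EssFiniteType k F' := Pool.Agent.N999.SX.ess_any F'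
  have f6 : Algebra.EssFiniteType k L2 := Pool.Agent.N999.SX.ess_any L2
  have f7 : Algebra.EssFiniteType F' K := Algebra.EssFiniteType.of_comp k F' K
  have f8 : Algebra.EssFiniteType F' K₀ := Pool.Agent.N999.SX.ess_any K₀
  have f9 : Algebra.EssFiniteType k K₀ := Algebra.EssFiniteType.comp k F' K₀
  have f10 : Algebra.EssFiniteType K₀ K := Algebra.EssFiniteType.of_comp k K₀ K
  have f11 : Algebra.EssFiniteType L2 K := Algebra.EssFiniteType.of_comp k L2 K
  -- `K` is algebraic over `K₀`
  have hK₀alg : ∀ z : K, IsAlgebraic K₀ z := by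
    let S : IntermediateField ℂ K :=
      { (algebraicClosure K₀ K).toSubfield with
        algebraMap_mem' := fun c => by
          change algebraMap ℂ K c ∈ algebraicClosure K₀ K
          rw [IsScalarTower.algebraMap_apply ℂ K₀ K]
          exact (algebraicClosure K₀ K).algebraMap_mem _ }
    have h1 : E ⊔ F ≤ S := by
      refine sup_le ?_ ?_
      · intro z hz
        change z ∈ algebraicClosure K₀ K
        rw [mem_algebraicClosure_iff]
        have h2 : IsAlgebraic (IntermediateField.adjoin ℂ (Set.range x)) (⟨z, hz⟩ : E) :=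
          hx.isAlgebraic_field.isAlgebraic _
        refine alg_tr (algebraMap E K) (fun a => ?_) h2
        have h3 : IntermediateField.adjoin ℂ (Set.range x) ≤
            { K₀.toSubfield.comap (algebraMap E K) with
              algebraMap_mem' := fun c => by
                change algebraMap E K (algebraMap ℂ E c) ∈ K₀
                rw [← IsScalarTower.algebraMap_apply ℂ E K, IsScalarTower.algebraMap_apply ℂ K₀ K]
                exact (algebraMap ℂ K₀ c).2 } := by
          rw [IntermediateField.adjoin_le_iff]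
          rintro _ ⟨l, rfl⟩
          exact hxK₀ l
        exact ⟨⟨algebraMap E K a, h3 a.2⟩, rfl⟩
      · intro z hz
        change z ∈ algebraicClosure K₀ K
        rw [mem_algebraicClosure_iff]
        exact (isAlgebraic_algebraMap (A := K) (⟨z, (hmemF z).2 hz⟩ : F')).tower_top K₀
    rw [hsup] at h1
    intro z
    exact mem_algebraicClosure_iff.1 (h1 (IntermediateField.mem_top (x := z)))
  have g1 : FiniteDimensional K₀ K := fin_of_alg hK₀alg
  -- `K` is algebraic over `L2`
  have hL2alg : ∀ z : K, IsAlgebraic L2 z := by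
    intro z
    have h1 := ht0.isAlgebraic_field.isAlgebraic z
    refine alg_tr (A := IntermediateField.adjoin N (Set.range t0)) (B := K) (RingHom.id K)
      (fun a => ?_) h1
    have h3 : IntermediateField.adjoin N (Set.range t0) ≤
        { L2.toSubfield with algebraMap_mem' := fun c => hNL2 c } := by
      rw [IntermediateField.adjoin_le_iff]
      rintro _ ⟨i, rfl⟩
      exact L2.algebraMap_mem (⟨t0 i, htk0 i⟩ : k)
    exact ⟨⟨a, h3 a.2⟩, rfl⟩
  have g2 : FiniteDimensional L2 K := fin_of_alg hL2alg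
  -- more transcendence degrees
  have e2 : Algebra.trdeg ℂ k = (q : ℕ) := by
    have h1 : AlgebraicIndependent ℂ t0 := ht0.1.restrictScalars (algebraMap ℂ N).injective
    have h2 : AlgebraicIndependent ℂ fun i => (⟨t0 i, htk0 i⟩ : k) :=
      AlgebraicIndependent.of_comp k.val h1
    rw [← (basis_of_top h2 hktop).cardinalMk_eq_trdeg, Cardinal.mk_fin]
  have e3 : Algebra.trdeg ℂ F' = (s : ℕ) := by
    let e : F ≃ₐ[ℂ] F' :=
      { toFun := fun z => ⟨z, (hmemF z).2 z.2⟩
        invFun := fun z => ⟨z, (hmemF z).1 z.2⟩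
        left_inv := fun _ => rfl
        right_inv := fun _ => rfl
        map_mul' := fun _ _ => rfl
        map_add' := fun _ _ => rfl
        commutes' := fun _ => rfl }
    rw [← e.trdeg_eq, hF]
  have e4 : Algebra.trdeg k F' = (r : ℕ) := by
    have h1 : Algebra.trdeg ℂ k + Algebra.trdeg k F' = Algebra.trdeg ℂ F' :=
      _root_.trdeg_add_eq ℂ k (A := F')
    have h2 : s = q + r := by omega
    rw [e2, e3, h2] at h1
    push_cast at h1
    rw [add_comm, add_comm (q : Cardinal)] at h1
    exact (Cardinal.add_right_inj_of_lt_aleph0 Cardinal.natCast_lt_aleph0).1 h1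
  have e5 : Algebra.trdeg F' K = (n : ℕ) := by
    have h1 : Algebra.trdeg ℂ F' + Algebra.trdeg F' K = Algebra.trdeg ℂ K :=
      _root_.trdeg_add_eq ℂ F' (A := K)
    rw [e3, hK] at h1
    push_cast at h1
    rw [add_comm] at h1
    exact (Cardinal.add_right_inj_of_lt_aleph0 Cardinal.natCast_lt_aleph0).1 h1
  have e6 : Algebra.trdeg ℂ K = (q + (n + r) : ℕ) := by
    rw [hK]
    congr 1
    omega
  have e7 : Algebra.trdeg ℂ N = (n + r : ℕ) := hw
  -- `x` is independent over `F'`
  have hxF : AlgebraicIndependent F' fun l : Fin n => algebraMap E K (x l) := by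
    have h1 : Algebra.IsAlgebraic (Algebra.adjoin F'
        (Set.range fun l : Fin n => algebraMap E K (x l))) K := by
      refine Pool.Agent.W619.PQ.alg_adjoin fun z => ?_
      rw [← hK₀]
      exact hK₀alg z
    exact (Algebra.IsAlgebraic.isTranscendenceBasis_of_le_trdeg_of_finite F'
      (fun l : Fin n => algebraMap E K (x l)) (by rw [e5, Cardinal.mk_fin])).1
  have hxF0 : AlgebraicIndependent F' fun l : Fin n => (⟨algebraMap E K (x l), hxK₀ l⟩ : K₀) :=
    AlgebraicIndependent.of_comp K₀.val hxF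
  have htop0 := adjoin_top hK₀ hxK₀
  -- generation
  have hgen : IntermediateField.adjoin K₀ (Set.range (algebraMap E K)) = ⊤ := by
    obtain ⟨A1, hA1⟩ : ∃ A1, A1 = IntermediateField.adjoin K₀ (Set.range (algebraMap E K)) :=
      ⟨_, rfl⟩
    rw [← hA1, eq_top_iff]
    let S : IntermediateField ℂ K :=
      { A1.toSubfield with
        algebraMap_mem' := fun c => by
          change algebraMap ℂ K c ∈ A1
          rw [IsScalarTower.algebraMap_apply ℂ K₀ K]
          exact A1.algebraMap_mem _ }
    have h1 : E ⊔ F ≤ S := by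
      refine sup_le ?_ ?_
      · intro z hz
        change z ∈ A1
        rw [hA1]
        exact IntermediateField.subset_adjoin _ _ ⟨⟨z, hz⟩, rfl⟩
      · intro z hz
        change z ∈ A1
        exact A1.algebraMap_mem (⟨z, K₀.algebraMap_mem (⟨z, (hmemF z).2 hz⟩ : F')⟩ : K₀)
    rw [hsup] at h1
    intro z _
    exact h1 (IntermediateField.mem_top (x := z))
  -- the coordinates of `L2` over `N`
  have htL2 : ∀ i, t0 i ∈ L2 := fun i => L2.algebraMap_mem (⟨t0 i, htk0 i⟩ : k)
  have ht2 : AlgebraicIndependent N fun i => (⟨t0 i, htL2 i⟩ : L2) :=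
    AlgebraicIndependent.of_comp (IsScalarTower.toAlgHom N L2 K) ht0.1
  have ht2top : IntermediateField.adjoin N (Set.range fun i => (⟨t0 i, htL2 i⟩ : L2)) = ⊤ := by
    obtain ⟨A1, hA1⟩ : ∃ A1, A1 =
      IntermediateField.adjoin N (Set.range fun i => (⟨t0 i, htL2 i⟩ : L2)) := ⟨_, rfl⟩
    rw [← hA1, eq_top_iff]
    -- the elements of `A1`, in `K`
    have hkA : ∀ c (hc : c ∈ k), (⟨c, L2.algebraMap_mem (⟨c, hc⟩ : k)⟩ : L2) ∈ A1 := by
      let S : IntermediateField ℂ k :=
        { A1.toSubfield.comap (algebraMap k L2) with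
          algebraMap_mem' := fun c => by
            change algebraMap k L2 (algebraMap ℂ k c) ∈ A1
            have h1 : algebraMap k L2 (algebraMap ℂ k c) = algebraMap N L2 (algebraMap ℂ N c) := by
              rw [← IsScalarTower.algebraMap_apply ℂ k L2, ← IsScalarTower.algebraMap_apply ℂ N L2]
            rw [h1]
            exact A1.algebraMap_mem _ }
      have h1 : (⊤ : IntermediateField ℂ k) ≤ S := by
        rw [← hktop, IntermediateField.adjoin_le_iff]
        rintro _ ⟨i, rfl⟩
        change algebraMap k L2 ⟨t0 i, htk0 i⟩ ∈ A1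
        rw [hA1]
        exact IntermediateField.subset_adjoin _ _ ⟨i, rfl⟩
      intro c hc
      exact h1 (IntermediateField.mem_top (x := (⟨c, hc⟩ : k)))
    let S : IntermediateField k L2 :=
      { A1.toSubfield with algebraMap_mem' := fun c => hkA c c.2 }
    have h2 : (⊤ : IntermediateField k L2) ≤ S := by
      have h3 : IntermediateField.adjoin k (Set.range (algebraMap N L2)) = ⊤ := by
        apply IntermediateField.map_injective L2.val
        rw [IntermediateField.adjoin_map, ← AlgHom.fieldRange_eq_map,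
          IntermediateField.fieldRange_val, ← Set.range_comp]
        exact hL2.symm
      rw [← h3, IntermediateField.adjoin_le_iff]
      rintro _ ⟨a, rfl⟩
      exact A1.algebraMap_mem a
    intro z _
    exact h2 (IntermediateField.mem_top (x := z))
  have hcN : CharZero N := charZero_of_injective_algebraMap (algebraMap ℂ N).injective
  have hessNK : Algebra.EssFiniteType N K := Algebra.EssFiniteType.of_comp ℂ N K
  have hsep : SepHyp x K L2 := hS L2 fun S1 S2 h1 h2 =>
    rank_eq3 (N := N) (B := L2) (B' := L) (fun z hz => int_const ht2 ht2top hz)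
      (fun z hz => ⟨⟨z, hNcl z hz.isAlgebraic⟩, rfl⟩) (fun z hz => hEN z (h1 hz))
      (fun z hz => hEN z (h2 hz))
  exact main3 (k := k) (F := F') (K₀ := K₀) (K := K) (L2 := L2) (E := E) (N := N) (L := L)
    hE e4 e6 e7 ht2 ht2top (tk := fun i => (⟨t0 i, htk0 i⟩ : k)) (fun i => rfl) hktop hx
    (x0 := fun l => (⟨algebraMap E K (x l), hxK₀ l⟩ : K₀)) (fun l => rfl) hxF0 htop0 hgen hsep hp
    hNalg

end Pool.Agent.L7h62.MM
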