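import Pool.Agent.L7h62.MM.Fin4

/-!
The dimension of the base and the holomorphic forms of the second factor.
-/

set_option autoImplicit false
set_option linter.all false
set_option maxHeartbeats 4000000
set_option synthInstance.maxHeartbeats 400000

open Module FF
open Pool.Agent.W602.GT (DerReg Divisorial)
open Pool.Agent.N145.SX (HX SepX)

namespace Pool.Agent.L7h62.MM

section

variable {k R I : Type} [Field k] [CharZero k] [Field R] [Algebra k R] [Fintype I] [DecidableEq I] {w : ℕ}

/-- a nonzero form has a nonzero value on the coordinate fields -/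
theorem exists_idx (C : Crd k R I) {θ : Frm k R (Fin w)} (h : θ ≠ 0) :
    ∃ κ : Fin w → I, θ (fun i => C.E (κ i)) ≠ 0 := by
  by_contra hcon
  push Not at hcon
  apply h
  ext D
  have h1 := frm_expand θ C.E (fun i j => D i (C.z j))
  simp only [expandD] at h1
  rw [h1]
  simp only [hcon, mul_zero, Finset.sum_const_zero]
  rfl

theorem inj_idx {E : I → Derivation k R R} {θ : Frm k R (Fin w)} {κ : Fin w → I}
    (h : θ (fun i => E (κ i)) ≠ 0) : Function.Injective κ := by
  intro a b hab
  by_contra hne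
  apply h
  exact θ.map_eq_zero_of_eq _ (by simp only [hab]) hne

end

section

variable {F K₀ K L E : Type} [Field F] [Field K₀] [Field K] [Field L] [Field E]
  [Algebra ℂ F] [Algebra ℂ K₀] [Algebra ℂ L] [Algebra ℂ K] [Algebra ℂ E]
  [Algebra F K₀] [Algebra F K] [Algebra K₀ K] [Algebra E K] [Algebra L K]
  [IsScalarTower ℂ F K₀] [IsScalarTower ℂ K₀ K] [IsScalarTower ℂ F K] [IsScalarTower F K₀ K]
  [IsScalarTower ℂ E K] [IsScalarTower ℂ L K]
  [FiniteDimensional K₀ K] [FiniteDimensional L K]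
  [Algebra.EssFiniteType ℂ E] [Algebra.EssFiniteType ℂ F] [Algebra.EssFiniteType ℂ L]
  [Algebra.EssFiniteType ℂ K₀] [Algebra.EssFiniteType ℂ K] {n r : ℕ}

/-- **Forms on the image and forms on the second factor.** -/
theorem forms_bound (M : IntermediateField L K) [IsScalarTower ℂ M K]
    (hM : M = IntermediateField.adjoin L (Set.range (algebraMap E K)))
    (C : Crd ℂ L (Fin (n + r))) (CF : Crd ℂ F (Fin r))
    {x : Fin n → E} (hx : IsTranscendenceBasis ℂ x) {x0 : Fin n → K₀}
    (hx0 : ∀ l, algebraMap K₀ K (x0 l) = algebraMap E K (x l))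
    (hxF : AlgebraicIndependent F x0)
    (htop : IntermediateField.adjoin F (Set.range x0) = ⊤)
    (hgen : IntermediateField.adjoin K₀ (Set.range (algebraMap E K)) = ⊤) {w : ℕ}
    {θ0 : Frm ℂ L (Fin w)} (hθ0 : ∀ P : Place ℂ L, Divisorial (n + r) P → RegF θ0 P)
    (hne0 : extF C (emb ℂ L M) θ0 ≠ 0) :
    ∃ j : ℕ, w ≤ n + j ∧ j ≤ r ∧ ∃ φ : Frm ℂ F (Fin j), φ ≠ 0 ∧
      ∀ P : Place ℂ F, Divisorial r P → RegF φ P := by
  classical
  have hxM : ∀ l, algebraMap E K (x l) ∈ M := by
    intro l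
    rw [hM]
    exact IntermediateField.subset_adjoin _ _ ⟨x l, rfl⟩
  have hEM : ∀ e : E, algebraMap E K e ∈ M := by
    intro e
    rw [hM]
    exact IntermediateField.subset_adjoin _ _ ⟨e, rfl⟩
  have hxk : AlgebraicIndependent ℂ x0 := hxF.restrictScalars (algebraMap ℂ F).injective
  have hxkK : AlgebraicIndependent ℂ fun l => algebraMap E K (x l) := by
    have h1 := hxk.map' (f := IsScalarTower.toAlgHom ℂ K₀ K) (algebraMap K₀ K).injective
    convert h1 using 1
    funext l
    exact (hx0 l).symm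
  have hxkM : AlgebraicIndependent ℂ fun l => (⟨algebraMap E K (x l), hxM l⟩ : M) :=
    AlgebraicIndependent.of_comp (M.val.restrictScalars ℂ) hxkK
  have hCK : Algebra.trdeg ℂ K = (n + r : ℕ) := by
    rw [(C.up K).trdeg, Fintype.card_fin]
  have hCM : Algebra.trdeg ℂ M = (n + r : ℕ) := by
    have e1 : Algebra.trdeg ℂ M = Algebra.trdeg ℂ K := by
      have h1 := C.bas.algebraMap_comp (A := M)
      have h2 := C.bas.algebraMap_comp (A := K)
      rw [← h1.cardinalMk_eq_trdeg, ← h2.cardinalMk_eq_trdeg]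
    rw [e1, hCK]
  obtain ⟨CM, hCMx⟩ := ext_crd hxkM hCM
  have hCMx' : ∀ l, algebraMap M K (CM.z (Sum.inl l)) = algebraMap E K (x l) := by
    intro l
    rw [hCMx]
    rfl
  obtain ⟨CZ, hCZ⟩ : ∃ CZ : Crd ℂ K₀ (Fin n ⊕ Fin r),
      CZ.z = Sum.elim x0 (algebraMap F K₀ ∘ CF.z) := by
    have h1 : IsTranscendenceBasis F x0 := by
      have hcF : CharZero F := charZero_of_injective_algebraMap (algebraMap ℂ F).injective
      exact basis_of_top hxF htop
    exact crd_of (CF.bas.sumElim_comp h1)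
  obtain ⟨m, e, e', hdual⟩ := exists_dual (K := K) hx hx0 hxF htop hgen
  -- the form on `M`
  obtain ⟨κ0, hκ0⟩ := exists_idx CM hne0
  have hinj0 := inj_idx hκ0
  -- the least number of vertical arguments
  have hex : ∃ j, PM C CM j := ⟨r, PM_top C CM⟩
  obtain ⟨j, hj, hmin⟩ : ∃ j, PM C CM j ∧ ∀ i < j, ¬ PM C CM i :=
    ⟨Nat.find hex, Nat.find_spec hex, fun i hi => Nat.find_min hex hi⟩
  have hjr : j ≤ r := by
    by_contra hcon
    push Not at hcon
    exact hmin r hcon (PM_top C CM)
  have hcard0 : (Finset.univ.filter fun i => (κ0 i).isRight = true).card ≤ j := by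
    by_contra hcon
    push Not at hcon
    exact hκ0 (hj w θ0 (fun P hP => hθ0 P (by rwa [Fintype.card_fin] at hP)) κ0 hcon)
  have hleft : (Finset.univ.filter fun i => ¬ (κ0 i).isRight = true).card ≤ n := by
    have h1 : (Finset.univ.filter fun i => ¬ (κ0 i).isRight = true).image κ0 ⊆
        (Finset.univ : Finset (Fin n)).image Sum.inl := by
      intro a ha
      obtain ⟨i, hi, rfl⟩ := Finset.mem_image.1 ha
      rw [Finset.mem_filter] at hi
      rcases h : κ0 i with l | b
      · exact Finset.mem_image_of_mem _ (Finset.mem_univ _)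
      · rw [h] at hi
        exact absurd rfl hi.2
    have h2 := Finset.card_le_card h1
    rw [Finset.card_image_of_injective _ hinj0] at h2
    refine h2.trans (Finset.card_image_le.trans ?_)
    rw [Finset.card_univ, Fintype.card_fin]
  have hw : w ≤ n + j := by
    have h1 := Finset.card_filter_add_card_filter_not (s := (Finset.univ : Finset (Fin w)))
      (fun i => (κ0 i).isRight = true)
    rw [Finset.card_univ, Fintype.card_fin] at h1
    omega
  have hθ : ∃ (p : ℕ) (θ : Frm ℂ L (Fin p)) (κ : Fin p → Fin n ⊕ Fin r),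
      (∀ P : Place ℂ L, Divisorial (Fintype.card (Fin (n + r))) P → RegF θ P) ∧
      (Finset.univ.filter fun i => (κ i).isRight = true).card = j ∧
      extF C (emb ℂ L M) θ (fun i => CM.E (κ i)) ≠ 0 := by
    rcases Nat.eq_zero_or_pos j with h0 | h0
    · refine ⟨0, AlternatingMap.constOfIsEmpty L _ (Fin 0) 1, Fin.elim0, ?_, ?_, ?_⟩
      · intro P _ D _
        exact P.reg_one
      · rw [h0]
        simp
      · rw [extF_apply]
        simp
    · have h1 := hmin (j - 1) (by omega)
      unfold PM at h1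
      push Not at h1
      obtain ⟨p, θ, hθ, κ, hκ, hne⟩ := h1
      refine ⟨p, θ, κ, hθ, ?_, hne⟩
      have h2 : ¬ j + 1 ≤ (Finset.univ.filter fun i => (κ i).isRight = true).card := by
        intro h3
        exact hne (hj p θ hθ κ h3)
      omega
  obtain ⟨p, θ, κ, hθreg, hκ, hne⟩ := hθ
  obtain ⟨φ, s, hφ, hstar⟩ := star C CM CF CZ hxF htop (fun l => by rw [hCZ]; rfl)
    (fun b => by rw [hCZ]; rfl) (fun l => by rw [hCMx', hx0]) (fun i => algebraMap E K (e i))
    (fun i => (⟨algebraMap E K (e' i), hEM _⟩ : M)) (fun i Q hQ => by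
      refine reg_E hx Q (fun h hh => ?_) (e i)
      rw [← hQ h hh]
      congr 1
      rw [← MvPolynomial.aeval_algebraMap_apply, ← MvPolynomial.aeval_algebraMap_apply]
      congr 2
      funext l
      exact (hx0 l).symm) hdual hj hθreg κ hκ hne
  refine ⟨j, hw, hjr, φ, ?_, fun P hP => hφ P (by rwa [Fintype.card_fin])⟩
  rintro rfl
  apply hstar
  have h1 : extF CF (emb ℂ F K) (0 : Frm ℂ F (Fin j))
      (fun b => (CM.up K).E (Sum.inr (s b))) = 0 := by
    rw [extF_apply]
    refine Finset.sum_eq_zero fun κ _ => ?_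
    rw [AlternatingMap.zero_apply, map_zero, zero_mul]
  rw [h1, map_zero]

end

section

variable {N M : Type} [Field N] [Field M] [Algebra ℂ N] [Algebra ℂ M] [Algebra N M]
  [IsScalarTower ℂ N M] {w u : ℕ}

/-- pull-backs of nonzero forms are nonzero -/
theorem extF_ne (CN : Crd ℂ N (Fin w)) (hM : Algebra.trdeg ℂ M = (w + u : ℕ)) {p : ℕ}
    {θ : Frm ℂ N (Fin p)} (hθ : θ ≠ 0) : extF CN (emb ℂ N M) θ ≠ 0 := by
  have hind : AlgebraicIndependent ℂ fun a => algebraMap N M (CN.z a) :=
    CN.bas.1.map' (f := IsScalarTower.toAlgHom ℂ N M) (algebraMap N M).injective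
  obtain ⟨C2, hC2⟩ := ext_crd hind hM
  obtain ⟨κ, hκ⟩ := exists_idx CN hθ
  intro h0
  have h1 := extF_lift CN (emb ℂ N M) θ (D := fun i => CN.E (κ i))
    (D' := fun i => C2.E (Sum.inl (κ i))) (fun i f => by
      rw [chainA CN (emb ℂ N M) (C2.E (Sum.inl (κ i))) f, Finset.sum_eq_single (κ i)]
      · have h2 : (emb ℂ N M) (CN.z (κ i)) = C2.z (Sum.inl (κ i)) := (hC2 _).symm
        rw [h2, C2.dual, if_pos rfl, one_mul]
      · intro c _ hc
        have h2 : (emb ℂ N M) (CN.z c) = C2.z (Sum.inl c) := (hC2 _).symm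
        rw [h2, C2.dual, if_neg, zero_mul]
        exact fun h => hc (Sum.inl_injective h).symm
      · intro h
        exact absurd (Finset.mem_univ _) h)
  rw [h0] at h1
  have h2 : (emb ℂ N M) (θ fun i => CN.E (κ i)) = 0 := by
    rw [← h1]
    rfl
  rw [_root_.map_eq_zero] at h2
  exact hκ h2

/-- the forms of top degree -/
theorem frm_of_pluri [Algebra.EssFiniteType ℂ N] (h : CanonicalMapFinite N w) :
    ∃ θ : Frm ℂ N (Fin w), θ ≠ 0 ∧ ∀ P : Place ℂ N, Divisorial w P → RegF θ P := by
  obtain ⟨hN, ω, hω, hreg, D0, hD0, -⟩ := h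
  obtain ⟨CN⟩ := exists_crd' hN
  have hval : ∀ D : Fin w → Derivation ℂ N N,
      ω 0 D = (ω 0 CN.E • dd ℂ CN.z : Frm ℂ N (Fin w)) D := by
    intro D
    have h1 := hω 0 (Matrix.of fun i j => D i (CN.z j)) CN.E
    have h2 : (fun i => ∑ j, (Matrix.of fun i j => D i (CN.z j) : Matrix (Fin w) (Fin w) N) i j •
        CN.E j) = D := by
      funext i
      exact expandD CN (D i)
    rw [h2, pow_one] at h1
    rw [h1, AlternatingMap.smul_apply, dd_apply, smul_eq_mul, mul_comm]
  refine ⟨ω 0 CN.E • dd ℂ CN.z, ?_, ?_⟩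
  · intro h0
    apply hD0
    rw [hval, h0]
    rfl
  · intro P hP D hD
    rw [← hval]
    exact hreg P hP 0 D hD

end

end Pool.Agent.L7h62.MM
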