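import Pool.Agent.L7h62.MM.SepA
import Pool.Agent.N145.SX.Multi2

/-!
Separation of points on products.
-/

set_option autoImplicit false
set_option linter.all false
set_option maxHeartbeats 4000000
set_option synthInstance.maxHeartbeats 400000

open Module FF
open Pool.Agent.N145.SX (HX SepX zS BdS prods sec2 hx_mono)
open Pool.Agent.N145.SX.Ch (count_le count2_le)
open Pool.Agent.N145.PC (res res_apply sum_trace charZero_L Rl SJ mem_SJ Js mem_Js ev P2 MF MJ Sep
  Rl.chain)

open scoped Classical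

namespace Pool.Agent.L7h62.MM

section

variable {K : Type} [Field K] [Algebra ℂ K] {k : ℕ} {F : Fin k → IntermediateField ℂ K}
  [∀ i, Algebra.EssFiniteType ℂ (F i)] {m : Fin k → ℕ}
  (hm : ∀ i, Algebra.trdeg ℂ (F i) = m i)
  {x : ∀ i, Fin (m i) → F i} (hx : ∀ i, IsTranscendenceBasis ℂ (x i))
  (hind : AlgebraicIndependent ℂ fun p : (i : Fin k) × Fin (m i) => (x p.1 p.2 : K))
  {T : IntermediateField ℂ K} (hT : T = ⨆ i, F i)
  (hle : ∀ i, F i ≤ T) {N : ℕ} (e : Fin N ≃ (i : Fin k) × Fin (m i)) {g : Fin k → ℕ}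
  (hsep : ∀ i, SepX (x i) (fun _ => False) (g i))

/-- restriction of a point of the product to a factor -/
noncomputable def rs {Ω : Type} [Field Ω] [Algebra ℂ Ω] (i : Fin k) (σ : T →ₐ[ℂ] Ω) :
    F i →ₐ[ℂ] Ω := σ.comp (IntermediateField.inclusion (hle i))

include hm hx hind hT hsep in
/-- **Separation of points on a product.** -/
theorem sepAt_prod {Ω : Type} [Field Ω] [Algebra ℂ Ω] [IsAlgClosed Ω] {T0 : Type} [Fintype T0]
    (r : T0 → (T →ₐ[ℂ] Ω)) (τ0 : T0)
    (hcount : ∀ l : Fin k, ((SJ (fun i τ => rs hle i (r τ)) τ0 (Js k l.val)).image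
      (fun τ => rs hle l (r τ))).card < g l) :
    SepAt (zS x hle e) (Finset.univ.image r) (r τ0) := by
  intro c hc
  obtain ⟨A, hA⟩ : ∃ A, A = Finset.univ.image r := ⟨_, rfl⟩
  rw [← hA] at hc
  have h0A : r τ0 ∈ A := by
    rw [hA]
    exact Finset.mem_image_of_mem _ (Finset.mem_univ _)
  obtain ⟨σ0, hσ0⟩ : ∃ σ0 : A, (σ0 : T →ₐ[ℂ] Ω) = r τ0 := ⟨⟨r τ0, h0A⟩, rfl⟩
  -- the relation
  have h0 : Rl (fun i (σ : A) => rs hle i (σ : T →ₐ[ℂ] Ω)) (ev Ω F)
      (fun i => HX (x i) (fun _ => False)) (fun σ : A => c σ) σ0 ∅ := by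
    intro f hf
    obtain ⟨p, hp1, hp2⟩ := prods sec2 k F m hm x hx hind (fun _ _ => False) T hT hle N e f
      (fun i => hf i (Finset.notMem_empty i))
    have h1 := hc p (hx_mono (fun Q hQ => by
      obtain ⟨_, _, _, h, -⟩ := hQ
      exact h) hp2)
    have h2 : (SJ (fun i (σ : A) => rs hle i (σ : T →ₐ[ℂ] Ω)) σ0 ∅) = Finset.univ := by
      ext σ
      simp [mem_SJ]
    rw [h2, Finset.compl_empty]
    rw [← Finset.sum_coe_sort] at h1
    rw [← h1]
    refine Finset.sum_congr rfl fun σ _ => ?_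
    congr 1
    have h3 : p = ∏ i, IntermediateField.inclusion (hle i) (f i) := by
      apply Subtype.ext
      rw [hp1]
      have h4 := map_prod T.val (fun i => IntermediateField.inclusion (hle i) (f i)) Finset.univ
      exact h4.symm
    rw [h3, map_prod]
    rfl
  have hS : ∀ l, Sep (ev Ω F l) (HX (x l) (fun _ => False)) (g l) := fun l A hA c hc =>
    hsep l Ω A hA c hc
  have h1 := Rl.chain h0 hS (s := k) (fun l _ => by
    refine lt_of_le_of_lt (Finset.card_le_card ?_) (hcount l)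
    intro a ha
    obtain ⟨σ, hσ, rfl⟩ := Finset.mem_image.1 ha
    rw [mem_SJ] at hσ
    have h2 : (σ : T →ₐ[ℂ] Ω) ∈ Finset.univ.image r := by
      rw [← hA]
      exact σ.2
    obtain ⟨τ, -, hτ⟩ := Finset.mem_image.1 h2
    refine Finset.mem_image.2 ⟨τ, ?_, by rw [hτ]⟩
    rw [mem_SJ]
    intro i hi
    have h3 := hσ i hi
    rw [hσ0, ← hτ] at h3
    exact h3)
  have h2 := h1 (fun i => 0) (fun i hi => by
    exfalso
    apply hi
    rw [mem_Js]
    exact i.2)
  have h3 : SJ (fun i (σ : A) => rs hle i (σ : T →ₐ[ℂ] Ω)) σ0 (Js k k) = {σ0} := by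
    ext σ
    rw [mem_SJ, Finset.mem_singleton]
    constructor
    · intro h
      apply Subtype.ext
      have h4 : T ≤ T := le_rfl
      have h5 : ∀ z ∈ T, ∀ hz : z ∈ T, (σ : T →ₐ[ℂ] Ω) ⟨z, hz⟩ = (σ0 : T →ₐ[ℂ] Ω) ⟨z, hz⟩ := by
        obtain ⟨W, hW⟩ : ∃ W : IntermediateField ℂ T, ∀ z : T,
            z ∈ W ↔ (σ : T →ₐ[ℂ] Ω) z = (σ0 : T →ₐ[ℂ] Ω) z :=
          ⟨{ AlgHom.equalizer (σ : T →ₐ[ℂ] Ω) (σ0 : T →ₐ[ℂ] Ω) with
              inv_mem' := fun a ha => by
                have ha' : (σ : T →ₐ[ℂ] Ω) a = (σ0 : T →ₐ[ℂ] Ω) a := ha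
                change (σ : T →ₐ[ℂ] Ω) a⁻¹ = (σ0 : T →ₐ[ℂ] Ω) a⁻¹
                rw [map_inv₀, map_inv₀, ha'] }, fun z => Iff.rfl⟩
        have h6 : T ≤ W.map T.val := by
          conv_lhs => rw [hT]
          refine iSup_le fun i v hv => ?_
          refine ⟨⟨v, hle i hv⟩, ?_, rfl⟩
          have h7 := DFunLike.congr_fun (h i (by rw [mem_Js]; exact i.2)) (⟨v, hv⟩ : F i)
          exact (hW _).2 h7
        intro z hz hz'
        obtain ⟨y, hy, hyz⟩ := h6 hz
        have h7 : y = ⟨z, hz'⟩ := Subtype.ext hyz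
        rw [← h7]
        exact (hW y).1 hy
      ext z
      exact h5 z z.2 z.2
    · rintro rfl i _
      rfl
  have h4 : (Js k k)ᶜ = ∅ := by
    ext i
    rw [Finset.mem_compl, mem_Js]
    simp
  rw [h3, h4, Finset.sum_singleton, Finset.prod_empty, mul_one] at h2
  have h5 : c (σ0 : T →ₐ[ℂ] Ω) = 0 := h2
  rwa [hσ0] at h5

variable {L : Type} [Field L] [Algebra ℂ L] [Algebra L K] [IsScalarTower ℂ L K]
  [FiniteDimensional L K]

include hm hx hind hT hsep in
/-- **Separation of the points of one or two fibres.** -/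
theorem sepHyp_prod (hd : ∀ l : Fin k, 2 * finrank (MF F L (Js k l.val))
      (IntermediateField.adjoin (MF F L (Js k l.val)) (F l : Set K)) < g l) :
    SepHyp (zS x hle e) K L := by
  have hT' : IsScalarTower ℂ L (AlgebraicClosure L) := inferInstance
  constructor
  · intro τ0
    refine sepAt_prod hm hx hind hT hle e hsep (res (K := K) (L := L)
      (Ω := AlgebraicClosure L) T) τ0 fun l => ?_
    have h1 := count_le (F := F) (Ω := AlgebraicClosure L) τ0 (Js k l.val) l
    have h2 := hd l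
    have h3 : ((SJ (fun i (τ : K →ₐ[L] AlgebraicClosure L) => rs hle i (res T τ)) τ0
        (Js k l.val)).image (fun τ => rs hle l (res T τ))) =
        ((SJ (fun i => res (K := K) (L := L) (Ω := AlgebraicClosure L) (F i)) τ0
          (Js k l.val)).image (res (F l))) := rfl
    rw [h3]
    omega
  · intro Ω' _ _ _ i1 i2 τ0
    refine sepAt_prod hm hx hind hT hle e hsep (Sum.elim
      (fun τ : K →ₐ[L] AlgebraicClosure L => i1.comp (res (K := K) (L := L) T τ))
      (fun τ : K →ₐ[L] AlgebraicClosure L => i2.comp (res (K := K) (L := L) T τ)))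
      (Sum.inl τ0) fun l => ?_
    have h1 := count2_le (F := F) (Ω := AlgebraicClosure L) i1 i2 τ0 (Js k l.val) l
    have h2 : (fun i (ρ : (K →ₐ[L] AlgebraicClosure L) ⊕ (K →ₐ[L] AlgebraicClosure L)) =>
        rs hle i (Sum.elim
          (fun τ : K →ₐ[L] AlgebraicClosure L => i1.comp (res (K := K) (L := L) T τ))
          (fun τ : K →ₐ[L] AlgebraicClosure L => i2.comp (res (K := K) (L := L) T τ)) ρ)) =
        P2 i1 i2 F L := by
      funext i ρ
      rcases ρ with τ | τ <;> rfl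
    have h3 := congrFun h2 l
    have h4 := hd l
    rw [h2]
    change (Finset.image (fun ρ => (fun i (ρ : (K →ₐ[L] AlgebraicClosure L) ⊕
      (K →ₐ[L] AlgebraicClosure L)) => rs hle i (Sum.elim
          (fun τ : K →ₐ[L] AlgebraicClosure L => i1.comp (res (K := K) (L := L) T τ))
          (fun τ : K →ₐ[L] AlgebraicClosure L => i2.comp (res (K := K) (L := L) T τ)) ρ)) l ρ)
      (SJ (P2 i1 i2 F L) (Sum.inl τ0) (Js k l.val))).card < g l
    rw [h2]
    exact lt_of_le_of_lt h1 h4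

end

end Pool.Agent.L7h62.MM
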