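import Pool.Agent.L7h62.MM.Fin5
import Pool.Agent.L7h62.MM.Prod

/-!
Varieties dominated by products: the full statement.
-/

set_option autoImplicit false
set_option linter.all false
set_option maxHeartbeats 4000000
set_option synthInstance.maxHeartbeats 400000

open Module FF
open Pool.Agent.W602.GT (DerReg Divisorial)
open Pool.Agent.N145.SX (HX SepX)

namespace Pool.Agent.L7h62.MM

/-- `φ` is a holomorphic `j`-form on the smooth projective varieties with the function field `F`, of
dimension `s`: a rational `j`-form which is regular at all prime divisors. -/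
def Holomorphic {F : Type} [Field F] [Algebra ℂ F] (s : ℕ) {j : ℕ} (φ : Frm ℂ F (Fin j)) : Prop :=
  ∀ P : Place ℂ F, Divisorial s P → RegF φ P

/-- **The forms on the image.** -/
theorem forms_image {K : Type} [Field K] [Algebra ℂ K] [hess : Algebra.EssFiniteType ℂ K] {n s : ℕ}
    {E F : IntermediateField ℂ K} (hsup : E ⊔ F = ⊤) (hF : Algebra.trdeg ℂ F = s)
    (hK : Algebra.trdeg ℂ K = (n + s : ℕ)) {x : Fin n → E}
    (hx : IsTranscendenceBasis ℂ x)
    {L : Type} [Field L] [Algebra ℂ L] [Algebra L K] [IsScalarTower ℂ L K]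
    [FiniteDimensional L K] {p : ℕ} {θ : Frm ℂ L (Fin p)} (hθ0 : θ ≠ 0)
    (hθ : Holomorphic (n + s) θ) :
    ∃ j : ℕ, p ≤ n + j ∧ j ≤ s ∧ ∃ φ : Frm ℂ F (Fin j), φ ≠ 0 ∧ Holomorphic s φ := by
  classical
  obtain ⟨K₀, hK₀⟩ : ∃ K₀, K₀ = IntermediateField.adjoin F
    (Set.range fun l : Fin n => algebraMap E K (x l)) := ⟨_, rfl⟩
  have hxK₀ : ∀ l, algebraMap E K (x l) ∈ K₀ := fun l => by
    rw [hK₀]
    exact IntermediateField.subset_adjoin _ _ ⟨l, rfl⟩
  have iFK₀K : IsScalarTower F K₀ K := IsScalarTower.of_algebraMap_eq fun _ => rfl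
  have iCFK₀ : IsScalarTower ℂ F K₀ := IsScalarTower.of_algebraMap_eq fun _ => rfl
  have iCK₀K : IsScalarTower ℂ K₀ K := IsScalarTower.of_algebraMap_eq fun _ => rfl
  have f1 : Algebra.EssFiniteType ℂ L := Pool.Agent.TH466.QG.ess_below (K := K)
  have f3 : Algebra.EssFiniteType ℂ E := Pool.Agent.N999.SX.ess_any E
  have f5 : Algebra.EssFiniteType ℂ F := Pool.Agent.N999.SX.ess_any F
  have f7 : Algebra.EssFiniteType F K := Algebra.EssFiniteType.of_comp ℂ F K
  have f8 : Algebra.EssFiniteType F K₀ := Pool.Agent.N999.SX.ess_any K₀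
  have f9 : Algebra.EssFiniteType ℂ K₀ := Algebra.EssFiniteType.comp ℂ F K₀
  have f10 : Algebra.EssFiniteType K₀ K := Algebra.EssFiniteType.of_comp ℂ K₀ K
  -- `K` is algebraic over `K₀`
  have hK₀alg : ∀ z : K, IsAlgebraic K₀ z := by
    let S : IntermediateField ℂ K :=
      { (algebraicClosure K₀ K).toSubfield with
        algebraMap_mem' := fun c => by
          change algebraMap ℂ K c ∈ algebraicClosure K₀ K
          rw [IsScalarTower.algebraMap_apply ℂ K₀ K]
          exact (algebraicClosure K₀ K).algebraMap_mem _ }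
    have h1 : E ⊔ F ≤ S := by
      refine sup_le ?_ ?_
      · intro z hz
        change z ∈ algebraicClosure K₀ K
        rw [mem_algebraicClosure_iff]
        have h2 : IsAlgebraic (IntermediateField.adjoin ℂ (Set.range x)) (⟨z, hz⟩ : E) :=
          hx.isAlgebraic_field.isAlgebraic _
        refine alg_tr (algebraMap E K) (fun a => ?_) h2
        have h3 : IntermediateField.adjoin ℂ (Set.range x) ≤
            { K₀.toSubfield.comap (algebraMap E K) with
              algebraMap_mem' := fun c => by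
                change algebraMap E K (algebraMap ℂ E c) ∈ K₀
                rw [← IsScalarTower.algebraMap_apply ℂ E K, IsScalarTower.algebraMap_apply ℂ K₀ K]
                exact (algebraMap ℂ K₀ c).2 } := by
          rw [IntermediateField.adjoin_le_iff]
          rintro _ ⟨l, rfl⟩
          exact hxK₀ l
        exact ⟨⟨algebraMap E K a, h3 a.2⟩, rfl⟩
      · intro z hz
        change z ∈ algebraicClosure K₀ K
        rw [mem_algebraicClosure_iff]
        exact (isAlgebraic_algebraMap (A := K) (⟨z, hz⟩ : F)).tower_top K₀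
    rw [hsup] at h1
    intro z
    exact mem_algebraicClosure_iff.1 (h1 (IntermediateField.mem_top (x := z)))
  have g1 : FiniteDimensional K₀ K := fin_of_alg hK₀alg
  have e5 : Algebra.trdeg F K = (n : ℕ) := by
    have h1 : Algebra.trdeg ℂ F + Algebra.trdeg F K = Algebra.trdeg ℂ K :=
      _root_.trdeg_add_eq ℂ F (A := K)
    rw [hF, hK] at h1
    push_cast at h1
    rw [add_comm] at h1
    exact (Cardinal.add_right_inj_of_lt_aleph0 Cardinal.natCast_lt_aleph0).1 h1
  have hxF : AlgebraicIndependent F fun l : Fin n => algebraMap E K (x l) := by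
    have h1 : Algebra.IsAlgebraic (Algebra.adjoin F
        (Set.range fun l : Fin n => algebraMap E K (x l))) K := by
      refine Pool.Agent.W619.PQ.alg_adjoin fun z => ?_
      rw [← hK₀]
      exact hK₀alg z
    exact (Algebra.IsAlgebraic.isTranscendenceBasis_of_le_trdeg_of_finite F
      (fun l : Fin n => algebraMap E K (x l)) (by rw [e5, Cardinal.mk_fin])).1
  have hxF0 : AlgebraicIndependent F fun l : Fin n => (⟨algebraMap E K (x l), hxK₀ l⟩ : K₀) :=
    AlgebraicIndependent.of_comp K₀.val hxF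
  have htop0 := adjoin_top hK₀ hxK₀
  have hgen : IntermediateField.adjoin K₀ (Set.range (algebraMap E K)) = ⊤ := by
    obtain ⟨A1, hA1⟩ : ∃ A1, A1 = IntermediateField.adjoin K₀ (Set.range (algebraMap E K)) :=
      ⟨_, rfl⟩
    rw [← hA1, eq_top_iff]
    let S : IntermediateField ℂ K :=
      { A1.toSubfield with
        algebraMap_mem' := fun c => by
          change algebraMap ℂ K c ∈ A1
          rw [IsScalarTower.algebraMap_apply ℂ K₀ K]
          exact A1.algebraMap_mem _ }
    have h1 : E ⊔ F ≤ S := by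
      refine sup_le ?_ ?_
      · intro z hz
        change z ∈ A1
        rw [hA1]
        exact IntermediateField.subset_adjoin _ _ ⟨⟨z, hz⟩, rfl⟩
      · intro z hz
        change z ∈ A1
        exact A1.algebraMap_mem (⟨z, K₀.algebraMap_mem (⟨z, hz⟩ : F)⟩ : K₀)
    rw [hsup] at h1
    intro z _
    exact h1 (IntermediateField.mem_top (x := z))
  obtain ⟨M, hM⟩ : ∃ M, M = IntermediateField.adjoin L (Set.range (algebraMap E K)) := ⟨_, rfl⟩
  have iCMK : IsScalarTower ℂ M K := IsScalarTower.of_algebraMap_eq fun c => rfl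
  have iCLM : IsScalarTower ℂ L M := inferInstance
  have hL : Algebra.trdeg ℂ L = (n + s : ℕ) := Pool.Agent.Y184.NT.trdeg_below (K := K) hK
  obtain ⟨C⟩ := exists_crd' hL
  obtain ⟨CF⟩ := exists_crd' hF
  have hM' : Algebra.trdeg ℂ M = ((n + s) + 0 : ℕ) := by
    have h1 := C.bas.algebraMap_comp (A := M)
    rw [← h1.cardinalMk_eq_trdeg, Cardinal.mk_fin, add_zero]
  exact forms_bound (K₀ := K₀) (K := K) (L := L) (E := E) (F := F) M hM C CF hx
    (x0 := fun l => (⟨algebraMap E K (x l), hxK₀ l⟩ : K₀)) (fun l => rfl) hxF0 htop0 hgen hθ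
    (extF_ne C hM' hθ0)

/-- **Varieties dominated by products.** -/
theorem dominated2 {K : Type} [Field K] [Algebra ℂ K] [hess : Algebra.EssFiniteType ℂ K] {n s : ℕ}
    {E F : IntermediateField ℂ K} (hsup : E ⊔ F = ⊤) (hE : Algebra.trdeg ℂ E = n)
    (hF : Algebra.trdeg ℂ F = s) (hK : Algebra.trdeg ℂ K = (n + s : ℕ)) {x : Fin n → E}
    (hx : IsTranscendenceBasis ℂ x)
    {L : Type} [Field L] [Algebra ℂ L] [Algebra L K] [IsScalarTower ℂ L K]
    [FiniteDimensional L K]
    (hS : ∀ (L2 : Type) [Field L2] [Algebra ℂ L2] [Algebra L2 K] [IsScalarTower ℂ L2 K]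
      [FiniteDimensional L2 K], (∀ S1 S2 : Set K, S1 ⊆ E → S2 ⊆ E →
        finrank (IntermediateField.adjoin L2 S1) (IntermediateField.adjoin
          (IntermediateField.adjoin L2 S1 : IntermediateField L2 K) S2) =
        finrank (IntermediateField.adjoin L S1) (IntermediateField.adjoin
          (IntermediateField.adjoin L S1 : IntermediateField L K) S2)) → SepHyp x K L2) :
    ∃ (N : IntermediateField ℂ L) (w : ℕ),
      ((∀ z : L, IsAlgebraic N z → z ∈ N) ∧ (∀ z ∈ E, IsAlgebraic N z) ∧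
        ∀ N' : IntermediateField ℂ L, (∀ z : L, IsAlgebraic N' z → z ∈ N') →
          (∀ z ∈ E, IsAlgebraic N' z) → N ≤ N') ∧
      CanonicalMapFinite N w ∧ n ≤ w ∧
      ∃ j ≤ s, w ≤ n + j ∧ ∃ φ : Frm ℂ F (Fin j), φ ≠ 0 ∧ Holomorphic s φ := by
  obtain ⟨N, w, h1, h2, h3, h4, h5, h6, h7⟩ := dominated hsup hE hF hK hx hS
  refine ⟨N, w, ⟨h1, h5, h7⟩, h6, h3, ?_⟩
  have f1 : Algebra.EssFiniteType ℂ L := Pool.Agent.TH466.QG.ess_below (K := K)
  have f2 : Algebra.EssFiniteType ℂ N := Pool.Agent.N999.SX.ess_any N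
  have hL : Algebra.trdeg ℂ L = (n + s : ℕ) := Pool.Agent.Y184.NT.trdeg_below (K := K) hK
  obtain ⟨θ, hθ0, hθ⟩ := frm_of_pluri h6
  obtain ⟨CN⟩ := exists_crd' h2
  obtain ⟨u, hu⟩ := Nat.exists_eq_add_of_le h4
  obtain ⟨j, hj1, hj2, hj3⟩ := forms_image hsup hF hK hx (L := L)
    (θ := extF CN (emb ℂ N L) θ) (extF_ne CN (hL.trans (by rw [hu])) hθ0) (fun P hP =>
      extF_reg CN hL (fun Q hQ => hθ Q (by rwa [Fintype.card_fin] at hQ)) hP)
  exact ⟨j, hj2, hj1, hj3⟩

section multi

open Pool.Agent.N145.SX (alg_of_basis le_algCl basis_zS trdeg_basis ess_iSup zS)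
open Pool.Agent.N145.PC (MF Js mem_Js MJ)

variable {K : Type} [Field K] [Algebra ℂ K] {k s : ℕ} {F : Fin (k + 1) → IntermediateField ℂ K}
  {m : Fin k → ℕ}

/-- the coordinates are independent -/
theorem ind_all' (hsup : ⨆ i, F i = ⊤) (hs : Algebra.trdeg ℂ (F (Fin.last k)) = s)
    (hK : Algebra.trdeg ℂ K = (∑ i, m i + s : ℕ)) {x : ∀ i : Fin k, Fin (m i) → F i.castSucc}
    (hx : ∀ i, IsTranscendenceBasis ℂ (x i)) :
    AlgebraicIndependent ℂ fun p : (i : Fin k) × Fin (m i) => (x p.1 p.2 : K) := by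
  obtain ⟨CY⟩ := exists_crd' hs
  obtain ⟨w, hw⟩ : ∃ w : ((i : Fin k) × Fin (m i)) ⊕ Fin s → K,
    w = Sum.elim (fun p => (x p.1 p.2 : K)) (fun j => (CY.z j : K)) := ⟨_, rfl⟩
  obtain ⟨S, hS⟩ : ∃ S, S = IntermediateField.adjoin ℂ (Set.range w) := ⟨_, rfl⟩
  have hwS : ∀ l, w l ∈ S := fun l => by
    rw [hS]
    exact IntermediateField.subset_adjoin _ _ ⟨l, rfl⟩
  have h3 : ∀ i, ∀ v ∈ F i, IsAlgebraic S v := by
    intro i
    induction i using Fin.lastCases with
    | last =>
      intro v hv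
      refine alg_of_basis CY.bas (fun j => ?_) hv
      have h1 := hwS (Sum.inr j)
      rw [hw] at h1
      exact h1
    | cast i =>
      intro v hv
      refine alg_of_basis (hx i) (fun j => ?_) hv
      have h1 := hwS (Sum.inl ⟨i, j⟩)
      rw [hw] at h1
      exact h1
  have h4 := le_algCl h3 (T := ⊤) hsup.symm
  have h5 : Algebra.IsAlgebraic (Algebra.adjoin ℂ (Set.range w)) K := by
    refine Pool.Agent.W619.PQ.alg_adjoin fun z => ?_
    have h6 := h4 (IntermediateField.mem_top (x := z))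
    rw [IntermediateField.mem_restrictScalars, mem_algebraicClosure_iff, hS] at h6
    exact h6
  have h6 : IsTranscendenceBasis ℂ w := by
    refine Algebra.IsAlgebraic.isTranscendenceBasis_of_lift_le_trdeg_of_finite ℂ _ ?_
    rw [hK]
    simp
  have h7 := h6.1.comp Sum.inl Sum.inl_injective
  rw [hw] at h7
  exact h7

variable {L : Type} [Field L] [Algebra ℂ L] [Algebra L K] [IsScalarTower ℂ L K]
  [FiniteDimensional L K]

/-- **Varieties dominated by products of several varieties.** -/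
theorem multi [hess : Algebra.EssFiniteType ℂ K] (hsup : ⨆ i, F i = ⊤)
    (hm : ∀ i : Fin k, Algebra.trdeg ℂ (F i.castSucc) = m i)
    (hs : Algebra.trdeg ℂ (F (Fin.last k)) = s)
    (hK : Algebra.trdeg ℂ K = (∑ i, m i + s : ℕ)) {x : ∀ i : Fin k, Fin (m i) → F i.castSucc}
    (hx : ∀ i, IsTranscendenceBasis ℂ (x i)) {g : Fin k → ℕ}
    (hsep : ∀ i, SepX (x i) (fun _ => False) (g i))
    (hd : ∀ l : Fin k, 2 * finrank (MF (fun i : Fin k => F i.castSucc) L (Js k l.val))
      (IntermediateField.adjoin (MF (fun i : Fin k => F i.castSucc) L (Js k l.val))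
        (F l.castSucc : Set K)) < g l) :
    ∃ (N : IntermediateField ℂ L) (w : ℕ),
      ((∀ z : L, IsAlgebraic N z → z ∈ N) ∧
        (∀ i : Fin k, ∀ z ∈ F i.castSucc, IsAlgebraic N z) ∧
        ∀ N' : IntermediateField ℂ L, (∀ z : L, IsAlgebraic N' z → z ∈ N') →
          (∀ i : Fin k, ∀ z ∈ F i.castSucc, IsAlgebraic N' z) → N ≤ N') ∧
      CanonicalMapFinite N w ∧ ∑ i, m i ≤ w ∧
      ∃ j ≤ s, w ≤ ∑ i, m i + j ∧
        ∃ φ : Frm ℂ (F (Fin.last k)) (Fin j), φ ≠ 0 ∧ Holomorphic s φ := by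
  have hind := ind_all' hsup hs hK hx
  have hessF : ∀ i : Fin k, Algebra.EssFiniteType ℂ (F i.castSucc) := fun i =>
    Pool.Agent.N999.SX.ess_any _
  obtain ⟨n, hn⟩ : ∃ n, n = ∑ i, m i := ⟨_, rfl⟩
  obtain ⟨e⟩ : Nonempty (Fin n ≃ (i : Fin k) × Fin (m i)) := by
    rw [hn]
    exact ⟨finSigmaFinEquiv.symm⟩
  rw [← hn] at hK ⊢
  obtain ⟨E, hE⟩ : ∃ E, E = ⨆ i : Fin k, F i.castSucc := ⟨_, rfl⟩
  have hle : ∀ i : Fin k, F i.castSucc ≤ E := fun i => by
    rw [hE]
    exact le_iSup (fun i : Fin k => F i.castSucc) i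
  have hz := basis_zS x hle e hx hind hE
  have htrE := trdeg_basis hz
  have hsup' : E ⊔ F (Fin.last k) = ⊤ := by
    rw [eq_top_iff, ← hsup]
    refine iSup_le fun i => ?_
    induction i using Fin.lastCases with
    | last => exact le_sup_right
    | cast i => exact (hle i).trans le_sup_left
  obtain ⟨N, w, ⟨h1, h2, h3⟩, h4⟩ := dominated2 hsup' htrE hs hK hz (L := L)
    (fun L2 _ _ _ _ _ hL2 => sepHyp_prod hm hx hind hE hle e hsep (L := L2) fun l => by
      have h5 := hL2 (⋃ i ∈ Js k l.val, Set.range (algebraMap (F i.castSucc) K))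
        (F l.castSucc : Set K) (by
          intro z hz
          obtain ⟨i, -, y, rfl⟩ := Set.mem_iUnion₂.1 hz
          exact hle i y.2) (hle l)
      have h6 := hd l
      unfold MF MJ at h6 ⊢
      rw [h5]
      exact h6)
  refine ⟨N, w, ⟨h1, fun i z hz => h2 z (hle i hz), fun N' hcl hN' => h3 N' hcl fun z hz => ?_⟩,
    h4⟩
  have iNK : IsScalarTower N' L K := IsScalarTower.of_algebraMap_eq fun _ => rfl
  have h5 : E ≤ { (algebraicClosure N' K).toSubfield with
      algebraMap_mem' := fun c => by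
        change algebraMap ℂ K c ∈ algebraicClosure N' K
        rw [IsScalarTower.algebraMap_apply ℂ L K]
        exact (algebraicClosure N' K).algebraMap_mem (algebraMap ℂ N' c) } := by
    rw [hE]
    refine iSup_le fun i v hv => ?_
    change v ∈ algebraicClosure N' K
    rw [mem_algebraicClosure_iff]
    exact hN' i v hv
  exact mem_algebraicClosure_iff.1 (h5 hz)

end multi

end Pool.Agent.L7h62.MM
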