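import Pool.Agent.L7h62.MM.Alt
import Pool.Agent.N401.GP.TNF
import Pool.Agent.Y71.NT.Abh

/-!
Abhyankar's inequality and the lifts of vector fields over an arbitrary field of characteristic zero
(after `Pool.Agent.Y71.NT.Abh` and `Pool.Agent.N401.GP.TNF`).
-/

set_option autoImplicit false
set_option linter.all false

open Module FF Pool.Agent.W602.GT Pool.Agent.W603.LV Pool.Agent.W619.PQ Pool.Agent.Y172

namespace Pool.Agent.L7h62.MM

open Pool.Agent.Y721.NT (red_aeval)

section lift

variable {𝕜 K R : Type} [Field 𝕜] [Field K] [Field R] [Algebra 𝕜 K] [Algebra 𝕜 R] [Algebra K R]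
  [IsScalarTower 𝕜 K R]

/-- elements with algebraically independent residues are algebraically independent -/
theorem indep_lift {Q : Place 𝕜 R} {P : Place 𝕜 K} {e : ℕ} (h : Over Q P e) {ι : Type}
    (v : ι → R) (hv : ∀ i, Q.Reg (v i))
    (hind : ∀ G : MvPolynomial ι P.RF,
      MvPolynomial.eval₂ h.resMap.toRingHom (fun i => Q.red (v i)) G = 0 → G = 0) :
    AlgebraicIndependent K v := by
  classical
  rw [algebraicIndependent_iff]
  intro G hG
  by_contra hG0
  obtain ⟨m0, hm0, hmin⟩ := Finset.exists_min_image G.support (fun m => P.ord (G.coeff m))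
    (MvPolynomial.support_nonempty.2 hG0)
  set c := G.coeff m0 with hc
  have hc0 : c ≠ 0 := MvPolynomial.mem_support_iff.1 hm0
  set G1 := MvPolynomial.C c⁻¹ * G with hG1
  have hreg : ∀ m, P.Reg (G1.coeff m) := by
    intro m
    rw [hG1, MvPolynomial.coeff_C_mul]
    by_cases hm : G.coeff m = 0
    · rw [hm, mul_zero]
      exact P.reg_zero
    · right
      rw [P.ord_mul (inv_ne_zero hc0) hm, P.ord_inv]
      have := hmin m (MvPolynomial.mem_support_iff.2 hm)
      omega
  have h1 : G1 ∈ Set.range (MvPolynomial.map P.O.subtype) := by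
    rw [MvPolynomial.mem_range_map_iff_coeffs_subset]
    intro x hx
    rw [Finset.mem_coe, MvPolynomial.mem_coeffs_iff] at hx
    obtain ⟨m, -, rfl⟩ := hx
    exact ⟨⟨_, hreg m⟩, rfl⟩
  obtain ⟨G2, hG2⟩ := h1
  let φ : P.O →+* Q.O := ((algebraMap K R).comp P.O.subtype).codRestrict Q.O
    (fun f => h.reg.2 f.2)
  let v' : ι → Q.O := fun i => ⟨v i, hv i⟩
  have hE : MvPolynomial.eval₂ φ v' G2 = 0 := by
    apply Subtype.ext
    have h2 := MvPolynomial.eval₂_comp_left Q.O.subtype φ v' G2
    have h3 : Q.O.subtype.comp φ = (algebraMap K R).comp P.O.subtype := rfl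
    have h4 : (Q.O.subtype ∘ v') = v := rfl
    rw [h3, h4, ← MvPolynomial.eval₂_map, hG2, hG1, MvPolynomial.eval₂_mul,
      ← MvPolynomial.aeval_def (R := K) v G, hG, mul_zero] at h2
    exact h2
  have h5 := MvPolynomial.eval₂_comp_left Q.resHom φ v' G2
  have h6 : Q.resHom.comp φ = h.resMap.toRingHom.comp P.resHom := by
    ext f
    have h7 := h.resMap_red (f := (f : K)) f.2
    rw [P.red_of_reg f.2, Q.red_of_reg (h.reg.2 f.2)] at h7
    exact h7.symm
  have h8 : (Q.resHom ∘ v') = fun i => Q.red (v i) := by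
    funext i
    rw [Q.red_of_reg (hv i)]
    rfl
  rw [hE, map_zero, h6, h8, ← MvPolynomial.eval₂_map] at h5
  have h9 := hind _ h5.symm
  have h10 : G2.coeff m0 = 1 := by
    apply Subtype.ext
    have h11 : (MvPolynomial.map P.O.subtype G2).coeff m0 = P.O.subtype (G2.coeff m0) :=
      MvPolynomial.coeff_map _ _ _
    rw [hG2, hG1, MvPolynomial.coeff_C_mul, ← hc, inv_mul_cancel₀ hc0] at h11
    exact h11.symm
  have h12 : (MvPolynomial.map P.resHom G2).coeff m0 = P.resHom (G2.coeff m0) :=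
    MvPolynomial.coeff_map _ _ _
  rw [h9, h10, map_one, MvPolynomial.coeff_zero] at h12
  exact zero_ne_one h12

end lift

/-- a place with many algebraically independent residues is divisorial -/
theorem div_of_res {𝕜 K : Type} [Field 𝕜] [Field K] [Algebra 𝕜 K] {P : Place 𝕜 K} {n : ℕ}
    (m : Fin (n - 1) → P.RF) (hm : AlgebraicIndependent 𝕜 m) : Divisorial n P := by
  choose x hx hxm using fun i => P.red_surjective (m i)
  refine ⟨x, fun G hG => ?_⟩
  obtain ⟨h3, h4⟩ := red_aeval P x hx G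
  have h5 : MvPolynomial.aeval (fun i => P.red (x i)) G ≠ 0 := by
    intro h0
    apply hG
    have h6 : (fun i => P.red (x i)) = m := funext hxm
    rw [h6] at h0
    exact (injective_iff_map_eq_zero _).1 hm G h0
  rw [← h4, Ne, P.red_eq_zero_iff h3] at h5
  push Not at h5
  refine ⟨h5.1, ?_⟩
  have := (P.reg_iff h5.1).1 h3
  omega

/-- Abhyankar's inequality -/
theorem t_abh {𝕜 K R : Type} [Field 𝕜] [Field K] [Field R] [Algebra 𝕜 K] [Algebra 𝕜 R]
    [Algebra K R] [IsScalarTower 𝕜 K R] {n N : ℕ} (hn : Algebra.trdeg 𝕜 K = n)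
    (hN : Algebra.trdeg 𝕜 R = N) {Q : Place 𝕜 R} {P : Place 𝕜 K} {e : ℕ} (h : Over Q P e)
    (hdiv : Divisorial N Q) : Divisorial n P := by
  classical
  let _ : Algebra P.RF Q.RF := h.resMap.toRingHom.toAlgebra
  have hmap : ∀ x : P.RF, algebraMap P.RF Q.RF x = h.resMap x := fun x => rfl
  have hst : IsScalarTower 𝕜 P.RF Q.RF :=
    IsScalarTower.of_algebraMap_eq fun c => (h.resMap.commutes c).symm
  -- the transcendence degrees
  have e1 : Algebra.trdeg 𝕜 K + Algebra.trdeg K R = Algebra.trdeg 𝕜 R :=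
    _root_.trdeg_add_eq 𝕜 K (A := R)
  have e2 : Algebra.trdeg 𝕜 P.RF + Algebra.trdeg P.RF Q.RF = Algebra.trdeg 𝕜 Q.RF :=
    _root_.trdeg_add_eq 𝕜 P.RF (A := Q.RF)
  have hQ : ((N - 1 : ℕ) : Cardinal) ≤ Algebra.trdeg 𝕜 Q.RF := by
    obtain ⟨u, hu⟩ := hdiv
    have hreg : ∀ i, Q.Reg (u i) := by
      intro i
      have h1 := (hu (MvPolynomial.X i) (MvPolynomial.X_ne_zero i)).2
      rw [MvPolynomial.aeval_X] at h1
      exact Or.inr h1.ge
    have hind : AlgebraicIndependent 𝕜 (fun i => Q.red (u i)) := by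
      rw [algebraicIndependent_iff]
      intro G hG
      by_contra hG0
      obtain ⟨h1, h2⟩ := hu G hG0
      have h3 := (red_aeval Q u hreg G).2
      rw [hG] at h3
      exact Q.red_ne_zero h1 h2 h3
    have h4 := hind.cardinalMk_le_trdeg
    rwa [Cardinal.mk_fin] at h4
  have hPQ : Algebra.trdeg P.RF Q.RF ≤ Algebra.trdeg K R := by
    obtain ⟨s, hs⟩ := exists_isTranscendenceBasis P.RF Q.RF
    choose v hv hvs using fun i : s => Q.red_surjective (i : Q.RF)
    have h1 : AlgebraicIndependent K v := by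
      refine indep_lift h v hv fun G hG => ?_
      have h2 : (fun i => Q.red (v i)) = fun i : s => (i : Q.RF) := funext hvs
      rw [h2] at hG
      have h3 := hs.1
      rw [algebraicIndependent_iff] at h3
      exact h3 G hG
    rw [← hs.cardinalMk_eq_trdeg]
    exact h1.cardinalMk_le_trdeg
  have hlt : Algebra.trdeg K R < Cardinal.aleph0 := by
    refine lt_of_le_of_lt ?_ (Cardinal.natCast_lt_aleph0 (n := N))
    rw [← hN, ← e1]
    exact self_le_add_left _ _
  obtain ⟨r, hr⟩ := Cardinal.lt_aleph0.1 hlt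
  have hnr : n + r = N := by
    rw [hn, hN, hr] at e1
    exact_mod_cast e1
  have hle : ((n - 1 : ℕ) : Cardinal) ≤ Algebra.trdeg 𝕜 P.RF := by
    rcases Nat.eq_zero_or_pos n with h0 | h0
    · rw [h0]
      simp
    · rw [← Cardinal.add_le_add_iff_of_lt_aleph0 hlt]
      have h2 : ((n - 1 : ℕ) : Cardinal) + Algebra.trdeg K R = ((N - 1 : ℕ) : Cardinal) := by
        rw [hr]
        have : n - 1 + r = N - 1 := by omega
        exact_mod_cast this
      rw [h2]
      refine hQ.trans ?_
      rw [← e2]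
      gcongr
  -- the residues
  obtain ⟨s, hs⟩ := exists_isTranscendenceBasis 𝕜 P.RF
  rw [← hs.cardinalMk_eq_trdeg, ← Cardinal.mk_fin, Cardinal.le_def] at hle
  obtain ⟨f⟩ := hle
  exact div_of_res (fun i => ((f i : s) : P.RF)) (hs.1.comp f f.injective)


section

variable {𝕜 L K' : Type} [Field 𝕜] [CharZero 𝕜] [Field L] [Algebra 𝕜 L] [Field K'] [Algebra 𝕜 K']
  [Algebra L K'] [IsScalarTower 𝕜 L K'] [FiniteDimensional L K'] [Algebra.EssFiniteType 𝕜 L]
  [Algebra.EssFiniteType 𝕜 K'] {w : ℕ}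

/-- the lift of the transversal field of a local frame has a mild pole -/
theorem lift_mild (hw : Algebra.trdeg 𝕜 L = w) {P : Place 𝕜 L} {Q : Place 𝕜 K'} {e : ℕ}
    (h : Over Q P e) (hP : Divisorial w P) {z : Fin w → L} {E : Fin w → Derivation 𝕜 L L}
    {i0 : Fin w} (hl : Loc P z E i0) {E' : Fin w → Derivation 𝕜 K' K'}
    (hE' : ∀ i f, E' i (algebraMap L K' f) = algebraMap L K' (E i f)) (k : Fin w) :
    ∃ (c : K') (G : Derivation 𝕜 K' K'), E' k = c • G ∧ DerReg Q G ∧
      Ge Q (if k = i0 then 1 - (e : ℤ) else 0) c := by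
  classical
  have hlog : ∀ i, DerLog Q (algebraMap L K' (lc z i0 i) • E' i) := fun i =>
    lift_log h (hl.log i) fun f => by
      change algebraMap L K' (lc z i0 i) * E' i (algebraMap L K' f) =
        algebraMap L K' (lc z i0 i * E i f)
      rw [hE', map_mul]
  by_cases hk : k = i0
  swap
  · refine ⟨1, E' k, by rw [one_smul], ?_, ?_⟩
    · intro f hf
      have h1 := hlog k
      have h2 : lc z i0 k = 1 := by
        unfold lc
        rw [if_neg hk]
      rw [h2, map_one, one_smul] at h1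
      exact DerLog.ge h1 hf
    · rw [if_neg hk]
      exact Ge.one
  have hK' : Algebra.trdeg 𝕜 K' = w := trdeg_up (K := L) hw
  have hQ : Divisorial w Q := divisorial_up h hP
  obtain ⟨x, F, j0, hx⟩ := exists_loc hK' hQ
  obtain ⟨A, hA⟩ : ∃ A : Matrix (Fin w) (Fin w) K', A = Matrix.of fun j k =>
    F j (algebraMap L K' (z k)) := ⟨_, rfl⟩
  obtain ⟨B, hB⟩ : ∃ B : Matrix (Fin w) (Fin w) K', B = Matrix.of fun k j => E' k (x j) :=
    ⟨_, rfl⟩
  have hexp : ∀ k f, E' k f = ∑ j, E' k (x j) * F j f := by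
    intro k f
    have h1 := Pool.Agent.W73.PG.PULL.expand x hx.bas F hx.dual (E' k)
    conv_lhs => rw [← h1]
    rw [Pool.Agent.W73.PG.PULL.sum_app]
    rfl
  have hBA : B * A = 1 := by
    ext k l
    rw [Matrix.mul_apply, Matrix.one_apply, hA, hB]
    change ∑ j, E' k (x j) * F j (algebraMap L K' (z l)) = _
    rw [← hexp]
    exact lift_dual hl.dual hE' k l
  have hAB : A * B = 1 := mul_eq_one_comm.1 hBA
  have hdet : B.det * A.det = 1 := by rw [← Matrix.det_mul, hBA, Matrix.det_one]
  have hadj : A.adjugate = A.det • B := by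
    calc A.adjugate = A.adjugate * (A * B) := by rw [hAB, mul_one]
      _ = (A.adjugate * A) * B := by rw [mul_assoc]
      _ = A.det • B := by rw [Matrix.adjugate_mul, smul_mul_assoc, one_mul]
  have hAr : ∀ i j, Ge Q 0 (A i j) := by
    intro i j
    rw [hA]
    exact hx.pres i _ (h.reg.2 (hl.reg j))
  have hadjr : ∀ i j, Ge Q 0 (A.adjugate i j) := by
    intro i j
    rw [Matrix.adjugate_apply]
    refine Pool.Agent.W619.PQ.ge_det Q _ fun a b => ?_
    rw [Matrix.updateRow_apply]
    split_ifs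
    · rw [Pi.single_apply]
      split_ifs
      · exact Ge.one
      · exact Ge.zero
    · exact hAr a b
  have hs0 : algebraMap L K' (z i0) ≠ 0 := by
    rw [Ne, map_eq_zero]
    exact hl.ne
  have hs : Q.ord (algebraMap L K' (z i0)) = e := by
    rw [h.2, hl.unif, mul_one]
  have hBdet : Ge Q (1 - (e : ℤ)) B.det := by
    have h2 : Ge Q 1 (Matrix.of fun i j =>
        (algebraMap L K' (lc z i0 i) • E' i) (x j) : Matrix (Fin w) (Fin w) K').det := by
      rw [← Matrix.det_transpose]
      refine Pool.Agent.W603.LV.ge_det Q _ 1 (fun a _ => if a = j0 then 1 else 0)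
        (fun a b => ?_) fun σ => ?_
      · change Ge Q (if a = j0 then 1 else 0) ((algebraMap L K' (lc z i0 b) • E' b) (x a))
        split_ifs with ha
        · rw [ha]
          exact DerLog.ge (hlog b) (Or.inr (by rw [hx.unif]))
        · exact DerLog.ge (hlog b) (hx.reg a)
      · have h3 : ∑ i, (if σ i = j0 then (1 : ℤ) else 0) = 1 := by
          rw [Finset.sum_eq_single (σ.symm j0)]
          · simp
          · intro i _ hi
            rw [if_neg]
            intro h
            exact hi (by rw [← h]; simp)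
          · intro h
            exact absurd (Finset.mem_univ _) h
        exact h3.ge
    have h3 : (Matrix.of fun i j =>
        (algebraMap L K' (lc z i0 i) • E' i) (x j) : Matrix (Fin w) (Fin w) K').det =
        algebraMap L K' (z i0) * B.det := by
      have h4 := Matrix.det_mul_column (fun i => algebraMap L K' (lc z i0 i)) B
      rw [← map_prod, prod_lc, hB] at h4
      rw [hB]
      exact h4
    rw [h3] at h2
    refine Ge.of_mul' hs0 hs ?_
    rwa [sub_add_cancel]
  have hcoef : ∀ j, Ge Q (1 - (e : ℤ)) (E' k (x j)) := by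
    intro j
    have h1 : E' k (x j) = B.det * A.adjugate k j := by
      rw [hadj, Matrix.smul_apply, smul_eq_mul, ← mul_assoc, hdet, one_mul, hB]
      rfl
    rw [h1]
    simpa using hBdet.mul (hadjr k j)
  obtain ⟨c, hc⟩ : ∃ c : K', c = x j0 / algebraMap L K' (z i0) := ⟨_, rfl⟩
  have hx0 : x j0 ≠ 0 := hx.ne
  have hc0 : c ≠ 0 := by
    rw [hc]
    exact div_ne_zero hx0 hs0
  have hco : Q.ord c = 1 - e := by
    rw [hc, Q.ord_div hx0 hs0, hx.unif, hs]
  refine ⟨c, c⁻¹ • E' k, ?_, ?_, ?_⟩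
  · rw [smul_smul, mul_inv_cancel₀ hc0, one_smul]
  · intro f hf
    change Ge Q 0 (c⁻¹ * E' k f)
    rw [hexp, Finset.mul_sum]
    refine Ge.sum _ _ fun j _ => ?_
    have h1 : Ge Q (-(1 - (e : ℤ))) c⁻¹ := Or.inr (by rw [Q.ord_inv, hco])
    have h2 : Ge Q 0 (F j f) := hx.pres j f hf
    have h3 := h1.mul ((hcoef j).mul h2)
    rwa [add_zero, neg_add_cancel] at h3
  · rw [if_pos hk]
    exact Or.inr hco.ge


end

end Pool.Agent.L7h62.MM
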