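import Pool.Agent.L7h62.MM.Desc

/-!
Regular forms over a rational function field of constants.
-/

set_option autoImplicit false
set_option linter.all false

open Module FF MvPolynomial Pool.Agent.Y166.LT
open Pool.Agent.W602.GT (DerReg Divisorial)

namespace Pool.Agent.L7h62.MM

section

variable {N L2 k : Type} [Field N] [Field L2] [Field k] [Algebra ℂ N] [Algebra ℂ L2] [Algebra ℂ k]
  [Algebra k L2] [Algebra N L2] [IsScalarTower ℂ N L2] [IsScalarTower ℂ k L2] {q w j : ℕ}

/-- **Descent of regular forms to the field of definition.** -/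
theorem low {t : Fin q → L2} (ht : AlgebraicIndependent N t)
    (htop : IntermediateField.adjoin N (Set.range t) = ⊤) {tk : Fin q → k}
    (htk : ∀ i, algebraMap k L2 (tk i) = t i)
    (hktop : IntermediateField.adjoin ℂ (Set.range tk) = ⊤)
    (CN : Crd ℂ N (Fin w)) (CZ : Crd k L2 (Fin w))
    (hz : ∀ a, CZ.z a = algebraMap N L2 (CN.z a)) {Θ : Frm k L2 (Fin j)}
    (hΘ : ∀ P : Place k L2, Divisorial w P → RegF Θ P) :
    ∃ h : MvPolynomial (Fin q) ℂ, h ≠ 0 ∧ ∃ (T : Finset (Fin q →₀ ℕ))
      (Φ : (Fin q →₀ ℕ) → Frm ℂ N (Fin j)),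
      (∀ μ, ∀ P : Place ℂ N, Divisorial (Fintype.card (Fin w)) P → RegF (Φ μ) P) ∧
      ∀ J : Fin j → Fin w, Θ (fun i => CZ.E (J i)) * aeval t h =
        ∑ μ ∈ T, aeval t (monomial μ (1 : ℂ)) * algebraMap N L2 (Φ μ fun i => CN.E (J i)) := by
  classical
  have hck : CharZero k := charZero_of_injective_algebraMap (algebraMap ℂ k).injective
  have hindC : AlgebraicIndependent ℂ t := ht.restrictScalars (algebraMap ℂ N).injective
  have hae : ∀ G : MvPolynomial (Fin q) ℂ, algebraMap k L2 (aeval tk G) = aeval t G := by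
    intro G
    rw [← MvPolynomial.aeval_algebraMap_apply]
    congr 2
    funext l
    exact htk l
  have hindk : AlgebraicIndependent ℂ tk := by
    intro A B hAB
    apply hindC
    rw [← hae, ← hae, hAB]
  -- places which are trivial on `k`
  have htriv : ∀ v : Place ℂ L2, (∀ h : MvPolynomial (Fin q) ℂ, h ≠ 0 → v.ord (aeval t h) = 0) →
      ∀ b : k, b ≠ 0 → v.ord (algebraMap k L2 b) = 0 := by
    intro v hv b hb
    obtain ⟨A, B, hB, hAB⟩ := Pool.Agent.Y36.LT.frac_of_adjoin tk hktop hindk b
    have hA : A ≠ 0 := by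
      rintro rfl
      rw [map_zero, zero_div] at hAB
      exact hb hAB
    have hne : ∀ G : MvPolynomial (Fin q) ℂ, G ≠ 0 → aeval t G ≠ 0 := fun G hG =>
      ael_ne hindC hG
    rw [hAB, map_div₀, hae, hae, v.ord_div (hne A hA) (hne B hB), hv A hA, hv B hB, sub_zero]
  have hkL : Algebra.trdeg k L2 = (w : ℕ) := by
    rw [CZ.trdeg, Fintype.card_fin]
  have hkk : Algebra.trdeg ℂ k = (q : ℕ) := by
    have h1 : IsTranscendenceBasis ℂ tk := by
      refine hindk.isTranscendenceBasis_iff_isAlgebraic.2 ?_
      refine Pool.Agent.W619.PQ.alg_adjoin fun z => ?_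
      exact isAlgebraic_algebraMap
        (⟨z, by rw [hktop]; trivial⟩ : IntermediateField.adjoin ℂ (Set.range tk))
    rw [← h1.cardinalMk_eq_trdeg, Cardinal.mk_fin]
  have hCL : Algebra.trdeg ℂ L2 = (q + w : ℕ) := by
    have e1 : Algebra.trdeg ℂ k + Algebra.trdeg k L2 = Algebra.trdeg ℂ L2 :=
      _root_.trdeg_add_eq ℂ k (A := L2)
    rw [← e1, hkk, hkL]
    push_cast
    rfl
  have hch : ∀ (D : Derivation k L2 L2) (a : N), D (algebraMap N L2 a) =
      ∑ c, D (CZ.z c) * algebraMap N L2 (CN.E c a) := by
    intro D a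
    have h1 := chainA CN (emb ℂ N L2) (D.restrictScalars ℂ) a
    refine h1.trans (Finset.sum_congr rfl fun c _ => ?_)
    rw [hz]
    rfl
  have hDt : ∀ (D : Derivation k L2 L2) i, D (t i) = 0 := by
    intro D i
    rw [← htk]
    exact D.map_algebraMap _
  have hanti : Anti fun J : Fin j → Fin w => Θ fun i => CZ.E (J i) := by
    intro J a b hab
    have h1 := Θ.map_swap (fun i => CZ.E (J i)) hab
    exact h1
  refine base_change CN ht htop hanti ?_ ?_
  · intro f hf hnc v hv J
    obtain ⟨v', hv'⟩ : ∃ v' : Place ℂ L2, v' = Place.lower ℂ v := ⟨_, rfl⟩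
    have h0 : ∀ f, v'.ord f = v.ord f := fun f => by
      rw [hv']
      rfl
    have h1 : Divisorial (q + w) v' := by
      have := pl_div ht CN.bas.1 h0 hf hv
      rwa [Fintype.card_fin] at this
    have h2 : ∀ h : MvPolynomial (Fin q) ℂ, h ≠ 0 → v'.ord (aeval t h) = 0 := by
      intro h hh
      have h3 := hv.2 _ (hnc h hh)
      rwa [aeval_map_algebraMap, ← h0] at h3
    obtain ⟨V, hV⟩ : ∃ V : Place k L2, V = Place.raise v' (htriv v' h2) := ⟨_, rfl⟩
    have hVo : ∀ f, V.ord f = v.ord f := fun f => by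
      rw [hV]
      exact h0 f
    have hVd : Divisorial w V := by
      rw [hV]
      exact div_raise hCL hkL h1 (htriv v' h2)
    have h4 := hΘ V hVd (fun i => CZ.E (J i)) fun i => by
      refine der_pl ht htop hVo hf hv (fun l => ?_) fun a => ?_
      · rw [hDt]
        exact V.reg_zero
      · rw [hch]
        refine reg_sum _ _ _ fun c _ => V.reg_mul ?_ ?_
        · rw [CZ.dual]
          split_ifs
          · exact V.reg_one
          · exact V.reg_zero
        · have h5 := v.reg_const (CN.E c a)
          rcases h5 with h5 | h5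
          · exact Or.inl h5
          · right
            rw [hVo]
            exact h5
    rcases h4 with h4 | h4
    · exact Or.inl h4
    · right
      rw [← hVo]
      exact h4
  · intro P hP u hu δ hδ
    have h2 : ∀ h : MvPolynomial (Fin q) ℂ, h ≠ 0 → u.ord (aeval t h) = 0 := by
      intro h hh
      have h3 := gauss_const (k₀ := ℂ) hu hh
      rwa [aeval_map_algebraMap] at h3
    have hP' : Divisorial w P := by rwa [Fintype.card_fin] at hP
    have h1 : Divisorial (q + w) u := gauss_div ht hu hP'
    obtain ⟨V, hV⟩ : ∃ V : Place k L2, V = Place.raise u (htriv u h2) := ⟨_, rfl⟩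
    have hVo : ∀ f, V.ord f = u.ord f := fun f => by
      rw [hV]
      rfl
    have hVd : Divisorial w V := by
      rw [hV]
      exact div_raise hCL hkL h1 (htriv u h2)
    obtain ⟨D, hD⟩ : ∃ D : Fin j → Derivation k L2 L2, D = fun i =>
        ∑ b, algebraMap N L2 (δ i (CN.z b)) • CZ.E b := ⟨_, rfl⟩
    have hval : ∀ i (f : L2), D i f = ∑ b, algebraMap N L2 (δ i (CN.z b)) * CZ.E b f := by
      intro i f
      rw [hD]
      change (∑ b, algebraMap N L2 (δ i (CN.z b)) • CZ.E b) f = _
      rw [der_sum_apply]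
      rfl
    have hDz : ∀ i b, D i (CZ.z b) = algebraMap N L2 (δ i (CN.z b)) := by
      intro i b
      rw [hval, Finset.sum_eq_single b]
      · rw [CZ.dual, if_pos rfl, mul_one]
      · intro b' _ hb'
        rw [CZ.dual, if_neg hb', mul_zero]
      · intro h
        exact absurd (Finset.mem_univ _) h
    have h3 : Θ D = ∑ J : Fin j → Fin w, Θ (fun i => CZ.E (J i)) *
        algebraMap N L2 (∏ i, δ i (CN.z (J i))) := by
      rw [hD, frm_expand]
      refine Finset.sum_congr rfl fun J _ => ?_
      rw [mul_comm, map_prod]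
    rw [← h3]
    have h4 := hΘ V hVd D fun i => by
      refine der_gauss ht htop hu hVo (fun l => ?_) fun a ha => ?_
      · rw [hDt]
        exact V.reg_zero
      · have h5 : D i (algebraMap N L2 a) = algebraMap N L2 (δ i a) := by
          rw [hch]
          conv_rhs => rw [← expandD CN (δ i)]
          rw [der_sum_apply, map_sum]
          refine Finset.sum_congr rfl fun c _ => ?_
          rw [hDz, ← map_mul]
          rfl
        rw [h5]
        rcases hδ i a ha with h6 | h6
        · rw [h6, map_zero]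
          exact V.reg_zero
        · right
          rw [hVo, hu.ord]
          exact h6
    rcases h4 with h4 | h4
    · exact Or.inl h4
    · right
      rw [← hVo]
      exact h4

end

end Pool.Agent.L7h62.MM
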