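import Pool.Agent.L7h62.MM.Gen

/-!
Regular forms: pull-backs and traces.
-/

set_option autoImplicit false
set_option linter.all false

open Module FF Pool.Agent.W602.GT Pool.Agent.W603.LV Pool.Agent.W619.PQ Pool.Agent.Y172

namespace Pool.Agent.L7h62.MM

section

variable {k L : Type} [Field k] [Field L] [Algebra k L] {ι : Type}

/-- the form is regular at `P` -/
def RegF (θ : Frm k L ι) (P : Place k L) : Prop :=
  ∀ D : ι → Derivation k L L, (∀ i, DerReg P (D i)) → P.Reg (θ D)

theorem reg_sum {J : Type} (P : Place k L) (s : Finset J) (f : J → L) (h : ∀ j ∈ s, P.Reg (f j)) :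
    P.Reg (∑ j ∈ s, f j) := by
  classical
  induction s using Finset.induction_on with
  | empty => rw [Finset.sum_empty]; exact P.reg_zero
  | insert a s ha ih =>
    rw [Finset.sum_insert ha]
    exact P.reg_add (h a (Finset.mem_insert_self _ _))
      (ih fun j hj => h j (Finset.mem_insert_of_mem hj))

theorem reg_prod {J : Type} (P : Place k L) (s : Finset J) (f : J → L) (h : ∀ j ∈ s, P.Reg (f j)) :
    P.Reg (∏ j ∈ s, f j) := by
  classical
  induction s using Finset.induction_on with
  | empty => rw [Finset.prod_empty]; exact P.reg_one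
  | insert a s ha ih =>
    rw [Finset.prod_insert ha]
    exact P.reg_mul (h a (Finset.mem_insert_self _ _))
      (ih fun j hj => h j (Finset.mem_insert_of_mem hj))

end

section up

variable {k L K : Type} [Field k] [CharZero k] [Field L] [Field K] [Algebra k L] [Algebra k K]
  [Algebra L K] [IsScalarTower k L K] {I : Type} [Fintype I] [DecidableEq I]
  {ι : Type} [Fintype ι] [DecidableEq ι]

theorem Crd.trdeg (C : Crd k L I) : Algebra.trdeg k L = (Fintype.card I : ℕ) := by
  rw [← C.bas.cardinalMk_eq_trdeg]
  simp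

/-- `K` over `k` as an algebra over `L` -/
noncomputable abbrev emb (k L K : Type) [Field k] [Field L] [Field K] [Algebra k L] [Algebra k K]
    [Algebra L K] [IsScalarTower k L K] : L →ₐ[k] K := IsScalarTower.toAlgHom k L K

/-- a derivation of the larger field is determined by its restriction -/
theorem lift_unique [Algebra.IsAlgebraic L K] (C : Crd k L I) {D₁ D₂ : Derivation k K K}
    (h : ∀ f : L, D₁ (algebraMap L K f) = D₂ (algebraMap L K f)) : D₁ = D₂ := by
  have hK : IsTranscendenceBasis k (algebraMap L K ∘ C.z) := C.bas.algebraMap_comp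
  ext f
  have h1 := der_zero' hK (AlgHom.id k K) (D₁ - D₂) (fun i => by
    change D₁ (algebraMap L K (C.z i)) - D₂ (algebraMap L K (C.z i)) = 0
    rw [h, sub_self]) f
  exact sub_eq_zero.1 h1

variable [FiniteDimensional L K]

/-- the lifts of the coordinates -/
noncomputable def Crd.up (C : Crd k L I) (K : Type) [Field K] [Algebra k K]
    [Algebra L K] [IsScalarTower k L K] [FiniteDimensional L K] : Crd k K I where
  z := fun i => algebraMap L K (C.z i)
  E := fun i => (Pool.Agent.Y172.exists_lift (L := K) C.trdeg (C.E i)).choose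
  bas := C.bas.algebraMap_comp
  dual := fun i j => by
    rw [(Pool.Agent.Y172.exists_lift (L := K) C.trdeg (C.E i)).choose_spec, C.dual]
    split_ifs
    · rw [map_one]
    · rw [map_zero]

theorem Crd.up_E (C : Crd k L I) (i : I) (f : L) :
    (C.up K).E i (algebraMap L K f) = algebraMap L K (C.E i f) :=
  (Pool.Agent.Y172.exists_lift (L := K) C.trdeg (C.E i)).choose_spec f

/-- the trace of a form -/
noncomputable def trF (C : Crd k L I) (θ : Frm k K ι) : Frm k L ι :=
  mkF C.z (fun κ => Algebra.trace L K (θ fun i => (C.up K).E (κ i))) (by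
    intro κ a b hab
    have h1 := θ.map_swap (fun i => (C.up K).E (κ i)) hab
    change Algebra.trace L K (θ ((fun i => (C.up K).E (κ i)) ∘ Equiv.swap a b)) = _
    rw [h1, map_neg])

theorem up_expand (C : Crd k L I) {D : Derivation k L L} {D' : Derivation k K K}
    (h : ∀ f, D' (algebraMap L K f) = algebraMap L K (D f)) :
    D' = ∑ j, algebraMap L K (D (C.z j)) • (C.up K).E j := by
  have h1 := expandD (C.up K) D'
  rw [← h1]
  refine Finset.sum_congr rfl fun j _ => ?_
  congr 1
  exact h _

theorem trF_apply (C : Crd k L I) (θ : Frm k K ι) {D : ι → Derivation k L L}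
    {D' : ι → Derivation k K K} (h : ∀ i f, D' i (algebraMap L K f) = algebraMap L K (D i f)) :
    trF C θ D = Algebra.trace L K (θ D') := by
  have h1 : D' = fun i => ∑ j, algebraMap L K (D i (C.z j)) • (C.up K).E j := by
    funext i
    exact up_expand C (h i)
  rw [h1, frm_expand, map_sum]
  refine (mkF_apply _ _ _ _).trans (Finset.sum_congr rfl fun κ _ => ?_)
  rw [← map_prod, ← Algebra.smul_def, map_smul, smul_eq_mul, mul_comm]

/-- the trace as a sum over the embeddings -/
theorem trF_embed {Ω : Type} [Field Ω] [Algebra k Ω] [Algebra L Ω] [IsScalarTower k L Ω]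
    [IsAlgClosed Ω] {J : Type} [Fintype J] [DecidableEq J] (C : Crd k L I) (CK : Crd k K J)
    (θ : Frm k K ι) (D : ι → Derivation k Ω Ω) :
    extF C (emb k L Ω) (trF C θ) D = ∑ σ : K →ₐ[L] Ω, extF CK (σ.restrictScalars k) θ D := by
  have hc : CharZero L := charZero_of_injective_algebraMap (algebraMap k L).injective
  rw [extF_apply]
  have h1 : ∀ σ : K →ₐ[L] Ω, extF CK (σ.restrictScalars k) θ D =
      ∑ κ : ι → I, σ (θ fun i => (C.up K).E (κ i)) * ∏ i, D i (algebraMap L Ω (C.z (κ i))) := by
    intro σ
    rw [extF_crd CK (C.up K), extF_apply]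
    refine Finset.sum_congr rfl fun κ _ => ?_
    congr 1
    refine Finset.prod_congr rfl fun i _ => ?_
    congr 1
    exact σ.commutes _
  rw [Finset.sum_congr rfl fun σ _ => h1 σ, Finset.sum_comm]
  refine Finset.sum_congr rfl fun κ _ => ?_
  rw [← Finset.sum_mul]
  congr 1
  have h2 : trF C θ (fun i => C.E (κ i)) = Algebra.trace L K (θ fun i => (C.up K).E (κ i)) :=
    trF_apply C θ fun i f => C.up_E _ _
  rw [h2]
  exact trace_eq_sum_embeddings (K := L) (L := K) Ω

end up

section reg

variable {k L K : Type} [Field k] [CharZero k] [Field L] [Field K] [Algebra k L] [Algebra k K]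
  [Algebra L K] [IsScalarTower k L K] {I : Type} [Fintype I] [DecidableEq I]
  {ι : Type} [Fintype ι] [DecidableEq ι] [Algebra.EssFiniteType k L]

/-- **Pull-backs of regular forms are regular.** -/
theorem extF_reg (C : Crd k L I) {N : ℕ} (hK : Algebra.trdeg k K = N) {θ : Frm k L ι}
    (hθ : ∀ P : Place k L, Divisorial (Fintype.card I) P → RegF θ P) {Q : Place k K}
    (hQ : Divisorial N Q) : RegF (extF C (emb k L K) θ) Q := by
  intro D hD
  by_cases htriv : ∃ f : L, Q.ord (algebraMap L K f) ≠ 0
  · obtain ⟨e, P, hP⟩ := exists_over Q htriv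
    have hPd : Divisorial (Fintype.card I) P := t_abh C.trdeg hK hP hQ
    obtain ⟨y, E, i0, hloc⟩ := exists_loc C.trdeg hPd
    rw [extF_crd C ⟨y, E, hloc.bas, hloc.dual⟩, extF_apply]
    refine reg_sum Q _ _ fun κ _ => Q.reg_mul ?_ (reg_prod Q _ _ fun i _ => ?_)
    · exact hP.reg.2 (hθ P hPd _ fun i => hloc.pres _)
    · exact hD i _ (hP.reg.2 (hloc.reg _))
  · push Not at htriv
    have h0 : ∀ f : L, Q.Reg (algebraMap L K f) := fun f => Or.inr (htriv f).ge
    rw [extF_apply]
    exact reg_sum Q _ _ fun κ _ => Q.reg_mul (h0 _) (reg_prod Q _ _ fun i _ => hD i _ (h0 _))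

variable [FiniteDimensional L K] [Algebra.EssFiniteType k K]

/-- **Traces of regular forms are regular.** -/
theorem trF_reg (C : Crd k L I) {θ : Frm k K ι} {P : Place k L}
    (hP : Divisorial (Fintype.card I) P)
    (hθ : ∀ (Q : Place k K) (e : ℕ), Over Q P e → RegF θ Q) : RegF (trF C θ) P := by
  intro D hD
  obtain ⟨y, E, i0, hloc⟩ := exists_loc C.trdeg hP
  obtain ⟨Cl, hCl⟩ : ∃ Cl : Crd k L (Fin (Fintype.card I)), Cl = ⟨y, E, hloc.bas, hloc.dual⟩ :=
    ⟨_, rfl⟩
  have h1 : D = fun i => ∑ j, D i (Cl.z j) • Cl.E j := by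
    funext i
    exact (expandD Cl (D i)).symm
  rw [h1, frm_expand]
  refine reg_sum P _ _ fun κ _ => P.reg_mul (reg_prod P _ _ fun i _ => ?_) ?_
  · rw [hCl]
    exact hD i _ (hloc.reg _)
  · by_cases hκ : Function.Injective κ
    · rw [trF_apply C θ (D' := fun i => (Cl.up K).E (κ i)) fun i f => Cl.up_E _ _]
      refine Pool.Agent.Y692.NT.trace_reg P _ fun Q e hQe => ?_
      choose c G h2 h3 h4 using fun i => lift_mild (K' := K) C.trdeg hQe hP hloc
        (E' := (Cl.up K).E) (fun i f => by
          have := Cl.up_E (K := K) i f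
          rw [hCl] at this ⊢
          exact this) i
      have h5 : (fun i => (Cl.up K).E (κ i)) = fun i => c (κ i) • G (κ i) := by
        funext i
        exact h2 _
      rw [h5]
      have h6 : θ (fun i => c (κ i) • G (κ i)) = (∏ i, c (κ i)) * θ fun i => G (κ i) := by
        change θ.toMultilinearMap _ = _
        rw [MultilinearMap.map_smul_univ]
        rfl
      rw [h6]
      have h7 : Ge Q (1 - (e : ℤ)) (∏ i, c (κ i)) := by
        have h8 := Ge.prod (P := Q) Finset.univ (fun i => c (κ i))
          (fun i => if κ i = i0 then 1 - (e : ℤ) else 0) fun i _ => h4 (κ i)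
        refine h8.mono ?_
        have he : (1 : ℤ) ≤ e := by exact_mod_cast hQe.1
        by_cases hex : ∃ i1, κ i1 = i0
        · obtain ⟨i1, hi1⟩ := hex
          rw [Finset.sum_eq_single i1]
          · rw [if_pos hi1]
          · intro i _ hi
            rw [if_neg]
            intro h9
            exact hi (hκ (h9.trans hi1.symm))
          · intro h9
            exact absurd (Finset.mem_univ _) h9
        · push Not at hex
          rw [Finset.sum_eq_zero fun i _ => if_neg (hex i)]
          omega
      have h10 : Ge Q 0 (θ fun i => G (κ i)) := hθ Q e hQe _ fun i => h3 _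
      simpa using h7.mul h10
    · left
      unfold Function.Injective at hκ
      push Not at hκ
      obtain ⟨i, j, hij, hne'⟩ := hκ
      exact (trF C θ).map_eq_zero_of_eq _ (by rw [hij]) hne'

end reg

end Pool.Agent.L7h62.MM
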