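import Pool.Agent.L7h62.MM.BC3

/-!
Change of the field of constants of a divisorial place.
-/

set_option autoImplicit false
set_option linter.all false

open Module FF MvPolynomial
open Pool.Agent.W602.GT (DerReg Divisorial)

namespace Pool.Agent.L7h62.MM

section

variable {k B L : Type} [Field k] [Field B] [Field L] [Algebra k B] [Algebra k L] [Algebra B L]
  [IsScalarTower k B L]

/-- a place which is trivial on a larger field of constants -/
def Place.raise (v : Place k L) (h : ∀ b : B, b ≠ 0 → v.ord (algebraMap B L b) = 0) :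
    Place B L where
  ord := v.ord
  ord_zero := v.ord_zero
  ord_mul := v.ord_mul
  ord_add := v.ord_add
  ord_const := by
    intro c hc
    exact h c hc
  surj := v.surj

open Pool.Agent.Y721.NT (red_aeval) in
theorem div_raise {N M : ℕ} (hN : Algebra.trdeg k L = N) (hM : Algebra.trdeg B L = M)
    {v : Place k L} (hv : Divisorial N v)
    (h : ∀ b : B, b ≠ 0 → v.ord (algebraMap B L b) = 0) : Divisorial M (Place.raise v h) := by
  classical
  let V : Place B L := Place.raise v h
  letI : Algebra k V.RF := ((algebraMap B V.RF).comp (algebraMap k B)).toAlgebra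
  have hst : IsScalarTower k B V.RF := IsScalarTower.of_algebraMap_eq fun c => rfl
  have e1 : Algebra.trdeg k B + Algebra.trdeg B L = Algebra.trdeg k L :=
    _root_.trdeg_add_eq k B (A := L)
  have e2 : Algebra.trdeg k B + Algebra.trdeg B V.RF = Algebra.trdeg k V.RF :=
    _root_.trdeg_add_eq k B (A := V.RF)
  have hlt : Algebra.trdeg k B < Cardinal.aleph0 := by
    refine lt_of_le_of_lt ?_ (Cardinal.natCast_lt_aleph0 (n := N))
    rw [← hN, ← e1]
    exact self_le_add_right _ _
  obtain ⟨q, hq⟩ := Cardinal.lt_aleph0.1 hlt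
  have hqM : q + M = N := by
    rw [hN, hM, hq] at e1
    exact_mod_cast e1
  have hQ : ((N - 1 : ℕ) : Cardinal) ≤ Algebra.trdeg k V.RF := by
    obtain ⟨u, hu⟩ := hv
    have hreg : ∀ i, V.Reg (u i) := by
      intro i
      have h1 := (hu (MvPolynomial.X i) (MvPolynomial.X_ne_zero i)).2
      rw [MvPolynomial.aeval_X] at h1
      exact Or.inr h1.ge
    have hind : AlgebraicIndependent k (fun i => V.red (u i)) := by
      rw [algebraicIndependent_iff]
      intro G hG
      by_contra hG0
      obtain ⟨h1, h2⟩ := hu G hG0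
      have h3 := (red_aeval V u hreg (map (algebraMap k B) G)).2
      rw [aeval_map_algebraMap, aeval_map_algebraMap, hG] at h3
      exact V.red_ne_zero h1 h2 h3
    have h4 := hind.cardinalMk_le_trdeg
    rwa [Cardinal.mk_fin] at h4
  have hle : ((M - 1 : ℕ) : Cardinal) ≤ Algebra.trdeg B V.RF := by
    rcases Nat.eq_zero_or_pos M with h0 | h0
    · rw [h0]
      simp
    · rw [← Cardinal.add_le_add_iff_of_lt_aleph0 hlt, add_comm _ (Algebra.trdeg k B),
        add_comm _ (Algebra.trdeg k B), e2, hq]
      refine le_trans (le_of_eq ?_) hQ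
      have : q + (M - 1) = N - 1 := by omega
      exact_mod_cast this
  obtain ⟨s, hs⟩ := exists_isTranscendenceBasis B V.RF
  rw [← hs.cardinalMk_eq_trdeg, ← Cardinal.mk_fin, Cardinal.le_def] at hle
  obtain ⟨f⟩ := hle
  exact div_of_res (P := V) (fun i => ((f i : s) : V.RF)) (hs.1.comp f f.injective)

theorem div_lower {q M N : ℕ} {b : Fin q → B} (hb : AlgebraicIndependent k b) (hN : q + M = N)
    {v : Place B L} (hv : Divisorial M v) : Divisorial N (Place.lower k v) := by
  obtain ⟨u, hu⟩ := hv
  refine div_of_fam (T := Fin (M - 1) ⊕ Fin q) (by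
    rw [Fintype.card_sum, Fintype.card_fin, Fintype.card_fin]
    omega) (Sum.elim u fun i => algebraMap B L (b i)) fun G hG => ?_
  have h1' : ∀ G : MvPolynomial (Fin (M - 1) ⊕ Fin q) k,
      aeval (Sum.elim u fun i => algebraMap B L (b i)) G = aeval u
      (map ((aeval b : MvPolynomial (Fin q) k →ₐ[k] B) : MvPolynomial (Fin q) k →+* B)
        (sumAlgEquiv k (Fin (M - 1)) (Fin q) G)) := by
    intro G
    induction G using MvPolynomial.induction_on with
    | C c =>
      rw [sumAlgEquiv_C_inl, map_C, aeval_C, aeval_C]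
      simp
      rw [← IsScalarTower.algebraMap_apply]
    | add p q hp hq =>
      rw [map_add, map_add, map_add, map_add, hp, hq]
    | mul_X p t hp =>
      rw [map_mul, map_mul, map_mul, map_mul, hp]
      congr 1
      rcases t with t | t
      · simp
      · simp
  have hinj : Function.Injective
      (map (σ := Fin (M - 1))
        ((aeval b : MvPolynomial (Fin q) k →ₐ[k] B) : MvPolynomial (Fin q) k →+* B)) :=
    MvPolynomial.map_injective _ hb
  have h5 := hu (map ((aeval b : MvPolynomial (Fin q) k →ₐ[k] B) : MvPolynomial (Fin q) k →+* B)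
    (sumAlgEquiv k (Fin (M - 1)) (Fin q) G)) (by
      rw [Ne, map_eq_zero_iff _ hinj, EmbeddingLike.map_eq_zero_iff]
      exact hG)
  rw [h1']
  exact h5

end

end Pool.Agent.L7h62.MM
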