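import Pool.Agent.L7h62.MM.Vert

/-!
A regular form on the second factor with a non-zero trace.
-/

set_option autoImplicit false
set_option linter.all false

open Module FF MvPolynomial Pool.Agent.Y166.LT
open Pool.Agent.W602.GT (DerReg Divisorial)

namespace Pool.Agent.L7h62.MM

section

variable {k F K₀ : Type} [Field k] [CharZero k] [Field F] [Field K₀] [Algebra k F] [Algebra k K₀]
  [Algebra F K₀] [IsScalarTower k F K₀] {n r : ℕ}

/-- vector fields of `K₀` on `F` -/
theorem der_F (CF : Crd k F (Fin r)) (CZ : Crd k K₀ (Fin n ⊕ Fin r))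
    (hz2 : ∀ b, CZ.z (Sum.inr b) = algebraMap F K₀ (CF.z b)) (D : Derivation k K₀ K₀) (a : F) :
    D (algebraMap F K₀ a) = ∑ c, D (CZ.z (Sum.inr c)) * algebraMap F K₀ (CF.E c a) := by
  have h1 := chainA CF (emb k F K₀) D a
  refine h1.trans (Finset.sum_congr rfl fun c _ => ?_)
  rw [hz2]
  rfl

end

section

variable {k F K₀ K L M : Type} [Field k] [CharZero k] [Field F] [Field K₀] [Field K] [Field L]
  [Field M] [Algebra k F] [Algebra k K₀] [Algebra k K] [Algebra k L] [Algebra k M]
  [Algebra F K₀] [Algebra F K] [Algebra K₀ K] [Algebra L M] [Algebra L K] [Algebra M K]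
  [IsScalarTower k F K₀] [IsScalarTower k F K] [IsScalarTower k K₀ K] [IsScalarTower F K₀ K]
  [IsScalarTower k L M] [IsScalarTower k L K] [IsScalarTower k M K] [IsScalarTower L M K]
  [FiniteDimensional K₀ K] [FiniteDimensional M K]
  [Algebra.EssFiniteType k L] [Algebra.EssFiniteType k K₀] [Algebra.EssFiniteType k K]
  {n r : ℕ} {I : Type} [Fintype I] [DecidableEq I]

theorem star (C : Crd k L I) (CM : Crd k M (Fin n ⊕ Fin r)) (CF : Crd k F (Fin r))
    (CZ : Crd k K₀ (Fin n ⊕ Fin r)) {x : Fin n → K₀} (hx : AlgebraicIndependent F x)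
    (htop : IntermediateField.adjoin F (Set.range x) = ⊤)
    (hz1 : ∀ l, CZ.z (Sum.inl l) = x l)
    (hz2 : ∀ b, CZ.z (Sum.inr b) = algebraMap F K₀ (CF.z b))
    (hM : ∀ l, algebraMap M K (CM.z (Sum.inl l)) = algebraMap K₀ K (x l))
    {m : ℕ} (e : Fin m → K) (e' : Fin m → M)
    (he : ∀ i, ∀ Q : Place k K, (∀ h : MvPolynomial (Fin n) k, h ≠ 0 →
      Q.ord (algebraMap K₀ K (aeval x h)) = 0) → Q.Reg (e i))
    (hdual : ∀ c : K, c = ∑ i, algebraMap M K (e' i) *
      algebraMap K₀ K (Algebra.trace K₀ K (e i * c)))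
    {j : ℕ} (hPM : PM C CM j) {p : ℕ} {θ : Frm k L (Fin p)}
    (hθ : ∀ P : Place k L, Divisorial (Fintype.card I) P → RegF θ P)
    (κ : Fin p → Fin n ⊕ Fin r)
    (hκ : (Finset.univ.filter fun i => (κ i).isRight = true).card = j)
    (hne : extF C (emb k L M) θ (fun i => CM.E (κ i)) ≠ 0) :
    ∃ (φ : Frm k F (Fin j)) (s : Fin j → Fin r),
      (∀ P : Place k F, Divisorial (Fintype.card (Fin r)) P → RegF φ P) ∧
      Algebra.trace M K (extF CF (emb k F K) φ fun b => (CM.up K).E (Sum.inr (s b))) ≠ 0 := by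
  classical
  obtain ⟨ρ⟩ : Nonempty (Fin j ≃ {i // (κ i).isRight = true}) := by
    refine ⟨(Fintype.equivFinOfCardEq ?_).symm⟩
    rw [Fintype.card_subtype]
    exact hκ
  obtain ⟨CK, hCK⟩ : ∃ CK : Crd k K (Fin n ⊕ Fin r), CK = CZ.up K := ⟨_, rfl⟩
  have hCKE : ∀ a f, CK.E a (algebraMap K₀ K f) = algebraMap K₀ K (CZ.E a f) := by
    intro a f
    rw [hCK]
    exact CZ.up_E a f
  have hCKz : ∀ a, CK.z a = algebraMap K₀ K (CZ.z a) := by
    intro a
    rw [hCK]
    rfl
  obtain ⟨Θ, hΘ⟩ : ∃ Θ : Frm k K (Fin p), Θ = extF C (emb k L K) θ := ⟨_, rfl⟩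
  have hcomp : (emb k M K).comp (emb k L M) = emb k L K := by
    ext a
    exact (IsScalarTower.algebraMap_apply L M K a).symm
  have hxM : ∀ l, algebraMap M K (CM.z (Sum.inl l)) = CK.z (Sum.inl l) := by
    intro l
    rw [hM, hCKz, hz1]
  -- vanishing
  have hvan : ∀ (D : Fin p → Derivation k K K) (S : Finset (Fin p)), j + 1 ≤ S.card →
      (∀ i ∈ S, ∀ l, D i (CK.z (Sum.inl l)) = 0) → Θ D = 0 := by
    intro D S hS hD
    have h1 := hPM.van hθ (emb k M K) D hS (fun i hi l => by
      rw [← hD i hi l, ← hxM]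
      rfl)
    rwa [hcomp, ← hΘ] at h1
  -- step (a)
  obtain ⟨B, hB⟩ : ∃ B : Fin p → Derivation k K K, B = fun i => (CM.up K).E (κ i) := ⟨_, rfl⟩
  have hBx : ∀ i l, B i (CK.z (Sum.inl l)) = if κ i = Sum.inl l then 1 else 0 := by
    intro i l
    rw [← hxM, hB]
    exact (CM.up K).dual (κ i) (Sum.inl l)
  have ha : Θ B = ∑ J : Fin j → Fin r, (∏ b, B (ρ b).1 (CK.z (Sum.inr (J b)))) *
      Θ (fun i => CK.E (kj κ ρ J i)) := by
    refine expand_S CK Θ κ ρ B (fun i hi l => ?_) (fun i hi l => hBx i l) fun μ h1 h2 => ?_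
    · rw [hBx, if_neg]
      intro h
      rw [h] at hi
      cases hi
    · rw [hvan (fun i => CK.E (μ i)) (Finset.univ.filter fun i => (μ i).isRight = true), mul_zero]
      · obtain ⟨i0, hi0, hi0'⟩ := h2
        rw [← hκ]
        refine Finset.card_lt_card (Finset.ssubset_iff_of_subset ?_ |>.2 ⟨i0, ?_, ?_⟩)
        · intro i hi
          rw [Finset.mem_filter] at hi ⊢
          exact ⟨hi.1, h1 i hi.2⟩
        · rw [Finset.mem_filter]
          exact ⟨Finset.mem_univ _, hi0'⟩
        · rw [Finset.mem_filter]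
          exact fun h => hi0 h.2
      · intro i hi l
        rw [Finset.mem_filter] at hi
        rw [CK.dual, if_neg]
        intro h
        rw [h] at hi
        cases hi.2
  -- step (b)
  have hKtr : Algebra.trdeg k K = (Fintype.card (Fin n ⊕ Fin r) : ℕ) := CK.trdeg
  obtain ⟨T, hT⟩ : ∃ T : Fin m → Frm k K₀ (Fin p), ∀ i, T i = trF CZ (e i • Θ) :=
    ⟨fun i => trF CZ (e i • Θ), fun _ => rfl⟩
  obtain ⟨c, hc⟩ : ∃ c : Fin m → (Fin j → Fin r) → K₀, ∀ i J, c i J =
      Algebra.trace K₀ K (e i * Θ fun a => CK.E (kj κ ρ J a)) := ⟨_, fun _ _ => rfl⟩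
  have hTc : ∀ i J, T i (fun a => CZ.E (kj κ ρ J a)) = c i J := by
    intro i J
    rw [hT, hc, trF_apply CZ (e i • Θ) (D' := fun a => CK.E (kj κ ρ J a)) fun a f => hCKE _ f]
    rfl
  have hTreg : ∀ i, ∀ v : Place k K₀, Divisorial (n + r) v →
      (∀ h : MvPolynomial (Fin n) k, h ≠ 0 → v.ord (aeval x h) = 0) → RegF (T i) v := by
    intro i v hv hv0
    have hv' : Divisorial (Fintype.card (Fin n ⊕ Fin r)) v := by
      rwa [Fintype.card_sum, Fintype.card_fin, Fintype.card_fin]
    rw [hT]
    refine trF_reg CZ hv' fun Q e0 hQ D hD => ?_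
    rw [AlternatingMap.smul_apply, smul_eq_mul]
    refine Q.reg_mul (he i Q fun h hh => ?_) ?_
    · rw [hQ.2, hv0 h hh, mul_zero]
    · rw [hΘ]
      exact extF_reg C hKtr hθ (Pool.Agent.Y172.divisorial_up hQ hv') D hD
  have hanti : ∀ i, Anti (c i) := by
    intro i J a b hab
    rw [hc, hc]
    have h1 : (fun a' => CK.E (kj κ ρ (J ∘ Equiv.swap a b) a')) =
        (fun a' => CK.E (kj κ ρ J a')) ∘ Equiv.swap (ρ a).1 (ρ b).1 := by
      rw [kj_swap]
      rfl
    rw [h1, Θ.map_swap _ (fun h => hab (ρ.injective (Subtype.ext h))), mul_neg, map_neg]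
  have hdF := der_F CF CZ hz2
  have hb : ∀ i, ∃ h : MvPolynomial (Fin n) k, h ≠ 0 ∧ ∃ (Ts : Finset (Fin n →₀ ℕ))
      (Φ : (Fin n →₀ ℕ) → Frm k F (Fin j)),
      (∀ μ, ∀ P : Place k F, Divisorial (Fintype.card (Fin r)) P → RegF (Φ μ) P) ∧
      ∀ J, c i J * aeval x h =
        ∑ μ ∈ Ts, aeval x (monomial μ (1 : k)) *
          algebraMap F K₀ (Φ μ fun b => CF.E (J b)) := by
    intro i
    refine base_change CF hx htop (hanti i) ?_ ?_
    · intro q hq hnc v hv J
      have h0 : ∀ f, (Place.lower k v).ord f = v.ord f := fun _ => rfl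
      have h1 : Divisorial (n + r) (Place.lower k v) := by
        have := pl_div hx CF.bas.1 h0 hq hv
        rwa [Fintype.card_fin] at this
      have h2 : ∀ h : MvPolynomial (Fin n) k, h ≠ 0 → v.ord (aeval x h) = 0 := by
        intro h hh
        have h3 := hv.2 _ (hnc h hh)
        rwa [aeval_map_algebraMap] at h3
      have h4 := hTreg i _ h1 h2 (fun a => CZ.E (kj κ ρ J a)) fun a => by
        refine der_pl hx htop h0 hq hv (fun l => ?_) fun a' => ?_
        · rw [← hz1, CZ.dual]
          split_ifs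
          · exact Place.reg_one _
          · exact Place.reg_zero _
        · rw [hdF]
          refine reg_sum _ _ _ fun c' _ => Place.reg_mul _ ?_ ?_
          · rw [CZ.dual]
            split_ifs
            · exact Place.reg_one _
            · exact Place.reg_zero _
          · exact v.reg_const _
      rw [hTc] at h4
      exact h4
    · intro P hP w hw δ hδ
      obtain ⟨D, hD⟩ : ∃ D : Fin p → Derivation k K₀ K₀, D = fun a =>
          if h : (κ a).isRight = true then
            ∑ b, algebraMap F K₀ (δ (ρ.symm ⟨a, h⟩) (CF.z b)) • CZ.E (Sum.inr b)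
          else CZ.E (κ a) := ⟨_, rfl⟩
      have hDr : ∀ a (h : (κ a).isRight = true), D a =
          ∑ b, algebraMap F K₀ (δ (ρ.symm ⟨a, h⟩) (CF.z b)) • CZ.E (Sum.inr b) := by
        intro a h
        rw [hD]
        exact dif_pos h
      have hDl : ∀ a, ¬ (κ a).isRight = true → D a = CZ.E (κ a) := by
        intro a h
        rw [hD]
        exact dif_neg h
      have hval : ∀ (g : Fin r → K₀) (f : K₀), (∑ b, g b • CZ.E (Sum.inr b)) f =
          ∑ b, g b * CZ.E (Sum.inr b) f := by
        intro g f
        rw [der_sum_apply]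
        rfl
      have h1 : T i D = ∑ J : Fin j → Fin r,
          c i J * algebraMap F K₀ (∏ b, δ b (CF.z (J b))) := by
        rw [expand_S CZ (T i) κ ρ D]
        · refine Finset.sum_congr rfl fun J _ => ?_
          rw [hTc, mul_comm, map_prod]
          congr 1
          refine Finset.prod_congr rfl fun b _ => ?_
          rw [hDr _ (ρ b).2, hval, Finset.sum_eq_single (J b)]
          · rw [CZ.dual, if_pos rfl, mul_one]
            simp
          · intro b' _ hb'
            rw [CZ.dual, if_neg, mul_zero]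
            exact fun h => hb' (Sum.inr_injective h)
          · intro h
            exact absurd (Finset.mem_univ _) h
        · intro a ha l
          rw [hDr a ha, hval]
          refine Finset.sum_eq_zero fun b _ => ?_
          rw [CZ.dual, if_neg, mul_zero]
          exact fun h => by cases h
        · intro a ha l
          rw [hDl a ha, CZ.dual]
        · rintro μ - ⟨a, ha, ha'⟩
          rw [Finset.prod_eq_zero (Finset.mem_univ a), zero_mul]
          rw [hDl a ha, CZ.dual, if_neg]
          intro h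
          rw [h] at ha
          exact ha ha'
      rw [← h1]
      have hP' : Divisorial r P := by rwa [Fintype.card_fin] at hP
      refine hTreg i w (gauss_div hx hw hP') (fun h hh => ?_) D fun a => ?_
      · have h3 := gauss_const (k₀ := k) hw hh
        rwa [aeval_map_algebraMap] at h3
      · refine der_gauss hx htop hw (fun _ => rfl) (fun l => ?_) fun a' ha' => ?_
        · rw [← hz1]
          by_cases h : (κ a).isRight = true
          · rw [hDr a h, hval]
            refine reg_sum _ _ _ fun b _ => ?_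
            rw [CZ.dual, if_neg (fun h => by cases h), mul_zero]
            exact w.reg_zero
          · rw [hDl a h, CZ.dual]
            split_ifs
            · exact w.reg_one
            · exact w.reg_zero
        · by_cases h : (κ a).isRight = true
          · have h5 : D a (algebraMap F K₀ a') =
                algebraMap F K₀ (δ (ρ.symm ⟨a, h⟩) a') := by
              rw [hdF, ← expandD CF (δ (ρ.symm ⟨a, h⟩)), der_sum_apply, map_sum]
              refine Finset.sum_congr rfl fun c' _ => ?_
              rw [hDr a h, hval, Finset.sum_eq_single c']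
              · rw [CZ.dual, if_pos rfl, mul_one, ← map_mul]
                rfl
              · intro b' _ hb'
                rw [CZ.dual, if_neg, mul_zero]
                exact fun h => hb' (Sum.inr_injective h)
              · intro h
                exact absurd (Finset.mem_univ _) h
            rw [h5]
            have h6 := hδ (ρ.symm ⟨a, h⟩) a' ha'
            rcases h6 with h6 | h6
            · rw [h6, map_zero]
              exact w.reg_zero
            · right
              rw [hw.ord]
              exact h6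
          · rw [hdF]
            refine reg_sum _ _ _ fun c' _ => ?_
            rw [hDl a h, CZ.dual, if_neg, zero_mul]
            · exact w.reg_zero
            · intro h'
              rw [h'] at h
              exact h rfl
  choose h hh Ts Φ hΦ hcJ using hb
  -- step (c)
  by_contra hcon
  push Not at hcon
  choose s hs using fun b : Fin j => Sum.isRight_iff.1 (ρ b).2
  have hzero : ∀ i μ, Algebra.trace M K (extF CF (emb k F K) (Φ i μ) fun b => B (ρ b).1) = 0 := by
    intro i μ
    have h1 := hcon (Φ i μ) s (hΦ i μ)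
    rw [← h1]
    congr 2
    funext b
    rw [hB]
    change (CM.up K).E (κ (ρ b).1) = _
    rw [hs b]
  obtain ⟨xM, hxM'⟩ : ∃ xM : Fin n → M, ∀ l, xM l = CM.z (Sum.inl l) := ⟨_, fun _ => rfl⟩
  have hae : ∀ G : MvPolynomial (Fin n) k, algebraMap M K (aeval xM G) =
      algebraMap K₀ K (aeval x G) := by
    intro G
    rw [← MvPolynomial.aeval_algebraMap_apply, ← MvPolynomial.aeval_algebraMap_apply]
    congr 2
    funext l
    change algebraMap M K (xM l) = algebraMap K₀ K (x l)
    rw [hxM', hM]
  have hx0 : ∀ i, algebraMap K₀ K (aeval x (h i)) ≠ 0 := by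
    intro i
    rw [_root_.map_ne_zero]
    have h1 := ael_ne hx (map_ne (F := F) (hh i))
    rwa [aeval_map_algebraMap] at h1
  have hfinal : Θ B = ∑ i, ∑ μ ∈ Ts i, algebraMap M K (e' i * aeval xM (monomial μ (1 : k)) /
      aeval xM (h i)) * extF CF (emb k F K) (Φ i μ) (fun b => B (ρ b).1) := by
    rw [ha]
    have h1 : ∀ J : Fin j → Fin r, Θ (fun a => CK.E (kj κ ρ J a)) = ∑ i, ∑ μ ∈ Ts i,
        algebraMap M K (e' i * aeval xM (monomial μ (1 : k)) / aeval xM (h i)) *
          algebraMap F K (Φ i μ fun b => CF.E (J b)) := by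
      intro J
      rw [hdual (Θ fun a => CK.E (kj κ ρ J a))]
      refine Finset.sum_congr rfl fun i _ => ?_
      rw [← hc]
      have h2 := congrArg (algebraMap K₀ K) (hcJ i J)
      rw [map_mul, map_sum] at h2
      have h3 : algebraMap K₀ K (c i J) = (∑ μ ∈ Ts i, algebraMap K₀ K
          (aeval x (monomial μ (1 : k)) * algebraMap F K₀ (Φ i μ fun b => CF.E (J b)))) /
          algebraMap K₀ K (aeval x (h i)) := by
        rw [eq_div_iff (hx0 i), h2]
      rw [h3, div_eq_mul_inv, Finset.sum_mul, Finset.mul_sum]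
      refine Finset.sum_congr rfl fun μ _ => ?_
      rw [map_mul, map_div₀, map_mul, hae, hae, ← IsScalarTower.algebraMap_apply F K₀ K]
      ring
    have h4 : ∀ J : Fin j → Fin r, (∏ b, B (ρ b).1 (CK.z (Sum.inr (J b)))) *
        Θ (fun i => CK.E (kj κ ρ J i)) = ∑ i, ∑ μ ∈ Ts i,
        algebraMap M K (e' i * aeval xM (monomial μ (1 : k)) / aeval xM (h i)) *
          (algebraMap F K (Φ i μ fun b => CF.E (J b)) *
            ∏ b, B (ρ b).1 (algebraMap F K (CF.z (J b)))) := by
      intro J
      rw [h1, Finset.mul_sum]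
      refine Finset.sum_congr rfl fun i _ => ?_
      rw [Finset.mul_sum]
      refine Finset.sum_congr rfl fun μ _ => ?_
      have h5 : ∏ b, B (ρ b).1 (CK.z (Sum.inr (J b))) =
          ∏ b, B (ρ b).1 (algebraMap F K (CF.z (J b))) := by
        refine Finset.prod_congr rfl fun b _ => ?_
        rw [hCKz, hz2, ← IsScalarTower.algebraMap_apply F K₀ K]
      rw [h5]
      ring
    rw [Finset.sum_congr rfl fun J _ => h4 J, Finset.sum_comm]
    refine Finset.sum_congr rfl fun i _ => ?_
    rw [Finset.sum_comm]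
    refine Finset.sum_congr rfl fun μ _ => ?_
    rw [← Finset.mul_sum, extF_apply]
    rfl
  have hlow : Θ B = algebraMap M K (extF C (emb k L M) θ fun i => CM.E (κ i)) := by
    have h1 := extF_lift CM (emb k M K) (extF C (emb k L M) θ) (D := fun i => CM.E (κ i))
      (D' := B) (fun i f => by
        rw [hB]
        exact CM.up_E (κ i) f)
    rw [extF_comp, hcomp, ← hΘ] at h1
    exact h1
  have h1 : Algebra.trace M K (Θ B) = 0 := by
    rw [hfinal, map_sum]
    refine Finset.sum_eq_zero fun i _ => ?_
    rw [map_sum]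
    refine Finset.sum_eq_zero fun μ _ => ?_
    rw [← Algebra.smul_def, map_smul, hzero, smul_zero]
  rw [hlow, Algebra.trace_algebraMap, nsmul_eq_mul, mul_eq_zero] at h1
  have hc0 : CharZero M := charZero_of_injective_algebraMap (algebraMap k M).injective
  rcases h1 with h1 | h1
  · have : 0 < finrank M K := finrank_pos
    exact absurd h1 (by exact_mod_cast this.ne')
  · exact hne h1

end

end Pool.Agent.L7h62.MM
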