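import Pool.Agent.L7h62.MM.Low

/-!
The existence of a top form on the second factor with a non-zero trace.
-/

set_option autoImplicit false
set_option linter.all false
set_option maxHeartbeats 4000000
set_option synthInstance.maxHeartbeats 400000

open Module FF
open Pool.Agent.W602.GT (DerReg Divisorial)
open Pool.Agent.N145.SX (HX SepX)
open Pool.Agent.N145.PC (res)

namespace Pool.Agent.L7h62.MM

section basis

variable {k M : Type} [Field k] [CharZero k] [Field M] [Algebra k M] {n r : ℕ}

theorem basis_of_top {x : Fin n → M} (hx : AlgebraicIndependent k x)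
    (htop : IntermediateField.adjoin k (Set.range x) = ⊤) : IsTranscendenceBasis k x := by
  refine hx.isTranscendenceBasis_iff_isAlgebraic.2 ?_
  refine Pool.Agent.W619.PQ.alg_adjoin fun z => ?_
  exact isAlgebraic_algebraMap
    (⟨z, by rw [htop]; trivial⟩ : IntermediateField.adjoin k (Set.range x))

/-- extension of independent elements to coordinates -/
theorem ext_crd {x : Fin n → M} (hx : AlgebraicIndependent k x)
    (hM : Algebra.trdeg k M = (n + r : ℕ)) :
    ∃ C : Crd k M (Fin n ⊕ Fin r), ∀ l, C.z (Sum.inl l) = x l := by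
  obtain ⟨k1, hk1⟩ : ∃ k1, k1 = IntermediateField.adjoin k (Set.range x) := ⟨_, rfl⟩
  have hmem : ∀ j, x j ∈ k1 := fun j => by
    rw [hk1]
    exact IntermediateField.subset_adjoin _ _ ⟨j, rfl⟩
  let x' : Fin n → k1 := fun j => ⟨x j, hmem j⟩
  have h1 : AlgebraicIndependent k x' := AlgebraicIndependent.of_comp k1.val hx
  have htop : IntermediateField.adjoin k (Set.range x') = ⊤ := by
    apply IntermediateField.map_injective k1.val
    rw [IntermediateField.adjoin_map, ← AlgHom.fieldRange_eq_map, IntermediateField.fieldRange_val,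
      ← Set.range_comp]
    exact hk1.symm
  have hb : IsTranscendenceBasis k x' := basis_of_top h1 htop
  have hc : CharZero k1 := charZero_of_injective_algebraMap (algebraMap k k1).injective
  have e1 : Algebra.trdeg k k1 + Algebra.trdeg k1 M = Algebra.trdeg k M :=
    _root_.trdeg_add_eq k k1 (A := M)
  have e2 : Algebra.trdeg k k1 = (n : ℕ) := by
    rw [← hb.cardinalMk_eq_trdeg, Cardinal.mk_fin]
  have e3 : Algebra.trdeg k1 M = (r : ℕ) := by
    rw [e2, hM] at e1
    push_cast at e1
    rw [add_comm, add_comm (n : Cardinal)] at e1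
    exact (Cardinal.add_right_inj_of_lt_aleph0 Cardinal.natCast_lt_aleph0).1 e1
  obtain ⟨C'⟩ := exists_crd' e3
  have h2 := hb.sumElim_comp C'.bas
  have h3 : IsTranscendenceBasis k (Sum.elim x C'.z) := by
    have h4 := (isTranscendenceBasis_equiv (Equiv.sumComm (Fin n) (Fin r))).2 h2
    convert h4 using 1
    funext a
    rcases a with a | a <;> rfl
  obtain ⟨C, hC⟩ := crd_of h3
  exact ⟨C, fun l => by rw [hC]; rfl⟩

end basis

section top

/-- forms of top degree -/
theorem top_val {k K ι : Type} [Field k] [Field K] [Algebra k K] [Fintype ι] [DecidableEq ι]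
    (W : Frm k K ι) (a : Matrix ι ι K) (D D' : ι → Derivation k K K)
    (h : ∀ i, D' i = ∑ c, a i c • D c) : W D' = a.det * W D := by
  classical
  let ℓ : (ι → K) →ₗ[K] Derivation k K K :=
    { toFun := fun v => ∑ c, v c • D c
      map_add' := fun u v => by
        rw [← Finset.sum_add_distrib]
        exact Finset.sum_congr rfl fun c _ => add_smul _ _ _
      map_smul' := fun r v => by
        rw [RingHom.id_apply, Finset.smul_sum]
        exact Finset.sum_congr rfl fun c _ => mul_smul _ _ _ }
  have h1 := AlternatingMap.eq_smul_basis_det (Pi.basisFun K ι) (W.compLinearMap ℓ)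
  have h2 := DFunLike.congr_fun h1 (fun i => a i)
  have h3 : (W.compLinearMap ℓ) (fun i => a i) = W D' := by
    change W (fun i => ℓ (a i)) = W D'
    congr 1
    funext i
    exact (h i).symm
  have h4 : (W.compLinearMap ℓ) (Pi.basisFun K ι) = W D := by
    change W (fun i => ℓ (Pi.basisFun K ι i)) = W D
    congr 1
    funext i
    change ∑ c, (Pi.basisFun K ι i) c • D c = D i
    rw [Finset.sum_eq_single i]
    · simp
    · intro c _ hc
      rw [Pi.basisFun_apply, Pi.single_eq_of_ne hc, zero_smul]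
    · intro hi
      exact absurd (Finset.mem_univ _) hi
  rw [h3, AlternatingMap.smul_apply, h4, Pi.basisFun_det, smul_eq_mul] at h2
  rw [h2, mul_comm]
  rfl

end top

section regE

variable {k K E : Type} [Field k] [Field K] [Field E] [Algebra ℂ k] [Algebra ℂ K] [Algebra ℂ E]
  [Algebra k K] [Algebra E K] [IsScalarTower ℂ k K] [IsScalarTower ℂ E K] {n : ℕ}

/-- places which are trivial on the coordinates of `E` -/
theorem reg_E {x : Fin n → E} (hx : IsTranscendenceBasis ℂ x) (Q : Place k K)
    (h : ∀ h : MvPolynomial (Fin n) ℂ, h ≠ 0 →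
      Q.ord (algebraMap E K (MvPolynomial.aeval x h)) = 0) (e : E) : Q.Reg (algebraMap E K e) := by
  obtain ⟨B, hB⟩ : ∃ B, B = IntermediateField.adjoin ℂ (Set.range x) := ⟨_, rfl⟩
  have halg : Algebra.IsAlgebraic B E := by
    rw [hB]
    exact hx.isAlgebraic_field
  have hr : ∀ a : B, Q.Reg (algebraMap B K a) := by
    intro a
    have ha : (a : E) ∈ IntermediateField.adjoin ℂ (Set.range x) := by
      rw [← hB]
      exact a.2
    rw [IntermediateField.mem_adjoin_range_iff] at ha
    obtain ⟨r, s, hrs⟩ := ha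
    have h1 : algebraMap B K a = algebraMap E K (MvPolynomial.aeval x r) /
        algebraMap E K (MvPolynomial.aeval x s) := by
      rw [← map_div₀, ← hrs]
      rfl
    by_cases hr0 : r = 0
    · left
      rw [h1, hr0, map_zero, map_zero, zero_div]
    by_cases hs0 : s = 0
    · left
      rw [h1, hs0, map_zero, map_zero, div_zero]
    right
    have hne : ∀ G : MvPolynomial (Fin n) ℂ, G ≠ 0 →
        algebraMap E K (MvPolynomial.aeval x G) ≠ 0 := by
      intro G hG
      rw [_root_.map_ne_zero]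
      exact ael_ne hx.1 hG
    rw [h1, Q.ord_div (hne r hr0) (hne s hs0), h r hr0, h s hs0, sub_zero]
  have hint : IsIntegral B (algebraMap E K e) :=
    ((Algebra.IsAlgebraic.isAlgebraic (R := B) e).isIntegral).map (IsScalarTower.toAlgHom B E K)
  exact Q.reg_of_isIntegral (A := B) hr hint

end regE

section main2

variable {k F K₀ K L E Ω : Type} [Field k] [CharZero k] [Field F] [Field K₀] [Field K] [Field L]
  [Field E] [Field Ω]
  [Algebra ℂ k] [Algebra ℂ F] [Algebra ℂ K₀] [Algebra ℂ L] [Algebra ℂ K] [Algebra ℂ E] [Algebra ℂ Ω]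
  [Algebra k F] [Algebra k K₀] [Algebra k L] [Algebra k K] [Algebra k Ω] [Algebra F K₀]
  [Algebra F K] [Algebra K₀ K] [Algebra E K] [Algebra L K] [Algebra L Ω]
  [IsScalarTower ℂ k K] [IsScalarTower ℂ F K₀] [IsScalarTower ℂ K₀ K]
  [IsScalarTower ℂ k K₀]
  [IsScalarTower k F K₀] [IsScalarTower k F K] [IsScalarTower k K₀ K] [IsScalarTower F K₀ K]
  [IsScalarTower ℂ E K] [IsScalarTower k L K]
  [IsScalarTower ℂ L K] [IsScalarTower k L Ω] [IsScalarTower ℂ L Ω]
  [FiniteDimensional K₀ K]
  [FiniteDimensional L K] [IsAlgClosed Ω] [Algebra.IsAlgebraic L Ω]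
  [Algebra.EssFiniteType ℂ E] [Algebra.EssFiniteType k F] [Algebra.EssFiniteType k L]
  [Algebra.EssFiniteType k K₀] [Algebra.EssFiniteType k K] {n r q : ℕ}

open scoped Classical in
/-- **A top form on the second factor with a non-zero trace.** -/
theorem main2 (hE : Algebra.trdeg ℂ E = n) {b : Fin q → k} (hb : AlgebraicIndependent ℂ b)
    (hKK : Algebra.trdeg ℂ K = (q + (n + r) : ℕ)) (M : IntermediateField L K)
    [IsScalarTower k M K] (hM : M = IntermediateField.adjoin L (Set.range (algebraMap E K)))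
    (C : Crd k L (Fin (n + r))) (CF : Crd k F (Fin r))
    {x : Fin n → E} (hx : IsTranscendenceBasis ℂ x) {x0 : Fin n → K₀}
    (hx0 : ∀ l, algebraMap K₀ K (x0 l) = algebraMap E K (x l))
    (hxF : AlgebraicIndependent F x0)
    (htop : IntermediateField.adjoin F (Set.range x0) = ⊤)
    (hgen : IntermediateField.adjoin K₀ (Set.range (algebraMap E K)) = ⊤)
    (hsep : ∀ σ1 : K →ₐ[L] Ω, SepAt x
      (Finset.univ.image (res (K := K) (L := L) (Ω := Ω) E)) (res E σ1))
    (hH : ∀ D : Derivation k Ω Ω,
      (∀ (σ : K →ₐ[L] Ω) l, D (σ (algebraMap E K (x l))) = 0) → D = 0) :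
    ∃ φ : Frm k F (Fin r),
      (∀ P : Place k F, Divisorial (Fintype.card (Fin r)) P → RegF φ P) ∧
      Algebra.trace M K (wdg CF (1 : K) (fun l => algebraMap E K (x l)) φ
        fun i => (C.up K).E (finSumFinEquiv i)) ≠ 0 := by
  have hxM : ∀ l, algebraMap E K (x l) ∈ M := by
    intro l
    rw [hM]
    exact IntermediateField.subset_adjoin _ _ ⟨x l, rfl⟩
  have hEM : ∀ e : E, algebraMap E K e ∈ M := by
    intro e
    rw [hM]
    exact IntermediateField.subset_adjoin _ _ ⟨e, rfl⟩
  have hxk : AlgebraicIndependent k x0 := hxF.restrictScalars (algebraMap k F).injective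
  have hxkK : AlgebraicIndependent k fun l => algebraMap E K (x l) := by
    have h1 := hxk.map' (f := IsScalarTower.toAlgHom k K₀ K) (algebraMap K₀ K).injective
    convert h1 using 1
    funext l
    exact (hx0 l).symm
  have hxkM : AlgebraicIndependent k fun l => (⟨algebraMap E K (x l), hxM l⟩ : M) :=
    AlgebraicIndependent.of_comp (M.val.restrictScalars k) hxkK
  have hCK : Algebra.trdeg k K = (n + r : ℕ) := by
    rw [(C.up K).trdeg, Fintype.card_fin]
  have hCM : Algebra.trdeg k M = (n + r : ℕ) := by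
    have e1 : Algebra.trdeg k M = Algebra.trdeg k K := by
      have h1 := C.bas.algebraMap_comp (A := M)
      have h2 := C.bas.algebraMap_comp (A := K)
      rw [← h1.cardinalMk_eq_trdeg, ← h2.cardinalMk_eq_trdeg]
    rw [e1, hCK]
  obtain ⟨CM, hCMx⟩ := ext_crd hxkM hCM
  have hCMx' : ∀ l, algebraMap M K (CM.z (Sum.inl l)) = algebraMap E K (x l) := by
    intro l
    rw [hCMx]
    rfl
  obtain ⟨CZ, hCZ⟩ : ∃ CZ : Crd k K₀ (Fin n ⊕ Fin r),
      CZ.z = Sum.elim x0 (algebraMap F K₀ ∘ CF.z) := by
    have h1 : IsTranscendenceBasis F x0 := by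
      have hcF : CharZero F := charZero_of_injective_algebraMap (algebraMap k F).injective
      exact basis_of_top hxF htop
    exact crd_of (CF.bas.sumElim_comp h1)
  obtain ⟨m, e, e', hdual⟩ := exists_dual (K := K) hx hx0 hxF htop hgen
  -- the least number of vertical arguments
  have hex : ∃ j, PM C CM j := ⟨r, PM_top C CM⟩
  obtain ⟨j, hj, hmin⟩ : ∃ j, PM C CM j ∧ ∀ i < j, ¬ PM C CM i :=
    ⟨Nat.find hex, Nat.find_spec hex, fun i hi => Nat.find_min hex hi⟩
  have hjr : j ≤ r := by
    by_contra hcon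
    push Not at hcon
    exact hmin r hcon (PM_top C CM)
  have hθ : ∃ (p : ℕ) (θ : Frm k L (Fin p)) (κ : Fin p → Fin n ⊕ Fin r),
      (∀ P : Place k L, Divisorial (Fintype.card (Fin (n + r))) P → RegF θ P) ∧
      (Finset.univ.filter fun i => (κ i).isRight = true).card = j ∧
      extF C (emb k L M) θ (fun i => CM.E (κ i)) ≠ 0 := by
    rcases Nat.eq_zero_or_pos j with h0 | h0
    · refine ⟨0, AlternatingMap.constOfIsEmpty L _ (Fin 0) 1, Fin.elim0, ?_, ?_, ?_⟩
      · intro P _ D _
        exact P.reg_one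
      · rw [h0]
        simp
      · rw [extF_apply]
        simp
    · have h1 := hmin (j - 1) (by omega)
      unfold PM at h1
      push Not at h1
      obtain ⟨p, θ, hθ, κ, hκ, hne⟩ := h1
      refine ⟨p, θ, κ, hθ, ?_, hne⟩
      have h2 : ¬ j + 1 ≤ (Finset.univ.filter fun i => (κ i).isRight = true).card := by
        intro h3
        exact hne (hj p θ hθ κ h3)
      omega
  obtain ⟨p, θ, κ, hθreg, hκ, hne⟩ := hθ
  obtain ⟨φ, s, hφ, hstar⟩ := star C CM CF CZ hxF htop (fun l => by rw [hCZ]; rfl)
    (fun b => by rw [hCZ]; rfl) (fun l => by rw [hCMx', hx0]) (fun i => algebraMap E K (e i))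
    (fun i => (⟨algebraMap E K (e' i), hEM _⟩ : M)) (fun i Q hQ => by
      refine reg_E hx Q (fun h hh => ?_) (e i)
      have h1 := hQ (MvPolynomial.map (algebraMap ℂ k) h) (map_ne hh)
      rw [MvPolynomial.aeval_map_algebraMap] at h1
      rw [← h1]
      congr 1
      rw [← MvPolynomial.aeval_algebraMap_apply, ← MvPolynomial.aeval_algebraMap_apply]
      congr 2
      funext l
      exact (hx0 l).symm) hdual hj hθreg κ hκ hne
  have hrj := core hE hb hKK M hM C (by rw [Fintype.card_fin]) CF CM hx hCMx' hsep hH hj hφ s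
    hstar
  have hjr' : j = r := le_antisymm hjr hrj
  subst hjr'
  refine ⟨φ, hφ, ?_⟩
  -- comparison of the coordinates
  obtain ⟨D', hD'⟩ : ∃ D' : Fin n ⊕ Fin j → Derivation k K K, D' =
      Sum.elim (fun l => (CM.up K).E (Sum.inl l)) fun b => (CM.up K).E (Sum.inr (s b)) := ⟨_, rfl⟩
  have hCKx : ∀ l, (CM.up K).z (Sum.inl l) = algebraMap E K (x l) := hCMx'
  have h1 : wdg CF (1 : K) (fun l => algebraMap E K (x l)) φ D' =
      extF CF (emb k F K) φ fun b => (CM.up K).E (Sum.inr (s b)) := by
    rw [hD', wdg_val CF (1 : K) (fun l => algebraMap E K (x l)) φ]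
    · rw [one_mul]
    · intro i l
      rw [← hCKx, (CM.up K).dual]
      by_cases h : i = l
      · rw [if_pos h, h, if_pos rfl]
      · rw [if_neg h, if_neg]
        exact fun h' => h (Sum.inl_injective h')
    · intro b l
      rw [← hCKx, (CM.up K).dual, if_neg]
      exact fun h' => by cases h'
  obtain ⟨D1, hD1⟩ : ∃ D1 : Fin n ⊕ Fin j → Derivation k M M, D1 =
      Sum.elim (fun l => CM.E (Sum.inl l)) fun b => CM.E (Sum.inr (s b)) := ⟨_, rfl⟩
  have hDD : ∀ i f, D' i (algebraMap M K f) = algebraMap M K (D1 i f) := by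
    intro i f
    rw [hD', hD1]
    rcases i with i | i
    · exact CM.up_E _ f
    · exact CM.up_E _ f
  obtain ⟨a, ha⟩ : ∃ a : Matrix (Fin n ⊕ Fin j) (Fin n ⊕ Fin j) M, ∀ i c,
      a i c = D1 i (algebraMap L M (C.z (finSumFinEquiv c))) :=
    ⟨Matrix.of fun i c => D1 i (algebraMap L M (C.z (finSumFinEquiv c))), fun _ _ => rfl⟩
  have h2 := top_val (wdg CF (1 : K) (fun l => algebraMap E K (x l)) φ)
    ((algebraMap M K).mapMatrix a) (fun i => (C.up K).E (finSumFinEquiv i)) D' (fun i => by
      rw [← expandD (C.up K) (D' i), ← finSumFinEquiv.sum_comp]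
      refine Finset.sum_congr rfl fun c _ => ?_
      congr 1
      rw [RingHom.mapMatrix_apply, Matrix.map_apply, ha, ← hDD]
      rfl)
  rw [h1, ← RingHom.map_det, ← Algebra.smul_def] at h2
  intro h0
  apply hstar
  rw [h2, map_smul, h0, smul_zero]

end main2

end Pool.Agent.L7h62.MM
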