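import Pool.Agent.L7h62.MM.Rl

/-!
Forms with many vertical arguments.
-/

set_option autoImplicit false
set_option linter.all false

open Module FF
open Pool.Agent.W602.GT (DerReg Divisorial)

namespace Pool.Agent.L7h62.MM

section

variable {k L M : Type} [Field k] [CharZero k] [Field L] [Field M] [Algebra k L] [Algebra k M]
  [Algebra L M] [IsScalarTower k L M] {I : Type} [Fintype I] [DecidableEq I] {n r : ℕ}

/-- the pull-backs of the regular forms vanish if more than `j` arguments are vertical -/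
def PM (C : Crd k L I) (CM : Crd k M (Fin n ⊕ Fin r)) (j : ℕ) : Prop :=
  ∀ (p : ℕ) (θ : Frm k L (Fin p)), (∀ P : Place k L, Divisorial (Fintype.card I) P → RegF θ P) →
    ∀ κ : Fin p → Fin n ⊕ Fin r,
      j + 1 ≤ (Finset.univ.filter fun i => (κ i).isRight = true).card →
      extF C (emb k L M) θ (fun i => CM.E (κ i)) = 0

theorem PM_top (C : Crd k L I) (CM : Crd k M (Fin n ⊕ Fin r)) : PM C CM r := by
  classical
  intro p θ _ κ hκ
  have h1 : ∃ i j, i ≠ j ∧ κ i = κ j := by
    by_contra hcon
    push Not at hcon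
    have hex : ∀ i : {i // i ∈ Finset.univ.filter fun i => (κ i).isRight = true},
        ∃ b, κ i.1 = Sum.inr b := by
      rintro ⟨i, hi⟩
      rw [Finset.mem_filter] at hi
      exact Sum.isRight_iff.1 hi.2
    choose b hb using hex
    have h2 : Function.Injective b := by
      intro i i' hii
      by_contra hne
      exact hcon i.1 i'.1 (fun h => hne (Subtype.ext h)) (by rw [hb, hb, hii])
    have h3 := Fintype.card_le_of_injective b h2
    rw [Fintype.card_coe, Fintype.card_fin] at h3
    omega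
  obtain ⟨i, j, hij, hκij⟩ := h1
  exact AlternatingMap.map_eq_zero_of_eq _ _ (by rw [hκij]) hij

theorem PM.van {C : Crd k L I} {CM : Crd k M (Fin n ⊕ Fin r)} {j : ℕ} (h : PM C CM j) {p : ℕ}
    {θ : Frm k L (Fin p)}
    (hθ : ∀ P : Place k L, Divisorial (Fintype.card I) P → RegF θ P) {R : Type} [Field R]
    [Algebra k R] (τ : M →ₐ[k] R) (D : Fin p → Derivation k R R) {S : Finset (Fin p)}
    (hS : j + 1 ≤ S.card) (hD : ∀ i ∈ S, ∀ l, D i (τ (CM.z (Sum.inl l))) = 0) :
    extF C (τ.comp (emb k L M)) θ D = 0 := by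
  classical
  rw [← extF_comp C CM, extF_apply]
  refine Finset.sum_eq_zero fun κ _ => ?_
  by_cases hκ : ∀ i ∈ S, (κ i).isRight = true
  · rw [h p θ hθ κ, map_zero, zero_mul]
    refine hS.trans (Finset.card_le_card fun i hi => ?_)
    rw [Finset.mem_filter]
    exact ⟨Finset.mem_univ _, hκ i hi⟩
  · push Not at hκ
    obtain ⟨i, hi, hi'⟩ := hκ
    rcases hl : κ i with l | b
    · rw [Finset.prod_eq_zero (Finset.mem_univ i), mul_zero]
      rw [hl]
      exact hD i hi l
    · rw [hl] at hi'
      exact absurd rfl hi'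

end

section expand

variable {n r p j : ℕ}

/-- replacement of the vertical indices -/
def kj (κ : Fin p → Fin n ⊕ Fin r) (ρ : Fin j ≃ {i // (κ i).isRight = true}) (J : Fin j → Fin r) :
    Fin p → Fin n ⊕ Fin r :=
  fun i => if h : (κ i).isRight = true then Sum.inr (J (ρ.symm ⟨i, h⟩)) else κ i

theorem kj_right {κ : Fin p → Fin n ⊕ Fin r} (ρ : Fin j ≃ {i // (κ i).isRight = true})
    (J : Fin j → Fin r) (b : Fin j) : kj κ ρ J (ρ b).1 = Sum.inr (J b) := by
  unfold kj
  rw [dif_pos (ρ b).2]
  simp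

theorem kj_left {κ : Fin p → Fin n ⊕ Fin r} (ρ : Fin j ≃ {i // (κ i).isRight = true})
    (J : Fin j → Fin r) {i : Fin p} (h : ¬ (κ i).isRight = true) : kj κ ρ J i = κ i := by
  unfold kj
  rw [dif_neg h]

theorem kj_inj {κ : Fin p → Fin n ⊕ Fin r} (ρ : Fin j ≃ {i // (κ i).isRight = true}) :
    Function.Injective (kj κ ρ) := by
  intro J J' h
  funext b
  have h1 := congrFun h (ρ b).1
  rw [kj_right, kj_right] at h1
  exact Sum.inr_injective h1

theorem prod_split {R : Type} [CommMonoid R] {κ : Fin p → Fin n ⊕ Fin r}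
    (ρ : Fin j ≃ {i // (κ i).isRight = true}) {f : Fin p → R}
    (hf : ∀ i, ¬ (κ i).isRight = true → f i = 1) : ∏ i, f i = ∏ b, f (ρ b).1 := by
  classical
  rw [Equiv.prod_comp ρ fun i => f i.1,
    ← Finset.prod_subtype (Finset.univ.filter fun i => (κ i).isRight = true)
      (fun i => by simp) f]
  symm
  refine Finset.prod_subset (Finset.filter_subset _ _) fun i _ hi => hf i ?_
  intro h
  exact hi (Finset.mem_filter.2 ⟨Finset.mem_univ _, h⟩)

variable {k R : Type} [Field k] [CharZero k] [Field R] [Algebra k R]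

/-- expansion in the vertical arguments -/
theorem expand_S (C : Crd k R (Fin n ⊕ Fin r)) (Θ : Frm k R (Fin p)) (κ : Fin p → Fin n ⊕ Fin r)
    (ρ : Fin j ≃ {i // (κ i).isRight = true}) (D : Fin p → Derivation k R R)
    (h1 : ∀ i, (κ i).isRight = true → ∀ l, D i (C.z (Sum.inl l)) = 0)
    (h2 : ∀ i, ¬ (κ i).isRight = true → ∀ l,
      D i (C.z (Sum.inl l)) = if κ i = Sum.inl l then 1 else 0)
    (h3 : ∀ μ : Fin p → Fin n ⊕ Fin r, (∀ i, (κ i).isRight = true → (μ i).isRight = true) →
      (∃ i, ¬ (κ i).isRight = true ∧ (μ i).isRight = true) →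
      (∏ i, D i (C.z (μ i))) * Θ (fun i => C.E (μ i)) = 0) :
    Θ D = ∑ J : Fin j → Fin r, (∏ b, D (ρ b).1 (C.z (Sum.inr (J b)))) *
      Θ (fun i => C.E (kj κ ρ J i)) := by
  classical
  have h4 : D = fun i => ∑ a, D i (C.z a) • C.E a := by
    funext i
    exact (expandD C (D i)).symm
  conv_lhs => rw [h4]
  rw [frm_expand]
  symm
  refine Fintype.sum_of_injective (kj κ ρ) (kj_inj ρ) _ _ ?_ ?_
  · intro μ hμ
    by_cases h5 : ∀ i, (κ i).isRight = true → (μ i).isRight = true
    swap
    · push Not at h5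
      obtain ⟨i, hi, hi'⟩ := h5
      rcases hl : μ i with l | b
      · rw [Finset.prod_eq_zero (Finset.mem_univ i), zero_mul]
        rw [hl]
        exact h1 i hi l
      · rw [hl] at hi'
        exact absurd rfl hi'
    by_cases h6 : ∃ i, ¬ (κ i).isRight = true ∧ (μ i).isRight = true
    · exact h3 μ h5 h6
    · push Not at h6
      have h7 : ∃ i, ¬ (κ i).isRight = true ∧ μ i ≠ κ i := by
        by_contra hcon
        push Not at hcon
        apply hμ
        have hex : ∀ b : Fin j, ∃ c, μ (ρ b).1 = Sum.inr c := fun b =>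
          Sum.isRight_iff.1 (h5 _ (ρ b).2)
        choose J hJ using hex
        refine ⟨J, ?_⟩
        funext i
        by_cases hi : (κ i).isRight = true
        · obtain ⟨b, hb⟩ := ρ.surjective ⟨i, hi⟩
          have h8 : i = (ρ b).1 := by rw [hb]
          rw [h8, kj_right, hJ]
        · rw [kj_left ρ J hi, hcon i hi]
      obtain ⟨i, hi, hne⟩ := h7
      have h8 := h6 i hi
      rcases hl : μ i with l | b
      · rw [Finset.prod_eq_zero (Finset.mem_univ i), zero_mul]
        rw [hl, h2 i hi, if_neg]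
        intro h9
        exact hne (hl.trans h9.symm)
      · rw [hl] at h8
        exact absurd rfl h8
  · intro J
    congr 1
    have h5 := prod_split ρ (f := fun i => D i (C.z (kj κ ρ J i))) (fun i hi => by
      change D i (C.z (kj κ ρ J i)) = 1
      rw [kj_left ρ J hi]
      rcases hl : κ i with l | b
      · rw [h2 i hi, if_pos hl]
      · rw [hl] at hi
        exact absurd rfl hi)
    rw [h5]
    refine Finset.prod_congr rfl fun b _ => ?_
    rw [kj_right]

theorem kj_swap {κ : Fin p → Fin n ⊕ Fin r} (ρ : Fin j ≃ {i // (κ i).isRight = true})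
    (J : Fin j → Fin r) (a b : Fin j) :
    kj κ ρ (J ∘ Equiv.swap a b) = kj κ ρ J ∘ Equiv.swap (ρ a).1 (ρ b).1 := by
  funext i
  by_cases hi : (κ i).isRight = true
  · obtain ⟨c, hc⟩ := ρ.surjective ⟨i, hi⟩
    have h8 : i = (ρ c).1 := by rw [hc]
    rw [h8, kj_right, Function.comp_apply, Function.comp_apply]
    have h9 : Equiv.swap (ρ a).1 (ρ b).1 (ρ c).1 = (ρ (Equiv.swap a b c)).1 := by
      by_cases h1 : c = a
      · rw [h1, Equiv.swap_apply_left, Equiv.swap_apply_left]
      · by_cases h2 : c = b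
        · rw [h2, Equiv.swap_apply_right, Equiv.swap_apply_right]
        · rw [Equiv.swap_apply_of_ne_of_ne h1 h2, Equiv.swap_apply_of_ne_of_ne]
          · exact fun h => h1 (ρ.injective (Subtype.ext h))
          · exact fun h => h2 (ρ.injective (Subtype.ext h))
    rw [h9, kj_right]
  · rw [kj_left ρ _ hi, Function.comp_apply]
    have h9 : Equiv.swap (ρ a).1 (ρ b).1 i = i := by
      rw [Equiv.swap_apply_of_ne_of_ne]
      · rintro rfl
        exact hi (ρ a).2
      · rintro rfl
        exact hi (ρ b).2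
    rw [h9, kj_left ρ _ hi]

end expand

end Pool.Agent.L7h62.MM
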