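import Pool.Agent.L7h62.MM.Reg

/-!
Products of a form of top degree and a form.
-/

set_option autoImplicit false
set_option linter.all false

open Module FF Pool.Agent.W602.GT Pool.Agent.W603.LV Pool.Agent.W619.PQ Pool.Agent.Y172

namespace Pool.Agent.L7h62.MM

theorem frm_sum_apply {k K ι J : Type} [Field k] [Field K] [Algebra k K] (s : Finset J)
    (g : J → Frm k K ι) (D : ι → Derivation k K K) : (∑ c ∈ s, g c) D = ∑ c ∈ s, g c D := by
  classical
  induction s using Finset.induction_on with
  | empty => rfl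
  | insert a s ha ih =>
    rw [Finset.sum_insert ha, Finset.sum_insert ha, ← ih]
    rfl

section anti

variable {R : Type} [Field R] {I ι : Type} [Fintype ι] [DecidableEq ι]

theorem Anti.perm {c : (ι → I) → R} (hc : Anti c) (π : Equiv.Perm ι) :
    ∀ κ : ι → I, c (κ ∘ π) = ((Equiv.Perm.sign π : ℤ) : R) * c κ := by
  induction π using Equiv.Perm.swap_induction_on with
  | one =>
    intro κ
    simp
  | swap_mul f x y hxy ih =>
    intro κ
    have h1 : κ ∘ ⇑(Equiv.swap x y * f) = (κ ∘ Equiv.swap x y) ∘ f := rfl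
    rw [h1, ih, hc κ x y hxy, Equiv.Perm.sign_mul, Equiv.Perm.sign_swap hxy]
    push_cast
    ring

end anti

section dd

variable {k K : Type} [Field k] [CharZero k] [Field K] [Algebra k K] {ι : Type} [Fintype ι]
  [DecidableEq ι]

/-- `d g 1 ∧ ... ∧ d g p` -/
noncomputable def dd (k : Type) {K : Type} [Field k] [Field K] [Algebra k K] {ι : Type}
    [Fintype ι] [DecidableEq ι] (g : ι → K) : Frm k K ι :=
  (Matrix.detRowAlternating (R := K) (n := ι)).compLinearMap
    (LinearMap.pi fun a => evD k (g a))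

theorem dd_apply (g : ι → K) (D : ι → Derivation k K K) :
    dd k g D = (Matrix.of fun i a => D i (g a) : Matrix ι ι K).det := rfl

/-- the sum over all columns of an antisymmetric family -/
theorem sum_dd {I : Type} [Fintype I] [DecidableEq I] (g : I → K) {c : (ι → I) → K}
    (hc : Anti c) (D : ι → Derivation k K K) :
    ∑ J : ι → I, c J * dd k (g ∘ J) D =
      (Fintype.card ι).factorial * ∑ J : ι → I, c J * ∏ i, D i (g (J i)) := by
  have h1 : ∀ J : ι → I, c J * dd k (g ∘ J) D = ∑ π : Equiv.Perm ι,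
      ((Equiv.Perm.sign π : ℤ) : K) * (c J * ∏ i, D i (g ((J ∘ π.symm) i))) := by
    intro J
    rw [dd_apply, Matrix.det_apply', Finset.mul_sum]
    refine Finset.sum_congr rfl fun π _ => ?_
    have h2 : ∏ i, (Matrix.of fun i a => D i ((g ∘ J) a) : Matrix ι ι K) (π i) i =
        ∏ i, D i (g ((J ∘ π.symm) i)) := by
      rw [← Equiv.prod_comp π (fun i => D i (g ((J ∘ π.symm) i)))]
      refine Finset.prod_congr rfl fun i _ => ?_
      simp
    rw [h2]
    ring
  rw [Finset.sum_congr rfl fun J _ => h1 J, Finset.sum_comm]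
  have h3 : ∀ π : Equiv.Perm ι, ∑ J : ι → I,
      ((Equiv.Perm.sign π : ℤ) : K) * (c J * ∏ i, D i (g ((J ∘ π.symm) i))) =
      ∑ J : ι → I, c J * ∏ i, D i (g (J i)) := by
    intro π
    refine Fintype.sum_equiv (Equiv.arrowCongr π (Equiv.refl I)) _ _ fun J => ?_
    have h4 : (Equiv.arrowCongr π (Equiv.refl I)) J = J ∘ π.symm := by
      funext i
      simp [Equiv.arrowCongr]
    rw [h4]
    have h5 : c J = c ((J ∘ π.symm) ∘ π) := by
      congr 1
      funext i
      simp
    conv_lhs => rw [h5, hc.perm π]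
    have h6 : ((Equiv.Perm.sign π : ℤ) : K) * ((Equiv.Perm.sign π : ℤ) : K) = 1 := by
      rw [← Int.cast_mul]
      have h7 : ((Equiv.Perm.sign π : ℤ)) * (Equiv.Perm.sign π : ℤ) = 1 := by
        rcases Int.units_eq_one_or (Equiv.Perm.sign π) with h | h <;> rw [h] <;> simp
      rw [h7, Int.cast_one]
    linear_combination (c (J ∘ π.symm) * ∏ i, D i (g ((J ∘ π.symm) i))) * h6
  rw [Finset.sum_congr rfl fun π _ => h3 π, Finset.sum_const, Finset.card_univ,
    Fintype.card_perm, nsmul_eq_mul]

end dd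

section wedge

variable {k F K : Type} [Field k] [CharZero k] [Field F] [Field K] [Algebra k F] [Algebra k K]
  [Algebra F K] [IsScalarTower k F K] {I : Type} [Fintype I] [DecidableEq I]
  {n j : ℕ}

/-- `f d x 1 ∧ ... ∧ d x n ∧ φ` -/
noncomputable def wdg (C : Crd k F I) (f : K) (x : Fin n → K) (φ : Frm k F (Fin j)) :
    Frm k K (Fin n ⊕ Fin j) :=
  ∑ J : Fin j → I, (((j.factorial : ℕ) : K)⁻¹ * (f * algebraMap F K (φ fun i => C.E (J i)))) •
    dd k (Sum.elim x fun b => algebraMap F K (C.z (J b)))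

theorem wdg_apply (C : Crd k F I) (f : K) (x : Fin n → K) (φ : Frm k F (Fin j))
    (D : Fin n ⊕ Fin j → Derivation k K K) : wdg C f x φ D = ∑ J : Fin j → I,
      (((j.factorial : ℕ) : K)⁻¹ * (f * algebraMap F K (φ fun i => C.E (J i)))) *
        dd k (Sum.elim x fun b => algebraMap F K (C.z (J b))) D := by
  unfold wdg
  rw [frm_sum_apply]
  rfl

theorem wdg_smul (C : Crd k F I) (f g : K) (x : Fin n → K) (φ : Frm k F (Fin j)) :
    wdg C (g * f) x φ = g • wdg C f x φ := by
  ext D
  rw [wdg_apply, AlternatingMap.smul_apply, wdg_apply, smul_eq_mul, Finset.mul_sum]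
  refine Finset.sum_congr rfl fun J _ => ?_
  ring

/-- values on dual derivations -/
theorem wdg_val (C : Crd k F I) (f : K) (x : Fin n → K) (φ : Frm k F (Fin j))
    {A : Fin n → Derivation k K K} {U : Fin j → Derivation k K K}
    (hA : ∀ i l, A i (x l) = if i = l then 1 else 0) (hU : ∀ b l, U b (x l) = 0) :
    wdg C f x φ (Sum.elim A U) = f * extF C (emb k F K) φ U := by
  have hc : CharZero K := charZero_of_injective_algebraMap (algebraMap k K).injective
  rw [wdg_apply, extF_apply]
  have h1 : ∀ J : Fin j → I, dd k (Sum.elim x fun b => algebraMap F K (C.z (J b)))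
      (Sum.elim A U) = dd k ((fun i => algebraMap F K (C.z i)) ∘ J) U := by
    intro J
    rw [dd_apply, dd_apply]
    have h2 : (Matrix.of fun i a => (Sum.elim A U : Fin n ⊕ Fin j → Derivation k K K) i
        ((Sum.elim x fun b => algebraMap F K (C.z (J b)) : Fin n ⊕ Fin j → K) a) :
        Matrix (Fin n ⊕ Fin j) (Fin n ⊕ Fin j) K) = Matrix.fromBlocks 1
          (Matrix.of fun i b => A i (algebraMap F K (C.z (J b)))) 0
          (Matrix.of fun i b => U i (algebraMap F K (C.z (J b)))) := by
      ext i a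
      rcases i with i | i <;> rcases a with a | a
      · simp [hA, Matrix.one_apply]
      · rfl
      · simp [hU]
      · rfl
    rw [h2, Matrix.det_fromBlocks_zero₂₁, Matrix.det_one, one_mul]
    rfl
  have h3 := sum_dd (k := k) (K := K) (fun i => algebraMap F K (C.z i))
    (anti_frm φ (emb k F K) C.E) U
  have h4 : ∑ J : Fin j → I,
      (((j.factorial : ℕ) : K)⁻¹ * (f * algebraMap F K (φ fun i => C.E (J i)))) *
        dd k (Sum.elim x fun b => algebraMap F K (C.z (J b))) (Sum.elim A U) =
      ((j.factorial : ℕ) : K)⁻¹ * (f * ∑ J : Fin j → I, (emb k F K) (φ fun i => C.E (J i)) *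
        dd k ((fun i => algebraMap F K (C.z i)) ∘ J) U) := by
    rw [Finset.mul_sum, Finset.mul_sum]
    refine Finset.sum_congr rfl fun J _ => ?_
    rw [h1]
    change _ = ((j.factorial : ℕ) : K)⁻¹ * (f * (algebraMap F K (φ fun i => C.E (J i)) * _))
    ring
  rw [h4, h3, Fintype.card_fin]
  have h5 : ((j.factorial : ℕ) : K) ≠ 0 := by exact_mod_cast j.factorial_ne_zero
  have h6 : ∀ X : K, ((j.factorial : ℕ) : K)⁻¹ * (f * (((j.factorial : ℕ) : K) * X)) = f * X := by
    intro X
    field_simp
  exact h6 _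

/-- change of the coordinates of `F` -/
theorem wdg_crd {J' : Type} [Fintype J'] [DecidableEq J'] (C : Crd k F I) (C' : Crd k F J')
    (f : K) (x : Fin n → K) (φ : Frm k F (Fin j)) : wdg C f x φ = wdg C' f x φ := by
  ext D
  rw [wdg_apply, wdg_apply]
  obtain ⟨X, hX⟩ : ∃ X : Fin n → (Fin n ⊕ Fin j → K), ∀ l i, X l i = D i (x l) :=
    ⟨fun l i => D i (x l), fun _ _ => rfl⟩
  let B : MultilinearMap K (fun _ : Fin j => Fin n ⊕ Fin j → K) K :=
    (Matrix.detRowAlternating (R := K) (n := Fin n ⊕ Fin j)).toMultilinearMap.currySum X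
  have hB : ∀ g : Fin j → K, dd k (Sum.elim x g) D = B fun b i => D i (g b) := by
    intro g
    rw [dd_apply, ← Matrix.det_transpose]
    change _ = Matrix.det (fun a => Sum.rec X (fun b i => D i (g b)) a)
    congr 1
    ext a i
    rcases a with a | a
    · exact (hX a i).symm
    · rfl
  have h1 : ∀ J : Fin j → I, dd k (Sum.elim x fun b => algebraMap F K (C.z (J b))) D =
      ∑ μ : Fin j → J', algebraMap F K (∏ b, C'.E (μ b) (C.z (J b))) *
        dd k (Sum.elim x fun b => algebraMap F K (C'.z (μ b))) D := by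
    intro J
    rw [hB]
    have h2 : (fun (b : Fin j) (i : Fin n ⊕ Fin j) => D i (algebraMap F K (C.z (J b)))) =
        fun b => ∑ c, algebraMap F K (C'.E c (C.z (J b))) •
          fun i => D i (algebraMap F K (C'.z c)) := by
      funext b i
      rw [Finset.sum_apply]
      have h3 := chainA C' (emb k F K) (D i) (C.z (J b))
      refine h3.trans (Finset.sum_congr rfl fun c _ => ?_)
      rw [mul_comm]
      rfl
    rw [h2, MultilinearMap.map_sum]
    refine Finset.sum_congr rfl fun μ _ => ?_
    rw [MultilinearMap.map_smul_univ, hB, map_prod, smul_eq_mul]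
  have h4 : ∀ J : Fin j → I,
      (((j.factorial : ℕ) : K)⁻¹ * (f * algebraMap F K (φ fun i => C.E (J i)))) *
        dd k (Sum.elim x fun b => algebraMap F K (C.z (J b))) D =
      ∑ μ : Fin j → J', (((j.factorial : ℕ) : K)⁻¹ * (f * algebraMap F K
        ((∏ b, C'.E (μ b) (C.z (J b))) * φ fun i => C.E (J i)))) *
        dd k (Sum.elim x fun b => algebraMap F K (C'.z (μ b))) D := by
    intro J
    rw [h1, Finset.mul_sum]
    refine Finset.sum_congr rfl fun μ _ => ?_
    rw [map_mul]
    ring
  rw [Finset.sum_congr rfl fun J _ => h4 J, Finset.sum_comm]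
  refine Finset.sum_congr rfl fun μ _ => ?_
  rw [← Finset.sum_mul, ← Finset.mul_sum, ← Finset.mul_sum, ← map_sum]
  congr 4
  have h5 : (fun i => C'.E (μ i)) = fun i => ∑ c, C'.E (μ i) (C.z c) • C.E c := by
    funext i
    exact (expandD C (C'.E (μ i))).symm
  rw [h5, frm_expand]

/-- change of the coordinates of the first factor -/
theorem dd_left {x u : Fin n → K} {A : Matrix (Fin n) (Fin n) K}
    (hA : ∀ (D : Derivation k K K) l, D (x l) = ∑ a, D (u a) * A a l) (g : Fin j → K)
    (D : Fin n ⊕ Fin j → Derivation k K K) :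
    dd k (Sum.elim x g) D = A.det * dd k (Sum.elim u g) D := by
  rw [dd_apply, dd_apply]
  have h1 : (Matrix.of fun i a => D i ((Sum.elim x g : Fin n ⊕ Fin j → K) a) :
      Matrix (Fin n ⊕ Fin j) (Fin n ⊕ Fin j) K) =
      (Matrix.of fun i a => D i ((Sum.elim u g : Fin n ⊕ Fin j → K) a)) *
        Matrix.fromBlocks A 0 0 1 := by
    ext i a
    rw [Matrix.mul_apply, Fintype.sum_sum_type]
    rcases a with a | a
    · simp [hA]
    · simp [Matrix.one_apply]
  rw [h1, Matrix.det_mul, Matrix.det_fromBlocks_zero₂₁, Matrix.det_one, mul_one, mul_comm]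

/-- **Products of regular forms are regular.** -/
theorem wdg_reg [Algebra.EssFiniteType k F] (C : Crd k F I) {N : ℕ}
    (hK : Algebra.trdeg k K = N) {φ : Frm k F (Fin j)}
    (hφ : ∀ P : Place k F, Divisorial (Fintype.card I) P → RegF φ P) {Q : Place k K}
    (hQ : Divisorial N Q) {f : K} {x u : Fin n → K} {A : Matrix (Fin n) (Fin n) K}
    (hA : ∀ (D : Derivation k K K) l, D (x l) = ∑ a, D (u a) * A a l) (hu : ∀ a, Q.Reg (u a))
    (hf : Q.Reg (f * A.det)) : RegF (wdg C f x φ) Q := by
  have hcK : CharZero K := charZero_of_injective_algebraMap (algebraMap k K).injective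
  have key : ∀ {J' : Type} [Fintype J'] [DecidableEq J'] (C' : Crd k F J'),
      (∀ c, Q.Reg (algebraMap F K (C'.z c))) →
      (∀ J : Fin j → J', Q.Reg (algebraMap F K (φ fun i => C'.E (J i)))) →
      RegF (wdg C f x φ) Q := by
    intro J' _ _ C' h1 h2 D hD
    rw [wdg_crd C C', wdg_apply]
    refine reg_sum Q _ _ fun J _ => ?_
    rw [dd_left hA]
    have h3 : ((j.factorial : ℕ) : K)⁻¹ * (f * algebraMap F K (φ fun i => C'.E (J i))) *
        (A.det * dd k (Sum.elim u fun b => algebraMap F K (C'.z (J b))) D) =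
        ((j.factorial : ℕ) : K)⁻¹ * ((f * A.det) * (algebraMap F K (φ fun i => C'.E (J i)) *
          dd k (Sum.elim u fun b => algebraMap F K (C'.z (J b))) D)) := by ring
    rw [h3]
    refine Q.reg_mul ?_ (Q.reg_mul hf (Q.reg_mul (h2 J) ?_))
    · have h4 : ((j.factorial : ℕ) : K)⁻¹ = algebraMap k K (((j.factorial : ℕ) : k)⁻¹) := by
        rw [map_inv₀, map_natCast]
      rw [h4]
      exact Q.reg_const _
    · rw [dd_apply, Matrix.det_apply]
      refine reg_sum Q _ _ fun π _ => ?_
      have h5 : Q.Reg (∏ i, (Matrix.of fun i a => D i ((Sum.elim u fun b =>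
          algebraMap F K (C'.z (J b)) : Fin n ⊕ Fin j → K) a) :
          Matrix (Fin n ⊕ Fin j) (Fin n ⊕ Fin j) K) (π i) i) := by
        refine reg_prod Q _ _ fun i _ => ?_
        refine hD _ _ ?_
        rcases i with i | i
        · exact hu i
        · exact h1 _
      rcases Int.units_eq_one_or (Equiv.Perm.sign π) with h | h
      · rw [h, one_smul]
        exact h5
      · rw [h, Units.neg_smul, one_smul]
        exact Q.reg_neg h5
  by_cases htriv : ∃ f : F, Q.ord (algebraMap F K f) ≠ 0
  · obtain ⟨e, P, hP⟩ := exists_over Q htriv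
    have hPd : Divisorial (Fintype.card I) P := t_abh C.trdeg hK hP hQ
    obtain ⟨y, E, i0, hloc⟩ := exists_loc C.trdeg hPd
    exact key ⟨y, E, hloc.bas, hloc.dual⟩ (fun c => hP.reg.2 (hloc.reg c))
      fun J => hP.reg.2 (hφ P hPd _ fun i => hloc.pres _)
  · push Not at htriv
    have h0 : ∀ f : F, Q.Reg (algebraMap F K f) := fun f => Or.inr (htriv f).ge
    exact key C (fun c => h0 _) fun J => h0 _

end wedge

end Pool.Agent.L7h62.MM
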